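import Mathlib

set_option autoImplicit false

namespace Pool.Agent.P.MP_abed8b_co

open Finset

/-- The chromatic polynomial at a real point, by the subgraph expansion. -/
noncomputable def chrom {V : Type} [Fintype V] [DecidableEq V] (G : SimpleGraph V)
    [DecidableRel G.Adj] (q : ℝ) : ℝ :=
  ∑ S ∈ G.edgeFinset.powerset, (-1 : ℝ) ^ S.card *
    q ^ Nat.card (SimpleGraph.fromEdgeSet (S : Set (Sym2 V))).ConnectedComponent

/-- The conjecture. -/
def Conj : Prop :=
  ∀ (V : Type) [Fintype V] [DecidableEq V] (G : SimpleGraph V) [DecidableRel G.Adj]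
      (A : Set V) (dA dB : ℕ),
      (∀ u v : V, G.Adj u v → (u ∈ A ↔ v ∉ A)) →
      (∀ v : V, v ∈ A → G.degree v ≤ dA) →
      (∀ v : V, v ∉ A → G.degree v ≤ dB) →
      ∀ q : ℝ, ((min dA dB : ℕ) : ℝ) < q → 0 < chrom G q

/-- Maps that are constant on the edges of `S` are the maps on the set of components. -/
theorem card_const {V : Type} [Fintype V] [DecidableEq V] (S : Finset (Sym2 V)) (k : ℕ) :
    (univ.filter fun σ : V → Fin k => ∀ e ∈ S, (e.map σ).IsDiag).card =
      k ^ Nat.card (SimpleGraph.fromEdgeSet (S : Set (Sym2 V))).ConnectedComponent := by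
  classical
  set H := SimpleGraph.fromEdgeSet (S : Set (Sym2 V)) with hH
  have hr : ∀ σ : V → Fin k, (∀ e ∈ S, (e.map σ).IsDiag) → ∀ u v, H.Reachable u v → σ u = σ v := by
    rintro σ hσ u v ⟨p⟩
    induction p with
    | nil => rfl
    | cons h p ih =>
      rw [← ih]
      rw [hH, SimpleGraph.fromEdgeSet_adj] at h
      simpa using hσ _ h.1
  have e : {σ : V → Fin k // ∀ e ∈ S, (e.map σ).IsDiag} ≃ (H.ConnectedComponent → Fin k) :=
    { toFun := fun σ => Quot.lift σ.1 (hr σ.1 σ.2)
      invFun := fun f => ⟨fun v => f (H.connectedComponentMk v), by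
        intro e he
        induction e using Sym2.ind with
        | _ u v =>
          by_cases huv : u = v
          · simp [huv]
          · have : H.Adj u v := by
              rw [hH, SimpleGraph.fromEdgeSet_adj]
              exact ⟨he, huv⟩
            simp [SimpleGraph.ConnectedComponent.connectedComponentMk_eq_of_adj this]⟩
      left_inv := fun σ => rfl
      right_inv := fun f => by
        funext c
        induction c using Quot.ind with
        | _ v => rfl }
  rw [← Fintype.card_subtype, ← Nat.card_eq_fintype_card, Nat.card_congr e, Nat.card_fun]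
  simp

/-- At a natural number the subgraph expansion counts proper colourings. -/
theorem chrom_nat {V : Type} [Fintype V] [DecidableEq V] (G : SimpleGraph V)
    [DecidableRel G.Adj] (k : ℕ) :
    chrom G (k : ℝ) = ∑ σ : V → Fin k, if ∀ u v, G.Adj u v → σ u ≠ σ v then (1 : ℝ) else 0 := by
  classical
  have h1 : ∀ σ : V → Fin k, (if ∀ u v, G.Adj u v → σ u ≠ σ v then (1 : ℝ) else 0) =
      ∏ e ∈ G.edgeFinset, (1 - if (e.map σ).IsDiag then (1 : ℝ) else 0) := by
    intro σ
    split_ifs with h
    · refine (Finset.prod_eq_one fun e he => ?_).symm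
      induction e using Sym2.ind with
      | _ u v =>
        have := h u v (by simpa using he)
        simp [this]
    · push Not at h
      obtain ⟨u, v, huv, hσ⟩ := h
      refine (Finset.prod_eq_zero (i := s(u, v)) (by simpa using huv) ?_).symm
      simp [hσ]
  simp_rw [h1, Finset.prod_sub, Finset.prod_const_one, mul_one]
  rw [Finset.sum_comm, chrom]
  refine Finset.sum_congr rfl fun S _ => ?_
  rw [← Finset.mul_sum]
  congr 1
  simp_rw [Finset.prod_ite_zero, Finset.prod_const_one]
  rw [Finset.sum_boole, card_const]
  push_cast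
  rfl

/-- The incidence graph of a hypergraph. -/
def inc {A : Type} {M : ℕ} (N : Fin M → Finset A) : SimpleGraph (A ⊕ Fin M) where
  Adj x y := match x, y with
    | .inl a, .inr j => a ∈ N j
    | .inr j, .inl a => a ∈ N j
    | _, _ => False
  symm := ⟨by rintro (a | j) (b | i) h <;> exact h⟩
  loopless := ⟨by rintro (a | j) h <;> exact h⟩

/-- The incidence graph of a hypergraph `N` on `A`: the chromatic polynomial, its values at
natural numbers, a crude bound, and what the conjecture says about it. -/
theorem exists_poly (hC : Conj) (A : Type) [Fintype A] [DecidableEq A] (M : ℕ)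
    (N : Fin M → Finset A) :
    ∃ P : Polynomial ℝ,
      (∀ k : ℕ, P.eval (k : ℝ) =
        ∑ σ : A → Fin k, ∏ j, ∑ c : Fin k, if ∀ a ∈ N j, σ a ≠ c then (1 : ℝ) else 0) ∧
      (∀ q : ℝ, 1 ≤ q → |P.eval q| ≤ q ^ Fintype.card A * (2 ^ Fintype.card A * q) ^ M) ∧
      ∀ (d : ℕ) (q : ℝ), (∀ j, (N j).card ≤ d) → (d : ℝ) < q → 0 < P.eval q := by
  classical
  set G := inc N with hG
  refine ⟨∑ S ∈ G.edgeFinset.powerset, Polynomial.C ((-1 : ℝ) ^ S.card) * Polynomial.X ^
    Nat.card (SimpleGraph.fromEdgeSet (S : Set (Sym2 (A ⊕ Fin M)))).ConnectedComponent, ?_⟩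
  have hev : ∀ q : ℝ, (∑ S ∈ G.edgeFinset.powerset, Polynomial.C ((-1 : ℝ) ^ S.card) *
      Polynomial.X ^ Nat.card
        (SimpleGraph.fromEdgeSet (S : Set (Sym2 (A ⊕ Fin M)))).ConnectedComponent).eval q
      = chrom G q := by
    intro q
    simp [chrom, Polynomial.eval_finsetSum]
  simp only [hev]
  refine ⟨fun k => ?_, fun q hq => ?_, fun d q hd hq => ?_⟩
  · rw [chrom_nat, ← (Equiv.sumArrowEquivProdArrow A (Fin M) (Fin k)).symm.sum_comp,
      Fintype.sum_prod_type]
    refine Finset.sum_congr rfl fun σ _ => ?_
    rw [Finset.prod_univ_sum, Fintype.piFinset_univ]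
    refine Finset.sum_congr rfl fun τ _ => ?_
    rw [Finset.prod_ite_zero, Finset.prod_const_one]
    have key : (∀ u v, G.Adj u v → (Equiv.sumArrowEquivProdArrow A (Fin M) (Fin k)).symm (σ, τ) u ≠
        (Equiv.sumArrowEquivProdArrow A (Fin M) (Fin k)).symm (σ, τ) v) ↔
        ∀ j ∈ (univ : Finset (Fin M)), ∀ a ∈ N j, σ a ≠ τ j := ?_
    · simp only [key]
      congr
    constructor
    · intro h j _ a ha
      exact h (.inl a) (.inr j) ha
    · rintro h (a | j) (b | i) hab
      · exact hab.elim
      · exact h i (mem_univ _) a hab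
      · exact (h j (mem_univ _) b hab).symm
      · exact hab.elim
  · have hE : G.edgeFinset.card ≤ Fintype.card A * M := by
      have : G.edgeFinset ⊆ (univ : Finset (A × Fin M)).image
          fun p => s(Sum.inl p.1, Sum.inr p.2) := by
        intro e he
        induction e using Sym2.ind with
        | _ u v =>
          have huv : G.Adj u v := by simpa using he
          rcases u with a | j <;> rcases v with b | i
          · exact huv.elim
          · exact mem_image.2 ⟨(a, i), mem_univ _, rfl⟩
          · exact mem_image.2 ⟨(b, j), mem_univ _, Sym2.eq_swap⟩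
          · exact huv.elim
      refine (card_le_card this).trans (card_image_le.trans ?_)
      simp
    have hc : ∀ S : Finset (Sym2 (A ⊕ Fin M)), Nat.card
        (SimpleGraph.fromEdgeSet (S : Set (Sym2 (A ⊕ Fin M)))).ConnectedComponent
          ≤ Fintype.card A + M := by
      intro S
      refine (Nat.card_le_card_of_surjective _ Quot.mk_surjective).trans ?_
      simp
    calc |chrom G q| ≤ ∑ S ∈ G.edgeFinset.powerset, q ^ (Fintype.card A + M) := by
          refine (Finset.abs_sum_le_sum_abs _ _).trans (Finset.sum_le_sum fun S _ => ?_)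
          rw [abs_mul, abs_pow, abs_neg, abs_one, one_pow, one_mul,
            abs_of_nonneg (by positivity)]
          exact pow_le_pow_right₀ hq (hc S)
      _ = 2 ^ G.edgeFinset.card * q ^ (Fintype.card A + M) := by
          simp
      _ ≤ 2 ^ (Fintype.card A * M) * q ^ (Fintype.card A + M) := by
          gcongr
          norm_num
      _ = _ := by
          rw [mul_pow, ← pow_mul, pow_add]
          ring
  · refine hC (A ⊕ Fin M) G (Set.range Sum.inl) (Fintype.card (A ⊕ Fin M)) d ?_
      (fun v _ => (G.degree_lt_card_verts v).le) ?_ q ?_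
    · rintro (a | j) (b | i) hab
      · exact hab.elim
      · simp
      · simp
      · exact hab.elim
    · rintro (a | j) hv
      · simp at hv
      · have : G.neighborFinset (.inr j) ⊆ (N j).image Sum.inl := by
          rintro (a | i) h
          · exact mem_image.2 ⟨a, by
              rw [SimpleGraph.mem_neighborFinset] at h
              exact h, rfl⟩
          · rw [SimpleGraph.mem_neighborFinset] at h
            exact h.elim
        exact (card_le_card this).trans (card_image_le.trans (hd j))
    · refine lt_of_le_of_lt ?_ hq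
      exact_mod_cast min_le_right _ _

end Pool.Agent.P.MP_abed8b_co
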