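import Mathlib

set_option autoImplicit false

namespace Pool.Agent.P.MP_abed8b_co

open Set

/-- Maxwell construction: if the second derivative has the sign of `u - c0` with `u` strictly
unimodal, two critical points with equal value are the only maximisers. -/
theorem maxwell (f z u v : ℝ → ℝ) (c0 αc a b : ℝ) (hf : ContinuousOn f (Icc 0 1))
    (hfz : ∀ x ∈ Ioo (0 : ℝ) 1, HasDerivAt f (z x) x)
    (hzu : ∀ x ∈ Ioo (0 : ℝ) 1, HasDerivAt z ((u x - c0) * v x) x)
    (hv : ∀ x ∈ Ioo (0 : ℝ) 1, 0 < v x)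
    (hu1 : StrictMonoOn u (Ioc 0 αc)) (hu2 : StrictAntiOn u (Ico αc 1))
    (hb : 0 < b) (hab : b < a) (ha : a < 1) (hza : z a = 0) (hzb : z b = 0) (heq : f b = f a) :
    ∀ x ∈ Icc (0 : ℝ) 1, x ≠ a → x ≠ b → f x < f a := by
  have ha0 : 0 < a := hb.trans hab
  have hb1 : b < 1 := hab.trans ha
  have hsub : ∀ {p q : ℝ}, 0 < p → q < 1 → Icc p q ⊆ Ioo (0 : ℝ) 1 :=
    fun hp hq x hx => ⟨hp.trans_le hx.1, hx.2.trans_lt hq⟩
  have hsub' : ∀ {p q : ℝ}, 0 ≤ p → q ≤ 1 → Ioo p q ⊆ Ioo (0 : ℝ) 1 :=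
    fun hp hq x hx => ⟨hp.trans_lt hx.1, hx.2.trans_le hq⟩
  have hzc : ContinuousOn z (Ioo 0 1) := fun x hx => (hzu x hx).continuousAt.continuousWithinAt
  obtain ⟨c, hc, hzc0⟩ := exists_hasDerivAt_eq_zero hab
    (hf.mono (Icc_subset_Icc hb.le ha.le)) heq (fun x hx => hfz x (hsub' hb.le ha.le hx))
  have hc0 : 0 < c := hb.trans hc.1
  have hc1 : c < 1 := hc.2.trans ha
  obtain ⟨c1, hc1m, h1⟩ := exists_hasDerivAt_eq_zero hc.1
    (hzc.mono (hsub hb hc1)) (hzb.trans hzc0.symm) (fun x hx => hzu x (hsub' hb.le hc1.le hx))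
  obtain ⟨c2, hc2m, h2⟩ := exists_hasDerivAt_eq_zero hc.2
    (hzc.mono (hsub hc0 ha)) (hzc0.trans hza.symm) (fun x hx => hzu x (hsub' hc0.le ha.le hx))
  have hc1I : c1 ∈ Ioo (0 : ℝ) 1 := hsub' hb.le hc1.le hc1m
  have hc2I : c2 ∈ Ioo (0 : ℝ) 1 := hsub' hc0.le ha.le hc2m
  have hu1' : u c1 = c0 := by
    rcases mul_eq_zero.1 h1 with h | h
    · linarith
    · exact absurd h (hv c1 hc1I).ne'
  have hu2' : u c2 = c0 := by
    rcases mul_eq_zero.1 h2 with h | h
    · linarith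
    · exact absurd h (hv c2 hc2I).ne'
  have h12 : c1 < c2 := hc1m.2.trans hc2m.1
  have hα1 : c1 < αc := by
    by_contra hcon
    push Not at hcon
    have := hu2 ⟨hcon, hc1I.2⟩ ⟨hcon.trans h12.le, hc2I.2⟩ h12
    linarith
  have hα2 : αc < c2 := by
    by_contra hcon
    push Not at hcon
    have := hu1 ⟨hc1I.1, h12.le.trans hcon⟩ ⟨hc2I.1, hcon⟩ h12
    linarith
  -- monotonicity of `z`
  have zA : StrictAntiOn z (Ioc 0 c1) := by
    apply strictAntiOn_of_deriv_neg (convex_Ioc _ _)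
      (hzc.mono fun x hx => ⟨hx.1, hx.2.trans_lt hc1I.2⟩)
    intro x hx
    rw [interior_Ioc] at hx
    have hxI : x ∈ Ioo (0 : ℝ) 1 := ⟨hx.1, hx.2.trans hc1I.2⟩
    rw [(hzu x hxI).deriv]
    have := hu1 ⟨hx.1, (hx.2.trans hα1).le⟩ ⟨hc1I.1, hα1.le⟩ hx.2
    exact mul_neg_of_neg_of_pos (by linarith) (hv x hxI)
  have zB : StrictMonoOn z (Icc c1 c2) := by
    apply strictMonoOn_of_deriv_pos (convex_Icc _ _) (hzc.mono (hsub hc1I.1 hc2I.2))
    intro x hx
    rw [interior_Icc] at hx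
    have hxI : x ∈ Ioo (0 : ℝ) 1 := hsub' hc1I.1.le hc2I.2.le hx
    rw [(hzu x hxI).deriv]
    refine mul_pos ?_ (hv x hxI)
    rcases le_total x αc with h | h
    · have := hu1 ⟨hc1I.1, hα1.le⟩ ⟨hxI.1, h⟩ hx.1
      linarith
    · have := hu2 ⟨h, hxI.2⟩ ⟨hα2.le, hc2I.2⟩ hx.2
      linarith
  have zC : StrictAntiOn z (Ico c2 1) := by
    apply strictAntiOn_of_deriv_neg (convex_Ico _ _)
      (hzc.mono fun x hx => ⟨hc2I.1.trans_le hx.1, hx.2⟩)
    intro x hx
    rw [interior_Ico] at hx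
    have hxI : x ∈ Ioo (0 : ℝ) 1 := ⟨hc2I.1.trans hx.1, hx.2⟩
    rw [(hzu x hxI).deriv]
    have := hu2 ⟨hα2.le, hc2I.2⟩ ⟨(hα2.trans hx.1).le, hx.2⟩ hx.1
    exact mul_neg_of_neg_of_pos (by linarith) (hv x hxI)
  -- monotonicity of `f`
  have fA : StrictMonoOn f (Icc 0 b) := by
    apply strictMonoOn_of_deriv_pos (convex_Icc _ _) (hf.mono (Icc_subset_Icc le_rfl hb1.le))
    intro x hx
    rw [interior_Icc] at hx
    rw [(hfz x (hsub' le_rfl hb1.le hx)).deriv]
    have := zA ⟨hx.1, (hx.2.trans hc1m.1).le⟩ ⟨hb, hc1m.1.le⟩ hx.2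
    linarith
  have fB : StrictAntiOn f (Icc b c) := by
    apply strictAntiOn_of_deriv_neg (convex_Icc _ _) (hf.mono (Icc_subset_Icc hb.le hc1.le))
    intro x hx
    rw [interior_Icc] at hx
    rw [(hfz x (hsub' hb.le hc1.le hx)).deriv]
    rcases le_total x c1 with h | h
    · have := zA ⟨hb, hc1m.1.le⟩ ⟨hb.trans hx.1, h⟩ hx.1
      linarith
    · have := zB ⟨h, (hx.2.trans hc2m.1).le⟩ ⟨hc1m.2.le, hc2m.1.le⟩ hx.2
      linarith
  have fC : StrictMonoOn f (Icc c a) := by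
    apply strictMonoOn_of_deriv_pos (convex_Icc _ _) (hf.mono (Icc_subset_Icc hc0.le ha.le))
    intro x hx
    rw [interior_Icc] at hx
    rw [(hfz x (hsub' hc0.le ha.le hx)).deriv]
    rcases le_total x c2 with h | h
    · have := zB ⟨hc1m.2.le, hc2m.1.le⟩ ⟨(hc1m.2.trans hx.1).le, h⟩ hx.1
      linarith
    · have := zC ⟨h, hx.2.trans ha⟩ ⟨hc2m.2.le, ha⟩ hx.2
      linarith
  have fD : StrictAntiOn f (Icc a 1) := by
    apply strictAntiOn_of_deriv_neg (convex_Icc _ _) (hf.mono (Icc_subset_Icc ha0.le le_rfl))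
    intro x hx
    rw [interior_Icc] at hx
    rw [(hfz x (hsub' ha0.le le_rfl hx)).deriv]
    have := zC ⟨hc2m.2.le, ha⟩ ⟨(hc2m.2.trans hx.1).le, hx.2⟩ hx.1
    linarith
  intro x hx hxa hxb
  rcases lt_or_gt_of_ne hxb with h | h
  · have := fA ⟨hx.1, h.le⟩ ⟨hb.le, le_rfl⟩ h
    linarith
  rcases le_total x c with h' | h'
  · have := fB ⟨le_rfl, hc.1.le⟩ ⟨h.le, h'⟩ h
    linarith
  rcases lt_or_gt_of_ne hxa with h'' | h''
  · exact fC ⟨h', h''.le⟩ ⟨hc.2.le, le_rfl⟩ h''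
  · exact fD ⟨le_rfl, ha.le⟩ ⟨h''.le, hx.2⟩ h''

/-- Free energy of one colour inside a cluster. -/
noncomputable def g1 (d : ℕ) (τ h : ℝ) (x : ℝ) : ℝ :=
  -(x * Real.log x) + x + τ * (1 - x) ^ d + h * x

/-- Free energy of one colour in the system of clusters. -/
noncomputable def g2 (T h : ℝ) (x : ℝ) : ℝ :=
  -(x * Real.log x) - (1 - x) * Real.log (1 - x) + T * Real.exp (-(24 / 5 * x)) + h * x

theorem g1_cont (d : ℕ) (τ h : ℝ) : Continuous (g1 d τ h) := by
  unfold g1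
  have := Real.continuous_mul_log
  fun_prop

theorem g2_cont (T h : ℝ) : Continuous (g2 T h) := by
  unfold g2
  have h1 := Real.continuous_mul_log
  have h2 : Continuous fun x : ℝ => (1 - x) * Real.log (1 - x) :=
    Real.continuous_mul_log.comp (continuous_const.sub continuous_id)
  exact ((h1.neg.sub h2).add (by fun_prop)).add (by fun_prop)

theorem maxa_exp4 : (50 : ℝ) < Real.exp 4 := by
  have h := Real.exp_one_gt_d9
  have h4 : Real.exp 4 = Real.exp 1 ^ 4 := by rw [← Real.exp_nat_mul]; norm_num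
  rw [h4]
  have : (2.7 : ℝ) ^ 4 ≤ Real.exp 1 ^ 4 := pow_le_pow_left₀ (by norm_num) (by linarith) 4
  norm_num at this ⊢
  linarith

theorem maxa_u_deriv (k : ℕ) (x : ℝ) : HasDerivAt (fun x : ℝ => x * (1 - x) ^ (k + 1))
    ((1 - x) ^ k * (1 - (k + 2) * x)) x := by
  have h2 : HasDerivAt (fun x : ℝ => (1 - x) ^ (k + 1)) (((k + 1 : ℕ) : ℝ) * (1 - x) ^ k * (-1)) x :=
    ((hasDerivAt_id' x).const_sub 1).fun_pow (k + 1)
  refine HasDerivAt.congr_deriv ((hasDerivAt_id' x).fun_mul h2) ?_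
  push_cast
  ring

theorem maxa_u_mono (k : ℕ) :
    StrictMonoOn (fun x : ℝ => x * (1 - x) ^ (k + 1)) (Ioc 0 (1 / (k + 2))) := by
  apply strictMonoOn_of_deriv_pos (convex_Ioc _ _) (by fun_prop)
  intro x hx
  rw [interior_Ioc] at hx
  rw [(maxa_u_deriv k x).deriv]
  have hk : (0 : ℝ) ≤ k := Nat.cast_nonneg k
  have h1 : x * (k + 2) < 1 := (lt_div_iff₀ (by positivity)).1 hx.2
  have h0 := hx.1
  exact mul_pos (pow_pos (by nlinarith) _) (by linarith)

theorem maxa_u_anti (k : ℕ) :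
    StrictAntiOn (fun x : ℝ => x * (1 - x) ^ (k + 1)) (Ico (1 / (k + 2)) 1) := by
  apply strictAntiOn_of_deriv_neg (convex_Ico _ _) (by fun_prop)
  intro x hx
  rw [interior_Ico] at hx
  rw [(maxa_u_deriv k x).deriv]
  have hk : (0 : ℝ) ≤ k := Nat.cast_nonneg k
  have h1 : 1 < x * (k + 2) := (div_lt_iff₀ (by positivity)).1 hx.1
  exact mul_neg_of_pos_of_neg (pow_pos (by linarith [hx.2]) _) (by linarith)

theorem level_one (d : ℕ) (hd : 10 ≤ d) :
    ∃ b τ h : ℝ, 0 < b ∧ b ≤ 1 / (10 * d) ∧ 0 < τ ∧ g1 d τ h b = g1 d τ h (5 / d) ∧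
      ∀ x ∈ Icc (0 : ℝ) 1, x ≠ 5 / d → x ≠ b → g1 d τ h x < g1 d τ h (5 / d) := by
  obtain ⟨k, rfl⟩ : ∃ k, d = k + 3 := ⟨d - 3, by omega⟩
  have hk : (7 : ℝ) ≤ k := by exact_mod_cast (by omega : 7 ≤ k)
  have hD : ((k + 3 : ℕ) : ℝ) = k + 3 := by push_cast; ring
  rw [hD]
  set D : ℝ := k + 3 with hDdef
  have hD10 : 10 ≤ D := by linarith
  have hD0 : 0 < D := by linarith
  set a : ℝ := 5 / D with hadef
  have ha0 : 0 < a := by positivity
  have haD : a * D = 5 := by rw [hadef]; field_simp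
  have ha1 : a ≤ 1 / 2 := by rw [hadef, div_le_iff₀ hD0]; linarith
  have he4 := maxa_exp4
  -- `E a ≤ 1/50`
  have hEa0 : 0 ≤ (1 - a) ^ (k + 2) := pow_nonneg (by linarith) _
  have hEa : (1 - a) ^ (k + 2) ≤ 1 / 50 := by
    have h1 : (1 - a) ^ (k + 2) ≤ Real.exp (-a) ^ (k + 2) :=
      pow_le_pow_left₀ (by linarith) (by have := Real.add_one_le_exp (-a); linarith) _
    have h2 : Real.exp (-a) ^ (k + 2) ≤ Real.exp (-4) := by
      rw [← Real.exp_nat_mul]
      apply Real.exp_le_exp.2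
      push_cast
      nlinarith
    have h3 : Real.exp (-4) ≤ 1 / 50 := by
      rw [Real.exp_neg, one_div]
      exact inv_anti₀ (by norm_num) he4.le
    linarith
  have hEb : ∀ b : ℝ, 0 ≤ b → b ≤ 1 / (10 * D) → 9 / 10 ≤ (1 - b) ^ (k + 2) ∧
      9 / 10 ≤ (1 - b) ^ (k + 3) ∧ (1 - b) ^ (k + 2) ≤ 1 ∧ b * D ≤ 1 / 10 := by
    intro b hb0 hb
    have hbD : b * D ≤ 1 / 10 := by
      rw [le_div_iff₀ (by positivity)] at hb; linarith
    have hb1 : b ≤ 1 / 100 := by nlinarith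
    have h2 := one_add_mul_le_pow (show (-2 : ℝ) ≤ -b by linarith) (k + 2)
    have h3 := one_add_mul_le_pow (show (-2 : ℝ) ≤ -b by linarith) (k + 3)
    push_cast at h2 h3
    rw [← sub_eq_add_neg] at h2 h3
    refine ⟨by nlinarith, by nlinarith, pow_le_one₀ (by linarith) (by linarith), hbD⟩
  -- the function whose zero gives the second peak
  set F : ℝ → ℝ := fun b => (Real.log a - Real.log b) *
      (((1 - b) ^ (k + 3) + D * b * (1 - b) ^ (k + 2)) -
        ((1 - a) ^ (k + 3) + D * a * (1 - a) ^ (k + 2))) -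
      (a - b) * D * ((1 - b) ^ (k + 2) - (1 - a) ^ (k + 2)) with hF
  set b0 : ℝ := a * Real.exp (-10) with hb0def
  set b1 : ℝ := 1 / (10 * D) with hb1def
  have hb00 : 0 < b0 := by positivity
  have hb10 : 0 < b1 := by positivity
  have hb01 : b0 ≤ b1 := by
    have h3 : Real.exp (-10) ≤ 1 / 50 := by
      rw [Real.exp_neg, one_div]
      exact inv_anti₀ (by norm_num) (he4.le.trans (Real.exp_le_exp.2 (by norm_num)))
    have : b1 = a * (1 / 50) := by rw [hb1def, hadef]; field_simp; norm_num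
    rw [this, hb0def]
    exact mul_le_mul_of_nonneg_left h3 ha0.le
  have hPa : (1 - a) ^ (k + 3) + D * a * (1 - a) ^ (k + 2) ≤ 6 / 50 := by
    have : (1 - a) ^ (k + 3) = (1 - a) ^ (k + 2) * (1 - a) := pow_succ _ _
    rw [this, mul_comm D a, haD]
    nlinarith
  have hPa0 : 0 ≤ (1 - a) ^ (k + 3) + D * a * (1 - a) ^ (k + 2) :=
    add_nonneg (pow_nonneg (by linarith) _) (by positivity)
  have hFc : ContinuousOn F (Icc b0 b1) := by
    have hl : ContinuousOn Real.log (Icc b0 b1) :=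
      Real.continuousOn_log.mono fun x hx => (hb00.trans_le hx.1).ne'
    refine ((continuousOn_const.sub hl).mul ?_).sub ?_ <;> fun_prop
  have hF0 : 0 ≤ F b0 := by
    obtain ⟨e1, e2, e3, e4⟩ := hEb b0 hb00.le hb01
    have hl : Real.log a - Real.log b0 = 10 := by
      rw [hb0def, Real.log_mul ha0.ne' (Real.exp_pos _).ne', Real.log_exp]; ring
    simp only [hF]
    rw [hl]
    have h1 : 0 ≤ D * b0 * (1 - b0) ^ (k + 2) := by
      have : 0 ≤ (1 - b0) ^ (k + 2) := by linarith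
      positivity
    have h2 : (a - b0) * D ≤ 5 := by nlinarith
    have h3 : 0 ≤ (a - b0) * D := by nlinarith
    have h4 : (a - b0) * D * ((1 - b0) ^ (k + 2) - (1 - a) ^ (k + 2)) ≤ 5 := by nlinarith
    linarith
  have hF1 : F b1 ≤ 0 := by
    obtain ⟨e1, e2, e3, e4⟩ := hEb b1 hb10.le le_rfl
    have hb1D : b1 * D = 1 / 10 := by rw [hb1def]; field_simp
    have hl : Real.log a - Real.log b1 = Real.log 50 := by
      rw [← Real.log_div ha0.ne' hb10.ne']
      congr 1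
      rw [hb1def, hadef]; field_simp; norm_num
    have hl4 : Real.log 50 ≤ 4 := by
      rw [Real.log_le_iff_le_exp (by norm_num)]; exact he4.le
    have hl0 : 0 ≤ Real.log 50 := Real.log_nonneg (by norm_num)
    have hb1' : b1 ≤ 1 / 100 := by nlinarith
    have hPb : (1 - b1) ^ (k + 3) + D * b1 * (1 - b1) ^ (k + 2) ≤ 1 := by
      have h1 : (1 - b1) ^ (k + 3) = (1 - b1) ^ (k + 2) * (1 - b1) := pow_succ _ _
      have h2 := one_add_mul_le_pow (show (-2 : ℝ) ≤ b1 by linarith) (k + 2)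
      push_cast at h2
      have h3 : (1 - b1) ^ (k + 2) * (1 + b1) ^ (k + 2) ≤ 1 := by
        rw [← mul_pow]
        exact pow_le_one₀ (by nlinarith) (by nlinarith)
      have h4 : (1 - b1) ^ (k + 3) + D * b1 * (1 - b1) ^ (k + 2)
          = (1 - b1) ^ (k + 2) * (1 + (k + 2) * b1) := by
        rw [h1, hDdef]; ring
      rw [h4]
      exact (mul_le_mul_of_nonneg_left h2 (by linarith)).trans h3
    simp only [hF]
    rw [hl]
    have h2 : (a - b1) * D = 49 / 10 := by nlinarith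
    rw [h2]
    nlinarith
  obtain ⟨b, hbI, hFb⟩ : ∃ b ∈ Icc b0 b1, F b = 0 :=
    intermediate_value_Icc' hb01 hFc ⟨hF1, hF0⟩
  have hb : 0 < b := hb00.trans_le hbI.1
  obtain ⟨e1, e2, e3, e4⟩ := hEb b hb.le hbI.2
  have hba : b < a := by nlinarith
  have hΔ : 0 < (1 - b) ^ (k + 2) - (1 - a) ^ (k + 2) := by linarith
  have hL : 0 < Real.log a - Real.log b := sub_pos.2 (Real.log_lt_log hb hba)
  set τ : ℝ := (Real.log a - Real.log b) / (D * ((1 - b) ^ (k + 2) - (1 - a) ^ (k + 2)))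
    with hτdef
  have hτ : 0 < τ := by positivity
  have hτL : τ * D * ((1 - b) ^ (k + 2) - (1 - a) ^ (k + 2)) = Real.log a - Real.log b := by
    rw [hτdef]; field_simp
  set h : ℝ := Real.log a + τ * D * (1 - a) ^ (k + 2) with hhdef
  have hhb : h = Real.log b + τ * D * (1 - b) ^ (k + 2) := by
    rw [hhdef]; linear_combination -hτL
  have hτP : τ * (((1 - b) ^ (k + 3) + D * b * (1 - b) ^ (k + 2)) -
        ((1 - a) ^ (k + 3) + D * a * (1 - a) ^ (k + 2))) = a - b := by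
    have h0 : (Real.log a - Real.log b) *
      (((1 - b) ^ (k + 3) + D * b * (1 - b) ^ (k + 2)) -
        ((1 - a) ^ (k + 3) + D * a * (1 - a) ^ (k + 2))) -
      (a - b) * D * ((1 - b) ^ (k + 2) - (1 - a) ^ (k + 2)) = 0 := hFb
    rw [← hτL] at h0
    have h1 : D * ((1 - b) ^ (k + 2) - (1 - a) ^ (k + 2)) ≠ 0 := by positivity
    apply mul_left_cancel₀ h1
    linear_combination h0
  have heq : g1 (k + 3) τ h b = g1 (k + 3) τ h a := by
    have e1 : g1 (k + 3) τ h b = b + τ * ((1 - b) ^ (k + 3) + D * b * (1 - b) ^ (k + 2)) := by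
      unfold g1; rw [hhb]; ring
    have e2 : g1 (k + 3) τ h a = a + τ * ((1 - a) ^ (k + 3) + D * a * (1 - a) ^ (k + 2)) := by
      unfold g1; rw [hhdef]; ring
    rw [e1, e2]; linear_combination hτP
  refine ⟨b, τ, h, hb, hbI.2, hτ, heq, ?_⟩
  refine maxwell (g1 (k + 3) τ h) (fun x => -Real.log x - τ * D * (1 - x) ^ (k + 2) + h)
    (fun x => x * (1 - x) ^ (k + 1)) (fun x => τ * D * (k + 2) / x)
    (1 / (τ * D * (k + 2))) (1 / (k + 2)) a b (g1_cont _ _ _).continuousOn ?_ ?_ ?_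
    (maxa_u_mono k) (maxa_u_anti k) hb hba (by linarith) ?_ ?_ heq
  · intro x hx
    have h1 := Real.hasDerivAt_mul_log hx.1.ne'
    have h2 : HasDerivAt (fun x : ℝ => (1 - x) ^ (k + 3)) (((k + 3 : ℕ) : ℝ) * (1 - x) ^ (k + 2) * (-1)) x :=
      ((hasDerivAt_id' x).const_sub 1).fun_pow (k + 3)
    have h3 := ((h1.fun_neg.fun_add (hasDerivAt_id' x)).fun_add (h2.const_mul τ)).fun_add
      ((hasDerivAt_id' x).const_mul h)
    refine HasDerivAt.congr_deriv (f := g1 (k + 3) τ h) h3 ?_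
    rw [hD]; ring
  · intro x hx
    have h1 := Real.hasDerivAt_log hx.1.ne'
    have h2 : HasDerivAt (fun x : ℝ => (1 - x) ^ (k + 2)) (((k + 2 : ℕ) : ℝ) * (1 - x) ^ (k + 1) * (-1)) x :=
      ((hasDerivAt_id' x).const_sub 1).fun_pow (k + 2)
    have h3 := (h1.fun_neg.fun_sub (h2.const_mul (τ * D))).add_const h
    refine HasDerivAt.congr_deriv h3 ?_
    have hx0 := hx.1.ne'
    have hk2 : (k : ℝ) + 2 ≠ 0 := by positivity
    push_cast
    field_simp
    ring
  · intro x hx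
    have := hx.1
    positivity
  · simp only [hhdef]; ring
  · simp only [hhb]; ring

theorem maxb_dE (x : ℝ) : HasDerivAt (fun x : ℝ => Real.exp (-(24 / 5 * x)))
    (-(24 / 5) * Real.exp (-(24 / 5 * x))) x := by
  have h := (((hasDerivAt_id' x).const_mul (24 / 5 : ℝ)).fun_neg).exp
  refine HasDerivAt.congr_deriv h ?_
  ring

theorem maxb_dM {x : ℝ} (h1 : x < 1) :
    HasDerivAt (fun x : ℝ => Real.log (1 - x)) (-(1 / (1 - x))) x := by
  have h := ((hasDerivAt_id' x).const_sub 1).log (sub_pos.2 h1).ne'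
  refine HasDerivAt.congr_deriv h ?_
  ring

theorem maxb_dL {x : ℝ} (h0 : 0 < x) (h1 : x < 1) :
    HasDerivAt (fun x : ℝ => Real.log x - Real.log (1 - x)) (1 / (x * (1 - x))) x := by
  have h := (Real.hasDerivAt_log h0.ne').fun_sub (maxb_dM h1)
  have h2 : 1 - x ≠ 0 := (sub_pos.2 h1).ne'
  refine HasDerivAt.congr_deriv h ?_
  field_simp
  ring

theorem maxb_dP (x : ℝ) :
    HasDerivAt (fun x : ℝ => (1 + 24 / 5 * x) * Real.exp (-(24 / 5 * x)))
      (-((24 / 5) ^ 2 * x * Real.exp (-(24 / 5 * x)))) x := by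
  have h := (((hasDerivAt_id' x).const_mul (24 / 5 : ℝ)).const_add 1).fun_mul (maxb_dE x)
  refine HasDerivAt.congr_deriv h ?_
  ring

theorem maxb_dU (x : ℝ) :
    HasDerivAt (fun x : ℝ => x * (1 - x) * Real.exp (-(24 / 5 * x)))
      (24 / 5 * (x - 1 / 6) * (x - 5 / 4) * Real.exp (-(24 / 5 * x))) x := by
  have h := ((hasDerivAt_id' x).fun_mul ((hasDerivAt_id' x).const_sub 1)).fun_mul (maxb_dE x)
  refine HasDerivAt.congr_deriv h ?_
  ring

theorem maxb_mono : StrictMonoOn (fun x : ℝ => x * (1 - x) * Real.exp (-(24 / 5 * x)))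
    (Ioc 0 (1 / 6)) := by
  refine strictMonoOn_of_deriv_pos (convex_Ioc _ _)
    (fun x _ => (maxb_dU x).continuousAt.continuousWithinAt) fun x hx => ?_
  rw [interior_Ioc] at hx
  rw [(maxb_dU x).deriv]
  refine mul_pos ?_ (Real.exp_pos _)
  nlinarith [hx.1, hx.2]

theorem maxb_anti : StrictAntiOn (fun x : ℝ => x * (1 - x) * Real.exp (-(24 / 5 * x)))
    (Ico (1 / 6) 1) := by
  refine strictAntiOn_of_deriv_neg (convex_Ico _ _)
    (fun x _ => (maxb_dU x).continuousAt.continuousWithinAt) fun x hx => ?_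
  rw [interior_Ico] at hx
  rw [(maxb_dU x).deriv]
  refine mul_neg_of_neg_of_pos ?_ (Real.exp_pos _)
  nlinarith [hx.1, hx.2]

/-- The Maxwell defect. -/
noncomputable def maxb_D (A B : ℝ) : ℝ :=
  ((Real.log A - Real.log (1 - A)) - (Real.log B - Real.log (1 - B))) *
      ((1 + 24 / 5 * B) * Real.exp (-(24 / 5 * B)) - (1 + 24 / 5 * A) * Real.exp (-(24 / 5 * A))) -
    24 / 5 * (Real.log (1 - B) - Real.log (1 - A)) *
      (Real.exp (-(24 / 5 * B)) - Real.exp (-(24 / 5 * A)))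

theorem maxb_right {A B : ℝ} (hB : 1 / 6 ≤ B) (hBA : B < A) (hA : A < 1) : maxb_D A B ≤ 0 := by
  obtain ⟨a, ha, hc⟩ := exists_ratio_hasDerivAt_eq_ratio_slope
    (fun x : ℝ => (1 + 24 / 5 * x) * Real.exp (-(24 / 5 * x))) _ hBA
    (fun x _ => (maxb_dP x).continuousAt.continuousWithinAt) (fun x _ => maxb_dP x)
    (fun x : ℝ => Real.exp (-(24 / 5 * x))) _
    (fun x _ => (maxb_dE x).continuousAt.continuousWithinAt) (fun x _ => maxb_dE x)
  have hEa := Real.exp_pos (-(24 / 5 * a))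
  have hc' : (1 + 24 / 5 * B) * Real.exp (-(24 / 5 * B)) -
      (1 + 24 / 5 * A) * Real.exp (-(24 / 5 * A)) =
      24 / 5 * a * (Real.exp (-(24 / 5 * B)) - Real.exp (-(24 / 5 * A))) := by
    apply mul_right_cancel₀ hEa.ne'
    linarith
  have hE : 0 < Real.exp (-(24 / 5 * B)) - Real.exp (-(24 / 5 * A)) :=
    sub_pos.2 (Real.exp_lt_exp.2 (by linarith))
  set r := 1 / (a * (1 - a) * Real.exp (-(24 / 5 * a))) with hr
  have hd : ∀ x ∈ Icc B A, HasDerivAt (fun x : ℝ => -Real.log (1 - x) -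
      a * (Real.log x - Real.log (1 - x)) +
      r * ((1 + 24 / 5 * x) * Real.exp (-(24 / 5 * x)) / (24 / 5) ^ 2 -
        a * Real.exp (-(24 / 5 * x)) / (24 / 5)))
      (Real.exp (-(24 / 5 * x)) *
        ((x - a) * (1 / (x * (1 - x) * Real.exp (-(24 / 5 * x))) - r))) x := by
    intro x hx
    have h0 : 0 < x := by linarith [hx.1]
    have h1 : x < 1 := by linarith [hx.2]
    have h := ((maxb_dM h1).fun_neg.fun_sub ((maxb_dL h0 h1).const_mul a)).fun_add
      ((((maxb_dP x).div_const ((24 / 5) ^ 2)).fun_sub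
        (((maxb_dE x).const_mul a).div_const (24 / 5))).const_mul r)
    have h2 : 1 - x ≠ 0 := (sub_pos.2 h1).ne'
    have h3 := (Real.exp_pos (-(24 / 5 * x))).ne'
    clear_value r
    refine HasDerivAt.congr_deriv h ?_
    field_simp
    ring
  have hu : ∀ x : ℝ, 1 / 6 ≤ x → x < 1 → 0 < x * (1 - x) * Real.exp (-(24 / 5 * x)) :=
    fun x h0 h1 => mul_pos (mul_pos (by linarith) (by linarith)) (Real.exp_pos _)
  have hm := monotoneOn_of_deriv_nonneg (convex_Icc B A)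
    (fun x hx => (hd x hx).continuousAt.continuousWithinAt)
    (fun x hx => (hd x (interior_subset hx)).differentiableAt.differentiableWithinAt)
    (fun x hx => by
      have hx' := interior_subset hx
      rw [(hd x hx').deriv]
      refine mul_nonneg (Real.exp_pos _).le ?_
      have hx6 : x ∈ Ico (1 / 6 : ℝ) 1 := ⟨by linarith [hx'.1], by linarith [hx'.2]⟩
      have ha6 : a ∈ Ico (1 / 6 : ℝ) 1 := ⟨by linarith [ha.1], by linarith [ha.2]⟩
      rcases le_total x a with h | h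
      · refine mul_nonneg_of_nonpos_of_nonpos (sub_nonpos.2 h) (sub_nonpos.2 ?_)
        exact one_div_le_one_div_of_le (hu a ha6.1 ha6.2) (maxb_anti.antitoneOn hx6 ha6 h)
      · refine mul_nonneg (sub_nonneg.2 h) (sub_nonneg.2 ?_)
        exact one_div_le_one_div_of_le (hu x hx6.1 hx6.2) (maxb_anti.antitoneOn ha6 hx6 h))
    (left_mem_Icc.2 hBA.le) (right_mem_Icc.2 hBA.le) hBA.le
  have hz : r * ((1 + 24 / 5 * B) * Real.exp (-(24 / 5 * B)) / (24 / 5) ^ 2 -
        a * Real.exp (-(24 / 5 * B)) / (24 / 5)) =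
      r * ((1 + 24 / 5 * A) * Real.exp (-(24 / 5 * A)) / (24 / 5) ^ 2 -
        a * Real.exp (-(24 / 5 * A)) / (24 / 5)) := by
    refine congrArg (r * ·) ?_
    linear_combination (25 / 576 : ℝ) * hc'
  simp only at hm
  rw [hz] at hm
  unfold maxb_D
  rw [hc']
  have h5 : a * ((Real.log A - Real.log (1 - A)) - (Real.log B - Real.log (1 - B))) -
      (Real.log (1 - B) - Real.log (1 - A)) ≤ 0 := by linarith
  have h6 := mul_nonpos_of_nonpos_of_nonneg h5 hE.le
  linarith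

theorem maxb_left : 0 < maxb_D (17 / 100) (17 / 100 * Real.exp (-8)) := by
  set B := 17 / 100 * Real.exp (-8) with hB
  have h8 : Real.exp (-8) ≤ 1 / 9 := by
    rw [Real.exp_neg, ← one_div]
    exact one_div_le_one_div_of_le (by norm_num) (by linarith [Real.add_one_le_exp (8 : ℝ)])
  have hB0 : 0 < B := mul_pos (by norm_num) (Real.exp_pos _)
  have hB1 : B ≤ 1 / 50 := by rw [hB]; linarith
  have hl : Real.log B = Real.log (17 / 100) - 8 := by
    rw [hB, Real.log_mul (by norm_num) (Real.exp_pos _).ne', Real.log_exp]; ring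
  clear_value B
  have hM1 : Real.log (1 - 17 / 100) ≤ Real.log (1 - B) :=
    Real.log_le_log (by norm_num) (by linarith)
  have hM2 : Real.log (1 - B) ≤ 0 := Real.log_nonpos (by linarith) (by linarith)
  have hM3 : -(41 / 200) ≤ Real.log (1 - 17 / 100) := by
    have := Real.one_sub_inv_le_log_of_pos (x := 1 - 17 / 100) (by norm_num)
    norm_num at this ⊢
    linarith
  have hE1 : Real.exp (-(24 / 5 * B)) ≤ 1 := Real.exp_le_one_iff.2 (by linarith)
  have hE2 : 1 - 24 / 5 * B ≤ Real.exp (-(24 / 5 * B)) := by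
    linarith [Real.add_one_le_exp (-(24 / 5 * B))]
  have hE3 := Real.exp_pos (-(24 / 5 * (17 / 100 : ℝ)))
  have hE4 : Real.exp (-(24 / 5 * (17 / 100 : ℝ))) ≤ 1 / 2.148 := by
    rw [Real.exp_neg, ← one_div]
    refine one_div_le_one_div_of_le (by norm_num) ?_
    refine le_trans ?_ (Real.quadratic_le_exp_of_nonneg (by norm_num))
    norm_num
  have hP : 0.99 ≤ (1 + 24 / 5 * B) * Real.exp (-(24 / 5 * B)) := by
    refine le_trans ?_ (mul_le_mul_of_nonneg_left hE2 (by linarith))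
    nlinarith
  unfold maxb_D
  rw [hl]
  generalize Real.exp (-(24 / 5 * (17 / 100 : ℝ))) = e at *
  generalize (1 + 24 / 5 * B) * Real.exp (-(24 / 5 * B)) = P at *
  generalize Real.exp (-(24 / 5 * B)) = E at *
  generalize Real.log (1 - 17 / 100) = m at *
  generalize Real.log (1 - B) = M at *
  have h1 : 0.14 ≤ P - (1 + 24 / 5 * (17 / 100)) * e := by
    norm_num at hE4 hP ⊢
    linarith
  have h2 : (M - m) * (E - e) ≤ (M - m) * 1 :=
    mul_le_mul_of_nonneg_left (by linarith) (by linarith)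
  have h3 : 8 * 0.14 ≤ (Real.log (17 / 100) - m - (Real.log (17 / 100) - 8 - M)) *
      (P - (1 + 24 / 5 * (17 / 100)) * e) :=
    mul_le_mul (by linarith) h1 (by norm_num) (by linarith)
  norm_num at h2 h3 ⊢
  linarith

theorem maxb_root : ∃ B : ℝ, 0 < B ∧ B < 17 / 100 ∧ maxb_D (17 / 100) B = 0 := by
  have h0 : (0 : ℝ) < 17 / 100 * Real.exp (-8) := mul_pos (by norm_num) (Real.exp_pos _)
  have h8 : Real.exp (-8) ≤ 1 / 9 := by
    rw [Real.exp_neg, ← one_div]
    exact one_div_le_one_div_of_le (by norm_num) (by linarith [Real.add_one_le_exp (8 : ℝ)])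
  have hc : ContinuousOn (maxb_D (17 / 100)) (Icc (17 / 100 * Real.exp (-8)) (1 / 6)) := by
    intro x hx
    have hx0 : 0 < x := h0.trans_le hx.1
    have hx1 : x < 1 := by linarith [hx.2]
    refine ContinuousAt.continuousWithinAt ?_
    exact ((continuousAt_const.sub (maxb_dL hx0 hx1).continuousAt).mul
      ((maxb_dP x).continuousAt.sub continuousAt_const)).sub
      ((continuousAt_const.mul ((maxb_dM hx1).continuousAt.sub continuousAt_const)).mul
        ((maxb_dE x).continuousAt.sub continuousAt_const))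
  obtain ⟨B, hB, h⟩ := intermediate_value_Icc' (by linarith) hc
    (show (0 : ℝ) ∈ _ from ⟨maxb_right le_rfl (by norm_num) (by norm_num), maxb_left.le⟩)
  exact ⟨B, h0.trans_le hB.1, by linarith [hB.2], h⟩

theorem level_two :
    ∃ B T h : ℝ, 0 < B ∧ B < 17 / 100 ∧ 0 < T ∧ g2 T h B = g2 T h (17 / 100) ∧
      ∀ x ∈ Icc (0 : ℝ) 1, x ≠ 17 / 100 → x ≠ B → g2 T h x < g2 T h (17 / 100) := by
  obtain ⟨B, hB0, hBA, hD⟩ := maxb_root
  generalize hA : (17 / 100 : ℝ) = A at *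
  have hA1 : A < 1 := by rw [← hA]; norm_num
  have hE : 0 < Real.exp (-(24 / 5 * B)) - Real.exp (-(24 / 5 * A)) :=
    sub_pos.2 (Real.exp_lt_exp.2 (by linarith))
  have hL : 0 < (Real.log A - Real.log (1 - A)) - (Real.log B - Real.log (1 - B)) := by
    have h1 := Real.log_lt_log hB0 hBA
    have h2 : Real.log (1 - A) ≤ Real.log (1 - B) := Real.log_le_log (by linarith) (by linarith)
    linarith
  obtain ⟨T, hT0, hT⟩ : ∃ T : ℝ, 0 < T ∧
      T * (24 / 5 * (Real.exp (-(24 / 5 * B)) - Real.exp (-(24 / 5 * A)))) =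
      (Real.log A - Real.log (1 - A)) - (Real.log B - Real.log (1 - B)) :=
    ⟨_, div_pos hL (mul_pos (by norm_num) hE), div_mul_cancel₀ _ (mul_pos (by norm_num) hE).ne'⟩
  obtain ⟨h, hh⟩ : ∃ h : ℝ,
      h = Real.log A - Real.log (1 - A) + T * (24 / 5 * Real.exp (-(24 / 5 * A))) := ⟨_, rfl⟩
  have hhB : h = Real.log B - Real.log (1 - B) + T * (24 / 5 * Real.exp (-(24 / 5 * B))) := by
    linarith
  have hV : T * ((1 + 24 / 5 * B) * Real.exp (-(24 / 5 * B)) -
      (1 + 24 / 5 * A) * Real.exp (-(24 / 5 * A))) = Real.log (1 - B) - Real.log (1 - A) := by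
    unfold maxb_D at hD
    rw [← hT] at hD
    apply mul_right_cancel₀ (mul_pos (show (0 : ℝ) < 24 / 5 by norm_num) hE).ne'
    linarith
  have heq : g2 T h B = g2 T h A := by
    have e1 : g2 T h B = -Real.log (1 - B) + T * ((1 + 24 / 5 * B) * Real.exp (-(24 / 5 * B))) := by
      unfold g2; rw [hhB]; ring
    have e2 : g2 T h A = -Real.log (1 - A) + T * ((1 + 24 / 5 * A) * Real.exp (-(24 / 5 * A))) := by
      unfold g2; rw [hh]; ring
    rw [e1, e2]; linarith
  refine ⟨B, T, h, hB0, hBA, hT0, heq, ?_⟩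
  refine maxwell (g2 T h)
    (fun x => -(Real.log x - Real.log (1 - x)) - T * (24 / 5 * Real.exp (-(24 / 5 * x))) + h)
    (fun x => x * (1 - x) * Real.exp (-(24 / 5 * x)))
    (fun x => T * (24 / 5) ^ 2 / (x * (1 - x))) (1 / (T * (24 / 5) ^ 2)) (1 / 6) A B
    (g2_cont T h).continuousOn (fun x hx => ?_) (fun x hx => ?_) (fun x hx => ?_)
    maxb_mono maxb_anti hB0 hBA hA1 (by rw [hh]; ring) (by rw [hhB]; ring) heq
  · have h1 := (((((hasDerivAt_id' x).fun_mul (Real.hasDerivAt_log hx.1.ne')).fun_neg.fun_sub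
      (((hasDerivAt_id' x).const_sub 1).fun_mul (maxb_dM hx.2))).fun_add
      ((maxb_dE x).const_mul T))).fun_add ((hasDerivAt_id' x).const_mul h)
    have h2 : 1 - x ≠ 0 := (sub_pos.2 hx.2).ne'
    have h3 : x ≠ 0 := hx.1.ne'
    refine HasDerivAt.congr_deriv h1 ?_
    field_simp
    ring
  · have h1 := ((maxb_dL hx.1 hx.2).fun_neg.fun_sub
      (((maxb_dE x).const_mul (24 / 5)).const_mul T)).add_const h
    have h2 : 1 - x ≠ 0 := (sub_pos.2 hx.2).ne'
    have h3 : x ≠ 0 := hx.1.ne'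
    have h4 : T ≠ 0 := hT0.ne'
    refine HasDerivAt.congr_deriv h1 ?_
    field_simp
    ring
  · exact div_pos (mul_pos hT0 (by norm_num)) (mul_pos hx.1 (sub_pos.2 hx.2))

end Pool.Agent.P.MP_abed8b_co
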