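import Mathlib

set_option autoImplicit false

namespace Pool.Agent.P.MP_abed8b_co

open Finset

/-- complex exponential sum -/
noncomputable def mES {ι : Type} [Fintype ι] (a Y : ι → ℝ) (w : ℂ) : ℂ :=
  ∑ i, (a i : ℂ) * Complex.exp (w * (Y i : ℂ))

/-- real exponential sum -/
noncomputable def mER {ι : Type} [Fintype ι] (a Y : ι → ℝ) (x : ℝ) : ℝ :=
  ∑ i, a i * Real.exp (x * Y i)

/-- the branch of `G / F ^ q` with phase `θ` -/
noncomputable def mh (F G : ℂ → ℂ) (q : ℝ) (w θ : ℂ) : ℂ :=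
  G w * Complex.exp (-(q : ℂ) *
    (Complex.log (F w * Complex.exp (-(Complex.I * θ))) + Complex.I * θ))

theorem mES_deriv {ι : Type} [Fintype ι] (a Y : ι → ℝ) (w : ℂ) :
    HasDerivAt (mES a Y) (mES (fun i => a i * Y i) Y w) w := by
  unfold mES
  refine HasDerivAt.fun_sum fun i _ => ?_
  have h := (((hasDerivAt_id w).mul_const (Y i : ℂ)).cexp).const_mul (a i : ℂ)
  simp only [id, one_mul] at h
  refine h.congr_deriv ?_
  push_cast
  ring

theorem mER_deriv {ι : Type} [Fintype ι] (a Y : ι → ℝ) (x : ℝ) :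
    HasDerivAt (mER a Y) (mER (fun i => a i * Y i) Y x) x := by
  unfold mER
  refine HasDerivAt.fun_sum fun i _ => ?_
  have h := (((hasDerivAt_id x).mul_const (Y i)).exp).const_mul (a i)
  simp only [id, one_mul] at h
  refine h.congr_deriv ?_
  ring

theorem mES_ofReal {ι : Type} [Fintype ι] (a Y : ι → ℝ) (x : ℝ) :
    mES a Y (x : ℂ) = (mER a Y x : ℂ) := by
  unfold mES mER
  push_cast
  rfl

theorem mER_pos {ι : Type} [Fintype ι] {a : ι → ℝ} (Y : ι → ℝ) (ha : ∀ i, 0 ≤ a i)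
    (ha0 : ∃ i, 0 < a i) (x : ℝ) : 0 < mER a Y x := by
  obtain ⟨i, hi⟩ := ha0
  exact Finset.sum_pos' (fun j _ => mul_nonneg (ha j) (Real.exp_pos _).le)
    ⟨i, mem_univ i, mul_pos hi (Real.exp_pos _)⟩

theorem mES_cross {ι κ : Type} [Fintype ι] [Fintype κ] (q : ℝ) (g X : ι → ℝ) (φ K : κ → ℝ)
    (w : ℂ) :
    mES (fun p => g p * X p) X w * mES φ K w - q * (mES g X w * mES (fun t => φ t * K t) K w)
      = ∑ p, ∑ t, ((g p * φ t * (X p - q * K t) : ℝ) : ℂ)
          * Complex.exp (w * ((X p + K t : ℝ) : ℂ)) := by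
  unfold mES
  rw [Finset.sum_mul_sum, Finset.sum_mul_sum, Finset.mul_sum, ← Finset.sum_sub_distrib]
  refine Finset.sum_congr rfl fun p _ => ?_
  rw [Finset.mul_sum, ← Finset.sum_sub_distrib]
  refine Finset.sum_congr rfl fun t _ => ?_
  push_cast
  rw [mul_add, Complex.exp_add]
  ring

theorem mono_seg (F G F' G' : ℂ → ℂ) (hF : ∀ w, HasDerivAt F (F' w) w)
    (hG : ∀ w, HasDerivAt G (G' w) w) (q : ℝ) (w0 v : ℂ) (θ0 θ1 B : ℝ)
    (h1 : ∀ s ∈ Set.Icc (0 : ℝ) 1,
      F (w0 + s * v) * Complex.exp (-(Complex.I * ((θ0 : ℂ) + s * θ1))) ∈ Complex.slitPlane)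
    (h2 : ∀ s ∈ Set.Icc (0 : ℝ) 1,
      ‖G' (w0 + s * v) * F (w0 + s * v) - q * (G (w0 + s * v) * F' (w0 + s * v))‖
        * Real.exp (-(q + 1) * Real.log ‖F (w0 + s * v)‖) ≤ B) :
    ‖mh F G q (w0 + v) (θ0 + θ1) - mh F G q w0 θ0‖ ≤ ‖v‖ * B := by
  have key : ∀ s ∈ Set.Icc (0 : ℝ) 1, ∃ D : ℂ, ‖D‖ ≤ ‖v‖ * B ∧
      HasDerivAt (fun s : ℝ => mh F G q (w0 + s * v) (θ0 + s * θ1)) D s := by
    intro s hs
    have hw : HasDerivAt (fun z : ℂ => w0 + z * v) v s := by
      simpa using ((hasDerivAt_id (s : ℂ)).mul_const v).const_add w0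
    have hθ : HasDerivAt (fun z : ℂ => Complex.I * ((θ0 : ℂ) + z * θ1)) (Complex.I * θ1) s := by
      simpa using (((hasDerivAt_id (s : ℂ)).mul_const (θ1 : ℂ)).const_add (θ0 : ℂ)).const_mul
        Complex.I
    have hFw : HasDerivAt (fun z : ℂ => F (w0 + z * v)) (F' (w0 + s * v) * v) s :=
      (hF (w0 + s * v)).comp (s : ℂ) hw
    have hGw : HasDerivAt (fun z : ℂ => G (w0 + z * v)) (G' (w0 + s * v) * v) s :=
      (hG (w0 + s * v)).comp (s : ℂ) hw
    have hu := hFw.fun_mul hθ.fun_neg.cexp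
    have hl := ((hu.clog (h1 s hs)).fun_add hθ).const_mul (-(q : ℂ))
    have hall := (hGw.fun_mul hl.cexp).comp_ofReal
    refine ⟨_, ?_, hall⟩
    set w := w0 + s * v with hwdef
    set e := Complex.exp (-(Complex.I * ((θ0 : ℂ) + s * θ1))) with he
    have he0 : e ≠ 0 := Complex.exp_ne_zero _
    have hFe : F w * e ≠ 0 := Complex.slitPlane_ne_zero (h1 s hs)
    have hF0 : F w ≠ 0 := left_ne_zero_of_mul hFe
    set Ex := Complex.exp (-(q : ℂ) * (Complex.log (F w * e)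
      + Complex.I * ((θ0 : ℂ) + s * θ1))) with hEx
    have hne : ‖e‖ = 1 := by
      rw [he, Complex.norm_exp]
      simp
    have hnE : ‖Ex‖ = Real.exp (-q * Real.log ‖F w‖) := by
      rw [hEx, Complex.norm_exp]
      congr 1
      simp [Complex.log_re, hne]
    have heq : G' w * v * Ex + G w * (Ex * (-(q : ℂ) *
        ((F' w * v * e + F w * (e * -(Complex.I * θ1))) / (F w * e) + Complex.I * θ1)))
        = v * ((G' w * F w - q * (G w * F' w)) * (Ex / F w)) := by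
      field_simp
      ring
    rw [heq, norm_mul, norm_mul, norm_div, hnE]
    refine mul_le_mul_of_nonneg_left (le_trans (le_of_eq ?_) (h2 s hs)) (norm_nonneg _)
    congr 1
    have hpos : 0 < ‖F w‖ := norm_pos_iff.2 hF0
    rw [div_eq_iff hpos.ne']
    conv_rhs => rw [← Real.exp_log hpos]
    rw [Real.log_exp, ← Real.exp_add]
    congr 1
    ring
  choose! D hD using key
  have := norm_image_sub_le_of_norm_deriv_le_segment_01'
    (f := fun s : ℝ => mh F G q (w0 + s * v) (θ0 + s * θ1)) (f' := D) (C := ‖v‖ * B)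
    (fun s hs => (hD s hs).2.hasDerivWithinAt) (fun s hs => (hD s ⟨hs.1, hs.2.le⟩).1)
  simpa using this

theorem mono_near {κ : Type} [Fintype κ] {φ : κ → ℝ} (K : κ → ℝ) (hφ : ∀ t, 0 ≤ φ t)
    (x y θ : ℝ) :
    ‖mES φ K (x + Complex.I * y) * Complex.exp (-(Complex.I * θ)) - (mER φ K x : ℂ)‖
      ≤ ∑ t, φ t * Real.exp (x * K t) * ‖Complex.exp (Complex.I * (y * K t - θ : ℝ)) - 1‖ := by
  unfold mES mER
  rw [Finset.sum_mul, Complex.ofReal_sum, ← Finset.sum_sub_distrib]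
  refine (norm_sum_le _ _).trans (Finset.sum_le_sum fun t _ => le_of_eq ?_)
  have h : (φ t : ℂ) * Complex.exp ((x + Complex.I * y) * (K t : ℂ))
        * Complex.exp (-(Complex.I * θ)) - ((φ t * Real.exp (x * K t) : ℝ) : ℂ)
      = ((φ t * Real.exp (x * K t) : ℝ) : ℂ)
        * (Complex.exp (Complex.I * (y * K t - θ : ℝ)) - 1) := by
    push_cast
    rw [mul_assoc, ← Complex.exp_add, mul_sub _ _ (1 : ℂ), mul_one, mul_assoc, ← Complex.exp_add]
    congr 3
    ring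
  rw [h, norm_mul, Complex.norm_real, Real.norm_eq_abs,
    abs_of_nonneg (mul_nonneg (hφ t) (Real.exp_pos _).le)]

theorem mono_slit {u : ℂ} {r ε : ℝ} (hr : 0 < r) (hε : ε < 1) (h : ‖u - (r : ℂ)‖ ≤ ε * r) :
    u ∈ Complex.slitPlane ∧ (1 - ε) * r ≤ ‖u‖ := by
  have h1 : |(u - (r : ℂ)).re| ≤ ε * r := (Complex.abs_re_le_norm _).trans h
  rw [Complex.sub_re, Complex.ofReal_re, abs_le] at h1
  have h2 : (1 - ε) * r ≤ u.re := by linarith [h1.1]
  have h3 : 0 < (1 - ε) * r := mul_pos (by linarith) hr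
  exact ⟨Or.inl (h3.trans_le h2), h2.trans (Complex.re_le_norm u)⟩

theorem mono_exp_le (y c : ℝ) (hy : |y| ≤ 7) :
    ‖Complex.exp (Complex.I * (y * c : ℝ)) - 1‖ ≤ min 2 (7 * |c|) := by
  refine le_min ?_ ?_
  · refine (norm_sub_le _ _).trans ?_
    rw [Complex.norm_exp_I_mul_ofReal, norm_one]
    norm_num
  · refine Real.norm_exp_I_mul_ofReal_sub_one_le.trans ?_
    rw [Real.norm_eq_abs, abs_mul]
    exact mul_le_mul_of_nonneg_right hy (abs_nonneg _)

theorem mono_growth (F G F' G' : ℝ → ℝ) (hF : ∀ x, HasDerivAt F (F' x) x)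
    (hG : ∀ x, HasDerivAt G (G' x) x) (hF0 : ∀ x, 0 < F x) (hG0 : ∀ x, 0 < G x) (q L η : ℝ)
    (hη : 0 ≤ η) (h : ∀ x ∈ Set.Icc (-L) L, G' x * F x - q * (G x * F' x) ≤ η * (G x * F x))
    {x : ℝ} (hx : x ∈ Set.Icc (-L) L) :
    G x * Real.exp (-q * Real.log (F x))
      ≤ Real.exp (2 * L * η) * (G (-L) * Real.exp (-q * Real.log (F (-L)))) := by
  have hd : ∀ x, HasDerivAt (fun x => Real.log (G x) - q * Real.log (F x) - η * x)
      (G' x / G x - q * (F' x / F x) - η * 1) x := fun x =>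
    (((hG x).log (hG0 x).ne').fun_sub (((hF x).log (hF0 x).ne').const_mul q)).fun_sub
      ((hasDerivAt_id x).const_mul η)
  have hanti : AntitoneOn (fun x => Real.log (G x) - q * Real.log (F x) - η * x)
      (Set.Icc (-L) L) := by
    refine antitoneOn_of_deriv_nonpos (convex_Icc _ _)
      (fun x _ => (hd x).continuousAt.continuousWithinAt)
      (fun x _ => (hd x).differentiableAt.differentiableWithinAt) fun x hx => ?_
    rw [(hd x).deriv]
    have h1 := h x (interior_subset hx)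
    have h2 := hF0 x
    have h3 := hG0 x
    have h4 : G' x / G x - q * (F' x / F x) - η * 1
        = (G' x * F x - q * (G x * F' x) - η * (G x * F x)) / (G x * F x) := by
      field_simp
    rw [h4]
    exact div_nonpos_of_nonpos_of_nonneg (by linarith) (mul_pos h3 h2).le
  have hL : -L ∈ Set.Icc (-L) L := ⟨le_rfl, hx.1.trans hx.2⟩
  have h5 := hanti hL hx hx.1
  simp only at h5
  rw [← Real.exp_log (hG0 x), ← Real.exp_log (hG0 (-L)), ← Real.exp_add, ← Real.exp_add,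
    ← Real.exp_add, Real.exp_le_exp]
  have h6 : η * x ≤ η * L := mul_le_mul_of_nonneg_left hx.2 hη
  linarith

/-- Monodromy lemma. `G w = ∑ g p * exp (w * X p)` nearly solves `G' F = q G F'` where
`F w = ∑ φ t * exp (w * K t)` has two peaks at `K = β` and `K = β + 1`. Going round the rectangle
`[-L, L] × [0, 2π]` multiplies `F ^ q` by `exp (2π i q) = -1`, while `G` is single valued. -/
theorem monodromy {ι κ : Type} [Fintype ι] [Fintype κ] (q : ℝ) (hq0 : 0 ≤ q)
    (hq : Complex.exp (2 * Real.pi * Complex.I * q) = -1)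
    (g X : ι → ℝ) (φ K : κ → ℝ) (hg : ∀ p, 0 ≤ g p) (hg0 : ∃ p, 0 < g p)
    (hφ : ∀ t, 0 ≤ φ t) (hφ0 : ∃ t, 0 < φ t)
    (L ε β η : ℝ) (hL : 0 < L) (hε0 : 0 ≤ ε) (hε1 : ε < 1) (hη : 0 ≤ η)
    (herr : ∀ w : ℂ, w.re ∈ Set.Icc (-L) L →
      ‖∑ p, ∑ t, ((g p * φ t * (X p - q * K t) : ℝ) : ℂ) * Complex.exp (w * ((X p + K t : ℝ) : ℂ))‖
        ≤ η * ((∑ p, g p * Real.exp (w.re * X p)) * ∑ t, φ t * Real.exp (w.re * K t)))
    (hleft : ∑ t, φ t * Real.exp (-L * K t) * min 2 (7 * |K t - β|)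
        ≤ ε * ∑ t, φ t * Real.exp (-L * K t))
    (hright : ∑ t, φ t * Real.exp (L * K t) * min 2 (7 * |K t - β - 1|)
        ≤ ε * ∑ t, φ t * Real.exp (L * K t))
    (htop : ∀ x ∈ Set.Icc (-L) L,
      ∑ t, φ t * Real.exp (x * K t) * min (7 * |K t - β|) (min 2 (7 * |K t - β - 1|))
        ≤ ε * ∑ t, φ t * Real.exp (x * K t))
    (hfin : (2 * L + 7) * η * Real.exp (2 * L * η) < Real.exp ((q + 1) * Real.log (1 - ε))) :
    False := by
  have hFp : ∀ x, 0 < mER φ K x := mER_pos K hφ hφ0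
  have hGp : ∀ x, 0 < mER g X x := mER_pos X hg hg0
  have herr' : ∀ w : ℂ, w.re ∈ Set.Icc (-L) L →
      ‖mES (fun p => g p * X p) X w * mES φ K w
        - q * (mES g X w * mES (fun t => φ t * K t) K w)‖
        ≤ η * (mER g X w.re * mER φ K w.re) := by
    intro w hw
    rw [mES_cross]
    exact herr w hw
  set H0 : ℝ := mER g X (-L) * Real.exp (-q * Real.log (mER φ K (-L))) with hH0
  have hH0p : 0 < H0 := mul_pos (hGp _) (Real.exp_pos _)
  have hgrow : ∀ x ∈ Set.Icc (-L) L,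
      mER g X x * Real.exp (-q * Real.log (mER φ K x)) ≤ Real.exp (2 * L * η) * H0 := by
    intro x hx
    refine mono_growth (mER φ K) (mER g X) _ _ (mER_deriv φ K) (mER_deriv g X) hFp hGp q L η hη
      (fun x hx => ?_) hx
    have h1 := herr' (x : ℂ) (by simpa using hx)
    simp only [mES_ofReal, Complex.ofReal_re] at h1
    norm_cast at h1
    exact (le_abs_self _).trans h1
  set B : ℝ := η * Real.exp (-(q + 1) * Real.log (1 - ε)) * (Real.exp (2 * L * η) * H0) with hB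
  have step : ∀ x ∈ Set.Icc (-L) L, ∀ y θ : ℝ,
      ∑ t, φ t * Real.exp (x * K t) * ‖Complex.exp (Complex.I * (y * K t - θ : ℝ)) - 1‖
        ≤ ε * mER φ K x →
      mES φ K (x + Complex.I * y) * Complex.exp (-(Complex.I * θ)) ∈ Complex.slitPlane ∧
      ‖mES (fun p => g p * X p) X (x + Complex.I * y) * mES φ K (x + Complex.I * y)
        - q * (mES g X (x + Complex.I * y) * mES (fun t => φ t * K t) K (x + Complex.I * y))‖
        * Real.exp (-(q + 1) * Real.log ‖mES φ K (x + Complex.I * y)‖) ≤ B := by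
    intro x hx y θ hs
    obtain ⟨h1, h2⟩ := mono_slit (hFp x) hε1 ((mono_near K hφ x y θ).trans hs)
    refine ⟨h1, ?_⟩
    have hne : ‖Complex.exp (-(Complex.I * (θ : ℂ)))‖ = 1 := by
      rw [Complex.norm_exp]
      simp
    rw [norm_mul, hne, mul_one] at h2
    have hre : ((x : ℂ) + Complex.I * y).re = x := by simp
    have h3 := herr' (x + Complex.I * y) (by rw [hre]; exact hx)
    rw [hre] at h3
    have h1ε : 0 < 1 - ε := by linarith
    have h4 : Real.log (1 - ε) + Real.log (mER φ K x)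
        ≤ Real.log ‖mES φ K (x + Complex.I * y)‖ := by
      rw [← Real.log_mul h1ε.ne' (hFp x).ne']
      exact Real.log_le_log (mul_pos h1ε (hFp x)) h2
    have h5 : Real.exp (-(q + 1) * Real.log ‖mES φ K (x + Complex.I * y)‖)
        ≤ Real.exp (-(q + 1) * (Real.log (1 - ε) + Real.log (mER φ K x))) := by
      rw [Real.exp_le_exp]
      exact mul_le_mul_of_nonpos_left h4 (by linarith)
    have h6 : 0 ≤ η * (mER g X x * mER φ K x) :=
      mul_nonneg hη (mul_pos (hGp x) (hFp x)).le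
    refine (mul_le_mul h3 h5 (Real.exp_pos _).le h6).trans ?_
    have h7 : Real.exp (-(q + 1) * (Real.log (1 - ε) + Real.log (mER φ K x))) * mER φ K x
        = Real.exp (-(q + 1) * Real.log (1 - ε)) * Real.exp (-q * Real.log (mER φ K x)) := by
      have h8 := Real.exp_log (hFp x)
      calc _ = Real.exp (-(q + 1) * (Real.log (1 - ε) + Real.log (mER φ K x)))
            * Real.exp (Real.log (mER φ K x)) := by rw [h8]
        _ = _ := by
          rw [← Real.exp_add, ← Real.exp_add]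
          congr 1
          ring
    calc η * (mER g X x * mER φ K x)
          * Real.exp (-(q + 1) * (Real.log (1 - ε) + Real.log (mER φ K x)))
        = η * mER g X x * (Real.exp (-(q + 1) * (Real.log (1 - ε) + Real.log (mER φ K x)))
            * mER φ K x) := by ring
      _ = η * Real.exp (-(q + 1) * Real.log (1 - ε))
            * (mER g X x * Real.exp (-q * Real.log (mER φ K x))) := by rw [h7]; ring
      _ ≤ B := mul_le_mul_of_nonneg_left (hgrow x hx) (mul_nonneg hη (Real.exp_pos _).le)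
  have seg : ∀ x0 x1 y0 y1 θ0 θ1 : ℝ,
      (∀ s ∈ Set.Icc (0 : ℝ) 1, x0 + s * x1 ∈ Set.Icc (-L) L ∧
        ∑ t, φ t * Real.exp ((x0 + s * x1) * K t)
          * ‖Complex.exp (Complex.I * ((y0 + s * y1) * K t - (θ0 + s * θ1) : ℝ)) - 1‖
          ≤ ε * mER φ K (x0 + s * x1)) →
      ‖mh (mES φ K) (mES g X) q ((x0 + Complex.I * y0) + (x1 + Complex.I * y1)) (θ0 + θ1)
        - mh (mES φ K) (mES g X) q (x0 + Complex.I * y0) θ0‖
        ≤ ‖(x1 : ℂ) + Complex.I * y1‖ * B := by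
    intro x0 x1 y0 y1 θ0 θ1 hs
    have e1 : ∀ s : ℝ, (x0 : ℂ) + Complex.I * y0 + s * (x1 + Complex.I * y1)
        = ((x0 + s * x1 : ℝ) : ℂ) + Complex.I * ((y0 + s * y1 : ℝ) : ℂ) := by
      intro s
      push_cast
      ring
    have e2 : ∀ s : ℝ, (θ0 : ℂ) + s * θ1 = ((θ0 + s * θ1 : ℝ) : ℂ) := by
      intro s
      push_cast
      ring
    refine mono_seg _ _ _ _ (mES_deriv φ K) (mES_deriv g X) q _ _ θ0 θ1 B (fun s h => ?_)
      (fun s h => ?_)
    · rw [e1, e2]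
      exact (step _ (hs s h).1 _ _ (hs s h).2).1
    · rw [e1]
      exact (step _ (hs s h).1 _ _ (hs s h).2).2
  have hπ : 2 * Real.pi ≤ 7 := by linarith [Real.pi_lt_d2]
  have hπ0 : 0 < 2 * Real.pi := Real.two_pi_pos
  have hx2 : ∀ s ∈ Set.Icc (0 : ℝ) 1, -L + s * (2 * L) ∈ Set.Icc (-L) L := fun s hs =>
    ⟨by nlinarith [hs.1], by nlinarith [hs.2]⟩
  have hy2 : ∀ s ∈ Set.Icc (0 : ℝ) 1, |s * (2 * Real.pi)| ≤ 7 := fun s hs => by
    rw [abs_of_nonneg (mul_nonneg hs.1 hπ0.le)]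
    nlinarith [hs.1, hs.2]
  have hbot := seg (-L) (2 * L) 0 0 0 0 fun s hs => ⟨hx2 s hs, by
    simp only [mul_zero, add_zero, zero_mul, Complex.ofReal_zero, Complex.exp_zero,
      sub_self, norm_zero, Finset.sum_const_zero]
    exact mul_nonneg hε0 (hFp _).le⟩
  have hrt := seg L 0 0 (2 * Real.pi) 0 (2 * Real.pi * (β + 1)) fun s hs =>
    ⟨by simp [hL.le], by
      simp only [mul_zero, add_zero, zero_add]
      refine le_trans (Finset.sum_le_sum fun t _ => ?_) hright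
      refine mul_le_mul_of_nonneg_left ?_ (mul_nonneg (hφ t) (Real.exp_pos _).le)
      have : s * (2 * Real.pi) * K t - s * (2 * Real.pi * (β + 1))
          = s * (2 * Real.pi) * (K t - β - 1) := by ring
      rw [this]
      exact mono_exp_le _ _ (hy2 s hs)⟩
  have hlt := seg (-L) 0 0 (2 * Real.pi) 0 (2 * Real.pi * β) fun s hs =>
    ⟨by simp [hL.le], by
      simp only [mul_zero, add_zero, zero_add]
      refine le_trans (Finset.sum_le_sum fun t _ => ?_) hleft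
      refine mul_le_mul_of_nonneg_left ?_ (mul_nonneg (hφ t) (Real.exp_pos _).le)
      have : s * (2 * Real.pi) * K t - s * (2 * Real.pi * β)
          = s * (2 * Real.pi) * (K t - β) := by ring
      rw [this]
      exact mono_exp_le _ _ (hy2 s hs)⟩
  have htp := seg (-L) (2 * L) (2 * Real.pi) 0 (2 * Real.pi * β) 0 fun s hs =>
    ⟨hx2 s hs, by
      simp only [mul_zero, add_zero]
      refine le_trans (Finset.sum_le_sum fun t _ => ?_) (htop _ (hx2 s hs))
      refine mul_le_mul_of_nonneg_left ?_ (mul_nonneg (hφ t) (Real.exp_pos _).le)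
      have h7 : |2 * Real.pi| ≤ 7 := by rwa [abs_of_pos hπ0]
      have e1 : 2 * Real.pi * K t - 2 * Real.pi * β = 2 * Real.pi * (K t - β) := by ring
      rw [e1]
      refine le_min ((mono_exp_le _ _ h7).trans (min_le_right _ _)) ?_
      have e2 : Complex.exp (Complex.I * (2 * Real.pi * (K t - β) : ℝ))
          = Complex.exp (Complex.I * (2 * Real.pi * (K t - β - 1) : ℝ)) := by
        rw [← mul_one (Complex.exp (Complex.I * (2 * Real.pi * (K t - β - 1) : ℝ))),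
          ← Complex.exp_two_pi_mul_I, ← Complex.exp_add]
        congr 1
        push_cast
        ring
      rw [e2]
      exact mono_exp_le _ _ h7⟩
  set hh := mh (mES φ K) (mES g X) q with hhh
  have n1 : ‖((2 * L : ℝ) : ℂ) + Complex.I * ((0 : ℝ) : ℂ)‖ = 2 * L := by
    rw [Complex.ofReal_zero, mul_zero, add_zero, Complex.norm_real, Real.norm_eq_abs,
      abs_of_pos (by linarith)]
  have n2 : ‖((0 : ℝ) : ℂ) + Complex.I * ((2 * Real.pi : ℝ) : ℂ)‖ = 2 * Real.pi := by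
    rw [Complex.ofReal_zero, zero_add, norm_mul, Complex.norm_I, one_mul, Complex.norm_real,
      Real.norm_eq_abs, abs_of_pos hπ0]
  rw [n1] at hbot htp
  rw [n2] at hrt hlt
  have p1 : ((-L : ℝ) : ℂ) + Complex.I * ((0 : ℝ) : ℂ)
      + (((2 * L : ℝ) : ℂ) + Complex.I * ((0 : ℝ) : ℂ)) = (L : ℂ) + Complex.I * ((0 : ℝ) : ℂ) := by
    push_cast
    ring
  have p2 : ((-L : ℝ) : ℂ) + Complex.I * ((0 : ℝ) : ℂ)
      + (((0 : ℝ) : ℂ) + Complex.I * ((2 * Real.pi : ℝ) : ℂ))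
      = ((-L : ℝ) : ℂ) + Complex.I * ((2 * Real.pi : ℝ) : ℂ) := by
    push_cast
    ring
  have p3 : ((-L : ℝ) : ℂ) + Complex.I * ((2 * Real.pi : ℝ) : ℂ)
      + (((2 * L : ℝ) : ℂ) + Complex.I * ((0 : ℝ) : ℂ))
      = (L : ℂ) + Complex.I * ((0 : ℝ) : ℂ)
        + (((0 : ℝ) : ℂ) + Complex.I * ((2 * Real.pi : ℝ) : ℂ)) := by
    push_cast
    ring
  have z1 : ((0 : ℝ) : ℂ) + ((0 : ℝ) : ℂ) = ((0 : ℝ) : ℂ) := by simp
  have z2 : ((0 : ℝ) : ℂ) + ((2 * Real.pi * β : ℝ) : ℂ) = ((2 * Real.pi * β : ℝ) : ℂ) := by simp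
  have z3 : ((2 * Real.pi * β : ℝ) : ℂ) + ((0 : ℝ) : ℂ) = ((2 * Real.pi * β : ℝ) : ℂ) := by simp
  rw [p1, z1] at hbot
  rw [p2, z2] at hlt
  rw [p3, z3] at htp
  have flip : ∀ w : ℂ, hh w (((0 : ℝ) : ℂ) + ((2 * Real.pi * (β + 1) : ℝ) : ℂ))
      = -hh w ((2 * Real.pi * β : ℝ) : ℂ) := by
    intro w
    have a1 : Complex.exp (-(Complex.I * (((0 : ℝ) : ℂ) + ((2 * Real.pi * (β + 1) : ℝ) : ℂ))))
        = Complex.exp (-(Complex.I * ((2 * Real.pi * β : ℝ) : ℂ))) := by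
      rw [← mul_one (Complex.exp (-(Complex.I * (((0 : ℝ) : ℂ) + _)))),
        ← Complex.exp_two_pi_mul_I, ← Complex.exp_add]
      congr 1
      push_cast
      ring
    simp only [hhh, mh]
    have a2 : Complex.exp (-(2 * Real.pi * Complex.I * q)) = -1 := by
      rw [Complex.exp_neg, hq]
      norm_num
    rw [a1, ← mul_neg_one (mES g X w * _), mul_assoc (mES g X w), ← a2, ← Complex.exp_add]
    congr 2
    push_cast
    ring
  rw [flip] at hrt
  have base : hh (((-L : ℝ) : ℂ) + Complex.I * ((0 : ℝ) : ℂ)) ((0 : ℝ) : ℂ) = (H0 : ℂ) := by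
    simp only [hhh, mh, Complex.ofReal_zero, mul_zero, add_zero, neg_zero, Complex.exp_zero,
      mul_one, mES_ofReal, hH0]
    rw [← Complex.ofReal_log (hFp _).le]
    push_cast
    rfl
  rw [base] at hbot hlt
  generalize hh ((L : ℂ) + Complex.I * ((0 : ℝ) : ℂ)) ((0 : ℝ) : ℂ) = a at hbot hrt
  generalize hh (((-L : ℝ) : ℂ) + Complex.I * ((2 * Real.pi : ℝ) : ℂ))
    ((2 * Real.pi * β : ℝ) : ℂ) = b at hlt htp
  generalize hh ((L : ℂ) + Complex.I * ((0 : ℝ) : ℂ)
    + (((0 : ℝ) : ℂ) + Complex.I * ((2 * Real.pi : ℝ) : ℂ))) ((2 * Real.pi * β : ℝ) : ℂ) = c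
    at hrt htp
  have tri : ‖((2 * H0 : ℝ) : ℂ)‖ ≤ ‖a - H0‖ + ‖-c - a‖ + (‖b - H0‖ + ‖c - b‖) := by
    have : ((2 * H0 : ℝ) : ℂ) = -((a - H0 + (-c - a)) + (b - H0 + (c - b))) := by
      push_cast
      ring
    rw [this, norm_neg]
    exact (norm_add_le _ _).trans (add_le_add (norm_add_le _ _) (norm_add_le _ _))
  rw [Complex.norm_real, Real.norm_eq_abs, abs_of_pos (by linarith)] at tri
  have hB0 : 0 ≤ B :=
    mul_nonneg (mul_nonneg hη (Real.exp_pos _).le) (mul_pos (Real.exp_pos _) hH0p).le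
  have h9 : 2 * Real.pi * B ≤ 7 * B := mul_le_mul_of_nonneg_right hπ hB0
  have h10 : H0 ≤ (2 * L + 7) * B := by linarith
  have h11 : (2 * L + 7) * B < H0 := by
    have e : Real.exp ((q + 1) * Real.log (1 - ε)) * Real.exp (-(q + 1) * Real.log (1 - ε))
        = 1 := by
      rw [← Real.exp_add, ← Real.exp_zero]
      congr 1
      ring
    have := mul_lt_mul_of_pos_right hfin
      (mul_pos (Real.exp_pos (-(q + 1) * Real.log (1 - ε))) hH0p)
    calc (2 * L + 7) * B = (2 * L + 7) * η * Real.exp (2 * L * η)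
          * (Real.exp (-(q + 1) * Real.log (1 - ε)) * H0) := by rw [hB]; ring
      _ < _ := this
      _ = H0 := by rw [← mul_assoc, e, one_mul]
  linarith

end Pool.Agent.P.MP_abed8b_co
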