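import Mathlib

set_option autoImplicit false

namespace Pool.Agent.P.MP_abed8b_co

open Finset Filter

/-- The peak (`a` or `b`) to which the point `t / n` belongs. -/
noncomputable def pk (a b : ℝ) (n t : ℕ) : ℝ := if (a + b) / 2 * n < t then a else b

/-- Weights `W 0, ..., W n` with two peaks of equal mass at `a n` and `b n`, up to `δ`. -/
def TwoPeak (a b δ : ℝ) (n : ℕ) (W : ℕ → ℝ) : Prop :=
  (∑ t ∈ range (n + 1), (if (a + b) / 2 * n < t then W t else 0)
      = (∑ t ∈ range (n + 1), W t) / 2) ∧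
    ∑ t ∈ range (n + 1), (if δ < |(t : ℝ) / n - pk a b n t| then W t else 0)
      ≤ δ * ∑ t ∈ range (n + 1), W t

theorem peak_ev {c ε : ℝ} (hc : 0 < c) (hε : 0 < ε) :
    ∀ᶠ n : ℕ in atTop, (n : ℝ) + 1 ≤ c * Real.exp (ε * n) := by
  have h1 : ∀ᶠ n : ℕ in atTop, 4 / (c * ε ^ 2) ≤ (n : ℝ) :=
    tendsto_natCast_atTop_atTop.eventually_ge_atTop _
  filter_upwards [h1, eventually_ge_atTop 1] with n h1 h2
  have h3 : (1 : ℝ) ≤ n := by exact_mod_cast h2
  have h4 := Real.quadratic_le_exp_of_nonneg (x := ε * n) (by positivity)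
  rw [div_le_iff₀ (by positivity)] at h1
  have h5 : (ε * n) ^ 2 / 2 ≤ Real.exp (ε * n) := by
    have : 0 ≤ ε * n := by positivity
    linarith
  have h6 : c * ((ε * n) ^ 2 / 2) ≤ c * Real.exp (ε * n) := mul_le_mul_of_nonneg_left h5 hc.le
  have h7 : c * ((ε * n) ^ 2 / 2) = (n * (c * ε ^ 2)) * n / 2 := by ring
  nlinarith

theorem peak_sum_le {n : ℕ} {f : ℕ → ℝ} {c ε x : ℝ} (hn : (n : ℝ) + 1 ≤ c * Real.exp (ε * n))
    (hf : ∀ t ≤ n, f t ≤ Real.exp x) :
    ∑ t ∈ range (n + 1), f t ≤ c * Real.exp (x + ε * n) := by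
  have h1 : ∑ t ∈ range (n + 1), f t ≤ (range (n + 1)).card • Real.exp x :=
    Finset.sum_le_card_nsmul _ _ _ fun t ht => hf t (Nat.lt_succ_iff.1 (mem_range.1 ht))
  rw [card_range, nsmul_eq_mul, Nat.cast_succ] at h1
  refine h1.trans ?_
  rw [Real.exp_add, mul_comm (Real.exp x), ← mul_assoc]
  exact mul_le_mul_of_nonneg_right hn (Real.exp_pos _).le

theorem peak_gap (g : ℝ → ℝ) (hg : ContinuousOn g (Set.Icc 0 1)) (a b : ℝ)
    (hmax : ∀ x ∈ Set.Icc (0 : ℝ) 1, x ≠ a → x ≠ b → g x < g a) {ρ : ℝ} (hρ : 0 < ρ) :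
    ∃ γ > 0, ∀ x ∈ Set.Icc (0 : ℝ) 1, ρ ≤ |x - a| → ρ ≤ |x - b| → g x ≤ g a - γ := by
  set K : Set ℝ := Set.Icc (0 : ℝ) 1 ∩ ({x | ρ ≤ |x - a|} ∩ {x | ρ ≤ |x - b|}) with hK
  have hc : IsCompact K := isCompact_Icc.inter_right
    ((isClosed_le continuous_const (by fun_prop)).inter
      (isClosed_le continuous_const (by fun_prop)))
  rcases K.eq_empty_or_nonempty with h | h
  · refine ⟨1, one_pos, fun x hx h1 h2 => ?_⟩
    have : x ∈ K := ⟨hx, h1, h2⟩
    rw [h] at this
    exact this.elim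
  · obtain ⟨y, hy, hm⟩ := hc.exists_isMaxOn h (hg.mono Set.inter_subset_left)
    have h1 : g y < g a := by
      refine hmax y hy.1 ?_ ?_
      · rintro rfl
        have := hy.2.1
        simp only [Set.mem_ofPred_eq, sub_self, abs_zero] at this
        linarith
      · rintro rfl
        have := hy.2.2
        simp only [Set.mem_ofPred_eq, sub_self, abs_zero] at this
        linarith
    refine ⟨g a - g y, by linarith, fun x hx h1 h2 => ?_⟩
    have : g x ≤ g y := hm (⟨hx, h1, h2⟩ : x ∈ K)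
    linarith

/-- Laplace method with two maximisers; the field `h` balances the two peaks exactly. -/
theorem two_peak (g : ℝ → ℝ) (hg : ContinuousOn g (Set.Icc 0 1)) (a b : ℝ) (hb : 0 ≤ b)
    (hab : b < a) (ha : a ≤ 1) (heq : g b = g a)
    (hmax : ∀ x ∈ Set.Icc (0 : ℝ) 1, x ≠ a → x ≠ b → g x < g a)
    (w : ℕ → ℕ → ℝ)
    (hw : ∀ ε > (0 : ℝ), ∀ᶠ n : ℕ in atTop, ∀ t ≤ n, |w n t - n * g ((t : ℝ) / n)| ≤ ε * n)
    (δ : ℝ) (hδ : 0 < δ) :
    ∀ᶠ n : ℕ in atTop, ∃ h : ℝ, TwoPeak a b δ n fun t => Real.exp (w n t + h * t) := by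
  set ρ : ℝ := min δ ((a - b) / 4) with hρ
  have hρ0 : 0 < ρ := lt_min hδ (by linarith)
  have hρ1 : ρ ≤ δ := min_le_left _ _
  have hρ2 : ρ ≤ (a - b) / 4 := min_le_right _ _
  obtain ⟨γ, hγ, hgap⟩ := peak_gap g hg a b hmax hρ0
  set η : ℝ := γ / 4 with hη
  have hη0 : 0 < η := by positivity
  set ε : ℝ := η * (a - b) / 16 with hε
  have hab0 : 0 < a - b := by linarith
  have hε0 : 0 < ε := by positivity
  have hεγ : 4 * ε + 2 * η ≤ γ := by
    have : η * (a - b) ≤ η * 1 := mul_le_mul_of_nonneg_left (by linarith) hη0.le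
    linarith
  have hle : ∀ x ∈ Set.Icc (0 : ℝ) 1, g x ≤ g a := by
    intro x hx
    by_cases h1 : x = a
    · rw [h1]
    by_cases h2 : x = b
    · rw [h2, heq]
    exact (hmax x hx h1 h2).le
  obtain ⟨κa, hκa, ha'⟩ := Metric.continuousWithinAt_iff.1 (hg a ⟨by linarith, ha⟩) ε hε0
  obtain ⟨κb, hκb, hb'⟩ := Metric.continuousWithinAt_iff.1 (hg b ⟨hb, by linarith⟩) ε hε0
  set κ : ℝ := min (min κa κb) ρ with hκ
  have hκ0 : 0 < κ := lt_min (lt_min hκa hκb) hρ0
  have hκ1 : κ ≤ κa := (min_le_left _ _).trans (min_le_left _ _)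
  have hκ2 : κ ≤ κb := (min_le_left _ _).trans (min_le_right _ _)
  have hκ3 : κ ≤ ρ := min_le_right _ _
  have h1 : ∀ᶠ n : ℕ in atTop, 1 / κ ≤ (n : ℝ) :=
    tendsto_natCast_atTop_atTop.eventually_ge_atTop _
  filter_upwards [hw ε hε0, h1, eventually_ge_atTop 1, peak_ev one_pos hε0, peak_ev hδ hε0]
    with n hw h1 h2 h3 h4
  have hn : (0 : ℝ) < n := by exact_mod_cast h2
  rw [div_le_iff₀ hκ0] at h1
  have hmem : ∀ t ≤ n, (t : ℝ) / n ∈ Set.Icc (0 : ℝ) 1 := fun t ht =>
    ⟨by positivity, (div_le_one hn).2 (by exact_mod_cast ht)⟩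
  have hup : ∀ t ≤ n, w n t ≤ n * g a + ε * n := fun t ht => by
    have e1 := (abs_le.1 (hw t ht)).2
    have e2 := mul_le_mul_of_nonneg_left (hle _ (hmem t ht)) hn.le
    linarith
  -- lattice points near the two peaks
  obtain ⟨ta, hta, hta1, hta2⟩ : ∃ t ≤ n, (a - ρ) * n ≤ t ∧ n * g a - 2 * ε * n ≤ w n t := by
    have e0 : 0 ≤ a * n := mul_nonneg (by linarith) hn.le
    have e1 : (⌊a * n⌋₊ : ℝ) ≤ a * n := Nat.floor_le e0
    have e2 : a * n < ⌊a * n⌋₊ + 1 := Nat.lt_floor_add_one _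
    have e3 : ⌊a * n⌋₊ ≤ n := by
      have : (⌊a * n⌋₊ : ℝ) ≤ n := e1.trans (by nlinarith)
      exact_mod_cast this
    refine ⟨_, e3, by nlinarith, ?_⟩
    have e4 : dist ((⌊a * n⌋₊ : ℝ) / n) a < κa := by
      rw [Real.dist_eq, abs_lt, lt_sub_iff_add_lt, lt_div_iff₀ hn, sub_lt_iff_lt_add,
        div_lt_iff₀ hn]
      constructor <;> nlinarith
    have e5 := ha' (hmem _ e3) e4
    rw [Real.dist_eq] at e5
    have e6 := (abs_lt.1 e5).1
    have e7 := (abs_le.1 (hw _ e3)).1
    nlinarith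
  obtain ⟨tb, htb, htb1, htb2⟩ : ∃ t ≤ n, (t : ℝ) ≤ (b + ρ) * n ∧ n * g a - 2 * ε * n ≤ w n t := by
    have e0 : 0 ≤ b * n := mul_nonneg hb hn.le
    have e1 : (⌊b * n⌋₊ : ℝ) ≤ b * n := Nat.floor_le e0
    have e2 : b * n < ⌊b * n⌋₊ + 1 := Nat.lt_floor_add_one _
    have e3 : ⌊b * n⌋₊ ≤ n := by
      have : (⌊b * n⌋₊ : ℝ) ≤ n := e1.trans (by nlinarith)
      exact_mod_cast this
    refine ⟨_, e3, by nlinarith, ?_⟩
    have e4 : dist ((⌊b * n⌋₊ : ℝ) / n) b < κb := by
      rw [Real.dist_eq, abs_lt, lt_sub_iff_add_lt, lt_div_iff₀ hn, sub_lt_iff_lt_add,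
        div_lt_iff₀ hn]
      constructor <;> nlinarith
    have e5 := hb' (hmem _ e3) e4
    rw [Real.dist_eq, heq] at e5
    have e6 := (abs_lt.1 e5).1
    have e7 := (abs_le.1 (hw _ e3)).1
    nlinarith
  set U : ℝ → ℝ := fun h => ∑ t ∈ range (n + 1),
    (if (a + b) / 2 * n < t then Real.exp (w n t + h * t) else 0) with hU
  set L : ℝ → ℝ := fun h => ∑ t ∈ range (n + 1),
    (if (a + b) / 2 * n < t then 0 else Real.exp (w n t + h * t)) with hL
  have hUL : ∀ h, ∑ t ∈ range (n + 1), Real.exp (w n t + h * t) = U h + L h := fun h => by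
    simp only [hU, hL, ← Finset.sum_add_distrib]
    refine Finset.sum_congr rfl fun t _ => ?_
    split_ifs <;> simp
  have hcont : Continuous fun h => U h - L h := by
    refine Continuous.sub (continuous_finsetSum _ fun t _ => ?_)
      (continuous_finsetSum _ fun t _ => ?_) <;> split_ifs <;> fun_prop
  have hεn : 4 * (ε * n) = η * ((a - b) / 4 * n) := by rw [hε]; ring
  have hpos : 0 ≤ U η - L η := by
    have e1 : L η ≤ 1 * Real.exp ((n * g a + ε * n + η * ((a + b) / 2 * n)) + ε * n) := by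
      refine peak_sum_le h3 fun t ht => ?_
      split_ifs with h
      · exact (Real.exp_pos _).le
      · refine Real.exp_le_exp.2 (add_le_add (hup t ht) ?_)
        exact mul_le_mul_of_nonneg_left (not_lt.1 h) hη0.le
    have e2 : (a + b) / 2 * n + (a - b) / 4 * n ≤ ta := by nlinarith
    have e3 : (a + b) / 2 * n < ta := by nlinarith
    have e4 : Real.exp (w n ta + η * ta) ≤ U η := by
      have := Finset.single_le_sum (s := range (n + 1))
        (f := fun t : ℕ => if (a + b) / 2 * n < t then Real.exp (w n t + η * t) else 0)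
        (fun t _ => by split_ifs <;> positivity) (mem_range.2 (Nat.lt_succ_of_le hta))
      simpa only [if_pos e3] using this
    have e5 := mul_le_mul_of_nonneg_left e2 hη0.le
    have e6 : Real.exp ((n * g a + ε * n + η * ((a + b) / 2 * n)) + ε * n)
        ≤ Real.exp (w n ta + η * ta) := Real.exp_le_exp.2 (by linarith)
    linarith
  have hneg : U (-η) - L (-η) ≤ 0 := by
    have e1 : U (-η) ≤ 1 * Real.exp ((n * g a + ε * n + -η * ((a + b) / 2 * n)) + ε * n) := by
      refine peak_sum_le h3 fun t ht => ?_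
      split_ifs with h
      · refine Real.exp_le_exp.2 (add_le_add (hup t ht) ?_)
        exact mul_le_mul_of_nonpos_left h.le (by linarith)
      · exact (Real.exp_pos _).le
    have e2 : (tb : ℝ) ≤ (a + b) / 2 * n - (a - b) / 4 * n := by nlinarith
    have e3 : ¬ (a + b) / 2 * n < tb := by
      rw [not_lt]
      nlinarith
    have e4 : Real.exp (w n tb + -η * tb) ≤ L (-η) := by
      have := Finset.single_le_sum (s := range (n + 1))
        (f := fun t : ℕ => if (a + b) / 2 * n < t then 0 else Real.exp (w n t + -η * t))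
        (fun t _ => by split_ifs <;> positivity) (mem_range.2 (Nat.lt_succ_of_le htb))
      simpa only [if_neg e3] using this
    have e5 := mul_le_mul_of_nonneg_left e2 hη0.le
    have e6 : Real.exp ((n * g a + ε * n + -η * ((a + b) / 2 * n)) + ε * n)
        ≤ Real.exp (w n tb + -η * tb) := Real.exp_le_exp.2 (by linarith)
    linarith
  obtain ⟨h, hh, h0⟩ := intermediate_value_Icc (by linarith : -η ≤ η) hcont.continuousOn
    (⟨hneg, hpos⟩ : (0 : ℝ) ∈ Set.Icc _ _)
  simp only at h0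
  have hht : ∀ t ≤ n, |h * t| ≤ η * n := fun t ht => by
    rw [abs_mul, Nat.abs_cast]
    exact mul_le_mul (abs_le.2 hh) (by exact_mod_cast ht) (by positivity) hη0.le
  refine ⟨h, ?_, ?_⟩
  · rw [hUL]
    change U h = _
    linarith
  · have e1 : ∑ t ∈ range (n + 1), (if δ < |(t : ℝ) / n - pk a b n t| then
        Real.exp (w n t + h * t) else 0)
        ≤ δ * Real.exp ((n * (g a - γ) + ε * n + η * n) + ε * n) := by
      refine peak_sum_le h4 fun t ht => ?_
      split_ifs with hd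
      · refine Real.exp_le_exp.2 (add_le_add ?_ (abs_le.1 (hht t ht)).2)
        have e2 : g ((t : ℝ) / n) ≤ g a - γ := by
          unfold pk at hd
          split_ifs at hd with hp
          · refine hgap _ (hmem t ht) (by linarith) (le_abs.2 (Or.inl ?_))
            rw [← lt_div_iff₀ hn] at hp
            linarith
          · refine hgap _ (hmem t ht) (le_abs.2 (Or.inr ?_)) (by linarith)
            rw [← lt_div_iff₀ hn, not_lt] at hp
            linarith
        have e3 := (abs_le.1 (hw t ht)).2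
        have e4 := mul_le_mul_of_nonneg_left e2 hn.le
        linarith
      · exact (Real.exp_pos _).le
    refine e1.trans (mul_le_mul_of_nonneg_left ?_ hδ.le)
    have e4 : Real.exp (w n ta + h * ta) ≤ ∑ t ∈ range (n + 1), Real.exp (w n t + h * t) :=
      Finset.single_le_sum (f := fun t : ℕ => Real.exp (w n t + h * t))
        (fun t _ => (Real.exp_pos _).le) (mem_range.2 (Nat.lt_succ_of_le hta))
    refine le_trans (Real.exp_le_exp.2 ?_) e4
    have e5 := (abs_le.1 (hht ta hta)).1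
    have e6 := mul_le_mul_of_nonneg_right hεγ hn.le
    linarith

theorem peak_log_fact_le {t : ℕ} (ht : 1 ≤ t) :
    Real.log (t.factorial : ℝ) ≤ (t : ℝ) * Real.log t - t + Real.log t + 1 := by
  induction t, ht using Nat.le_induction with
  | base => simp
  | succ t ht ih =>
    have h0 : (0 : ℝ) < t := by exact_mod_cast ht
    have h1 : (0 : ℝ) < (t : ℝ) + 1 := by positivity
    have h2 := Real.log_le_sub_one_of_pos (div_pos h0 h1)
    rw [Real.log_div h0.ne' h1.ne'] at h2
    have h3 := mul_le_mul_of_nonneg_left h2 h1.le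
    have h4 : ((t : ℝ) + 1) * (t / (t + 1) - 1) = -1 := by
      field_simp
      ring
    rw [Nat.factorial_succ, Nat.cast_mul, Real.log_mul (by positivity) (by positivity)]
    push_cast
    linarith

theorem peak_le_log_fact (t : ℕ) : (t : ℝ) * Real.log t - t ≤ Real.log (t.factorial : ℝ) := by
  rcases Nat.eq_zero_or_pos t with rfl | ht
  · simp
  have h0 : (0 : ℝ) < t := by exact_mod_cast ht
  have h1 := Real.pow_div_factorial_le_exp (t : ℝ) h0.le t
  have h2 := Real.log_le_log (by positivity) h1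
  rw [Real.log_div (by positivity) (by positivity), Real.log_pow, Real.log_exp] at h2
  linarith

/-- Crude Stirling formula, uniformly on `t ≤ n`. -/
theorem log_fact (ε : ℝ) (hε : 0 < ε) :
    ∀ᶠ n : ℕ in atTop, ∀ t ≤ n,
      |Real.log (t.factorial : ℝ) - ((t : ℝ) * Real.log t - t)| ≤ ε * n := by
  filter_upwards [peak_ev (Real.exp_pos (-1)) hε] with n hn t ht
  have h1 := Real.log_le_log (by positivity) hn
  rw [← Real.exp_add, Real.log_exp] at h1
  have h2 := peak_le_log_fact t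
  rw [abs_of_nonneg (by linarith)]
  rcases Nat.eq_zero_or_pos t with rfl | ht0
  · simp only [Nat.factorial_zero, Nat.cast_one, Real.log_one, Nat.cast_zero, zero_mul, sub_self]
    positivity
  have h3 := peak_log_fact_le ht0
  have h4 : Real.log t ≤ Real.log (n + 1) := by
    refine Real.log_le_log (by exact_mod_cast ht0) ?_
    have : (t : ℝ) ≤ n := by exact_mod_cast ht
    linarith
  linarith

end Pool.Agent.P.MP_abed8b_co
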