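import Pool.Agent.K.MP_abed8b_co.C3
import Pool.Agent.K.MP_abed8b_co.C1
import Pool.Agent.K.MP_abed8b_co.C4
import Pool.Agent.K.MP_abed8b_co.C2

-- part Pool.Agent.P.MP_abed8b_co.Lev
section

set_option autoImplicit false

namespace Pool.Agent.P.MP_abed8b_co

open Finset Filter

theorem lev_mul_log_div {t n : ℝ} (ht : 0 ≤ t) (hn : 0 < n) :
    t * Real.log (t / n) = t * Real.log t - t * Real.log n := by
  rcases ht.eq_or_lt with h | h
  · rw [← h]; simp
  · rw [Real.log_div h.ne' hn.ne']; ring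

/-- Two peaks for one cluster. -/
theorem peaks_one (d : ℕ) (hd : 10 ≤ d) :
    ∃ b τ : ℝ, 0 < b ∧ b ≤ 1 / (10 * d) ∧ 0 < τ ∧ ∀ δ > (0 : ℝ), ∀ᶠ n : ℕ in atTop, ∃ r : ℝ,
      TwoPeak (5 / d) b δ n fun t =>
        Real.exp (τ * n * (1 - (t : ℝ) / n) ^ d + r * t) / (t.factorial : ℝ) := by
  obtain ⟨b, τ, h, hb, hb', hτ, heq, hmax⟩ := level_one d hd
  refine ⟨b, τ, hb, hb', hτ, fun δ hδ => ?_⟩
  have hd' : (10 : ℝ) ≤ d := by exact_mod_cast hd
  have hd0 : (0 : ℝ) < d := by linarith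
  have hab : b < 5 / d := by
    refine lt_of_le_of_lt hb' ?_
    rw [div_lt_div_iff₀ (by positivity) hd0]
    linarith
  have ha : (5 : ℝ) / d ≤ 1 := by
    rw [div_le_one hd0]; linarith
  have key := two_peak (g1 d τ h) (g1_cont d τ h).continuousOn (5 / d) b hb.le hab ha heq hmax
    (fun n t => τ * n * (1 - (t : ℝ) / n) ^ d + t * Real.log n - Real.log (t.factorial : ℝ) + h * t)
    (fun ε hε => by
      filter_upwards [log_fact ε hε, eventually_gt_atTop 0] with n hn hn0 t ht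
      have hn' : (0 : ℝ) < n := by exact_mod_cast hn0
      have h1 := lev_mul_log_div (t := (t : ℝ)) (Nat.cast_nonneg t) hn'
      have h2 : τ * n * (1 - (t : ℝ) / n) ^ d + t * Real.log n - Real.log (t.factorial : ℝ) + h * t
          - n * g1 d τ h ((t : ℝ) / n)
          = -(Real.log (t.factorial : ℝ) - ((t : ℝ) * Real.log t - t)) := by
        have h3 : (n : ℝ) * g1 d τ h ((t : ℝ) / n)
            = -((t : ℝ) * Real.log ((t : ℝ) / n)) + t + τ * n * (1 - (t : ℝ) / n) ^ d + h * t := by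
          unfold g1
          field_simp
        rw [h3, h1]; ring
      rw [h2, abs_neg]
      exact hn t ht) δ hδ
  filter_upwards [key] with n hn
  obtain ⟨h', hh'⟩ := hn
  refine ⟨Real.log n + h + h', ?_⟩
  convert hh' using 2 with t
  have hf : (0 : ℝ) < (t.factorial : ℝ) := by exact_mod_cast t.factorial_pos
  rw [div_eq_iff hf.ne']
  conv_rhs => rw [← Real.exp_log hf, ← Real.exp_add]
  rw [Real.log_exp]
  congr 1
  ring

/-- Weight of a set `I` of clusters. -/
noncomputable def om (m : ℕ) (B T h x : ℝ) (I : Finset (Fin m)) : ℝ :=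
  Real.exp (T * m * Real.exp (-(24 / 5 * ((I.card : ℝ) / m))) + h * I.card +
    x * (((I.card : ℝ) / m) / (17 / 100 - B)))

/-- Position of `I` between the two peaks. -/
noncomputable def zz (m : ℕ) (B : ℝ) (I : Finset (Fin m)) : ℝ :=
  ((I.card : ℝ) / m - B) / (17 / 100 - B)

theorem lev_exp_one : Real.exp 1 ≤ 3 := by
  have := Real.exp_one_lt_d9
  linarith

theorem lev_abs_mul {x z L η : ℝ} (hx : |x| ≤ L) (hz : |z| ≤ η) : |x * z| ≤ L * η := by
  rw [abs_mul]
  exact mul_le_mul hx hz (abs_nonneg _) ((abs_nonneg _).trans hx)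

/-- The tilted total mass is comparable to the total mass. -/
theorem lev_lower {ι : Type*} [Fintype ι] (W z : ι → ℝ) (U Bd : ι → Prop) [DecidablePred U]
    [DecidablePred Bd] (hW : ∀ i, 0 ≤ W i) {δ η L x : ℝ}
    (hU : ∑ i, (if U i then W i else 0) = (∑ i, W i) / 2)
    (hB : ∑ i, (if Bd i then W i else 0) ≤ δ * ∑ i, W i) (hδ : δ ≤ 1 / 4)
    (hz : ∀ i, ¬ Bd i → ¬ U i → |z i| ≤ η) (hx : |x| ≤ L) (hLη : L * η ≤ 1) :
    ∑ i, W i ≤ 12 * ∑ i, W i * Real.exp (x * z i) := by
  have hS : 0 ≤ ∑ i, W i := Finset.sum_nonneg fun i _ => hW i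
  have h1 : ∀ i, W i - (if U i then W i else 0) - (if Bd i then W i else 0)
      ≤ 3 * (W i * Real.exp (x * z i)) := by
    intro i
    have h0 : 0 ≤ W i * Real.exp (x * z i) := mul_nonneg (hW i) (Real.exp_pos _).le
    have hWi := hW i
    by_cases hu : U i
    · by_cases hb : Bd i
      · rw [if_pos hu, if_pos hb]; linarith
      · rw [if_pos hu, if_neg hb]; linarith
    · by_cases hb : Bd i
      · rw [if_neg hu, if_pos hb]; linarith
      · rw [if_neg hu, if_neg hb]
        have h2 := (abs_le.1 ((lev_abs_mul hx (hz i hb hu)).trans hLη)).1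
        have h3 : 1 ≤ Real.exp 1 * Real.exp (x * z i) := by
          rw [← Real.exp_add]
          exact Real.one_le_exp (by linarith)
        have h4 : Real.exp 1 * Real.exp (x * z i) ≤ 3 * Real.exp (x * z i) :=
          mul_le_mul_of_nonneg_right lev_exp_one (Real.exp_pos _).le
        have h5 := mul_le_mul_of_nonneg_left (h3.trans h4) hWi
        linarith
  have h2 := Finset.sum_le_sum fun i (_ : i ∈ (univ : Finset ι)) => h1 i
  rw [Finset.sum_sub_distrib, Finset.sum_sub_distrib, ← Finset.mul_sum, hU] at h2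
  have h3 := mul_le_mul_of_nonneg_right hδ hS
  linarith

/-- Upper bound of a tilted mean: `c` off the bad set except for a part of small tilt. -/
theorem lev_upper {ι : Type*} [Fintype ι] (W z φ : ι → ℝ) (Bd : ι → Prop)
    [DecidablePred Bd] (hW : ∀ i, 0 ≤ W i) {δ L Z x c C e : ℝ}
    (hB : ∑ i, (if Bd i then W i else 0) ≤ δ * ∑ i, W i) (hδ : 0 ≤ δ)
    (hx : |x| ≤ L) (hZ : ∀ i, |z i| ≤ Z) (hc : 0 ≤ c) (hC : 0 ≤ C) (he : 0 ≤ e)
    (hφ : ∀ i, φ i ≤ C)
    (hgood : ∀ i, ¬ Bd i → φ i ≤ c ∨ Real.exp (x * z i) * φ i ≤ e)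
    (hlow : ∑ i, W i ≤ 12 * ∑ i, W i * Real.exp (x * z i)) :
    ∑ i, W i * Real.exp (x * z i) * φ i
      ≤ (c + 12 * (C * Real.exp (L * Z) * δ + e)) * ∑ i, W i * Real.exp (x * z i) := by
  have hK : 0 ≤ C * Real.exp (L * Z) := mul_nonneg hC (Real.exp_pos _).le
  have h1 : ∀ i, W i * Real.exp (x * z i) * φ i ≤ c * (W i * Real.exp (x * z i))
      + C * Real.exp (L * Z) * (if Bd i then W i else 0) + e * W i := by
    intro i
    have hWi := hW i
    have h0 : 0 ≤ W i * Real.exp (x * z i) := mul_nonneg hWi (Real.exp_pos _).le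
    have hc0 := mul_nonneg hc h0
    have he0 := mul_nonneg he hWi
    by_cases hb : Bd i
    · rw [if_pos hb]
      have h2 : Real.exp (x * z i) ≤ Real.exp (L * Z) :=
        Real.exp_le_exp.2 (abs_le.1 (lev_abs_mul hx (hZ i))).2
      have h3 := mul_le_mul_of_nonneg_left (hφ i) h0
      have h4 := mul_le_mul_of_nonneg_left h2 (mul_nonneg hWi hC)
      linarith
    · rw [if_neg hb]
      rcases hgood i hb with h | h
      · have h3 := mul_le_mul_of_nonneg_left h h0
        linarith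
      · have h3 := mul_le_mul_of_nonneg_left h hWi
        linarith
  have h2 := Finset.sum_le_sum fun i (_ : i ∈ (univ : Finset ι)) => h1 i
  rw [Finset.sum_add_distrib, Finset.sum_add_distrib, ← Finset.mul_sum, ← Finset.mul_sum,
    ← Finset.mul_sum] at h2
  have h3 := mul_le_mul_of_nonneg_left hB hK
  have h4 := mul_le_mul_of_nonneg_left hlow (add_nonneg (mul_nonneg hK hδ) he)
  linarith

/-- At the end of the interval of tilts one peak dominates. -/
theorem lev_end {ι : Type*} [Fintype ι] (W z : ι → ℝ) (U Bd : ι → Prop) [DecidablePred U]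
    [DecidablePred Bd] (hW : ∀ i, 0 ≤ W i) {δ η L Z : ℝ}
    (hU : ∑ i, (if U i then W i else 0) = (∑ i, W i) / 2)
    (hB : ∑ i, (if Bd i then W i else 0) ≤ δ * ∑ i, W i) (hδ0 : 0 ≤ δ) (hδ : δ ≤ 1 / 4)
    (hz : ∀ i, ¬ Bd i → ¬ U i → |z i| ≤ η) (hz' : ∀ i, ¬ Bd i → U i → |z i - 1| ≤ η)
    (hZ : ∀ i, |z i| ≤ Z) (hL : 0 < L) (hη : 0 ≤ η) (hLη : L * η ≤ 1) :
    ∑ i, W i * Real.exp (-L * z i) * min 2 (7 * |z i|)
      ≤ (7 * η + 12 * (2 * Real.exp (L * Z) * δ + 6 / L)) * ∑ i, W i * Real.exp (-L * z i) := by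
  have hx : |-L| ≤ L := by rw [abs_neg, abs_of_pos hL]
  refine lev_upper W z (fun i => min 2 (7 * |z i|)) Bd hW hB hδ0 hx hZ (by positivity)
    (by norm_num) (by positivity) (fun i => min_le_left _ _) (fun i hb => ?_)
    (lev_lower W z U Bd hW hU hB hδ hz hx hLη)
  by_cases hu : U i
  · right
    have h1 := (abs_le.1 (hz' i hb hu)).1
    have h2 : -L * z i ≤ 1 + -L := by
      have := mul_le_mul_of_nonneg_left h1 hL.le
      linarith
    have h3 : Real.exp (-L * z i) ≤ Real.exp 1 * Real.exp (-L) := by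
      rw [← Real.exp_add]; exact Real.exp_le_exp.2 h2
    have h4 : Real.exp (-L) ≤ 1 / L := by
      rw [Real.exp_neg, ← one_div]
      apply one_div_le_one_div_of_le hL
      have := Real.add_one_le_exp L
      linarith
    have h5 : Real.exp 1 * Real.exp (-L) ≤ 3 * (1 / L) :=
      mul_le_mul lev_exp_one h4 (Real.exp_pos _).le (by norm_num)
    have h6 : Real.exp (-L * z i) * min 2 (7 * |z i|) ≤ Real.exp (-L * z i) * 2 :=
      mul_le_mul_of_nonneg_left (min_le_left _ _) (Real.exp_pos _).le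
    have h7 : 6 / L = 6 * (1 / L) := by ring
    linarith
  · left
    have := hz i hb hu
    exact (min_le_right _ _).trans (by linarith)

theorem lev_sum_card (m : ℕ) (F : ℕ → ℝ) :
    ∑ I : Finset (Fin m), F I.card = ∑ k ∈ range (m + 1), (m.choose k : ℝ) * F k := by
  have h := Finset.sum_powerset_apply_card F (x := (univ : Finset (Fin m)))
  rw [Finset.powerset_univ, Finset.card_univ, Fintype.card_fin] at h
  rw [h]
  exact Finset.sum_congr rfl fun k _ => nsmul_eq_mul _ _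

theorem lev_marg (m : ℕ) (F : ℕ → ℝ) (i : Fin m) :
    (m : ℝ) * ∑ I : Finset (Fin m), (if i ∈ I then F I.card else 0)
      = ∑ I : Finset (Fin m), F I.card * I.card := by
  have h1 : ∀ j : Fin m, ∑ I : Finset (Fin m), (if i ∈ I then F I.card else 0)
      = ∑ I : Finset (Fin m), (if j ∈ I then F I.card else 0) := by
    intro j
    refine Fintype.sum_equiv (Equiv.swap i j).finsetCongr _ _ fun I => ?_
    have h2 : j ∈ (Equiv.swap i j).finsetCongr I ↔ i ∈ I := by
      rw [Equiv.finsetCongr_apply, Finset.mem_map_equiv, Equiv.symm_swap, Equiv.swap_apply_right]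
    have h3 : ((Equiv.swap i j).finsetCongr I).card = I.card := by
      rw [Equiv.finsetCongr_apply, Finset.card_map]
    rw [h3]
    simp only [h2]
  have h4 : (m : ℝ) * ∑ I : Finset (Fin m), (if i ∈ I then F I.card else 0)
      = ∑ j : Fin m, ∑ I : Finset (Fin m), (if j ∈ I then F I.card else 0) := by
    rw [← Finset.sum_congr rfl fun j _ => h1 j, Finset.sum_const, Finset.card_univ,
      Fintype.card_fin, nsmul_eq_mul]
  rw [h4, Finset.sum_comm]
  refine Finset.sum_congr rfl fun I _ => ?_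
  rw [← Finset.sum_filter, Finset.sum_const, nsmul_eq_mul, mul_comm]
  congr 2
  simp

theorem lev_log_choose (ε : ℝ) (hε : 0 < ε) :
    ∀ᶠ m : ℕ in atTop, ∀ k ≤ m, |Real.log (m.choose k : ℝ) + (k : ℝ) * Real.log ((k : ℝ) / m)
      + ((m : ℝ) - k) * Real.log (1 - (k : ℝ) / m)| ≤ ε * m := by
  filter_upwards [log_fact (ε / 3) (by positivity), eventually_gt_atTop 0] with m hm hm0 k hk
  have hm' : (0 : ℝ) < m := by exact_mod_cast hm0
  have hk' : (k : ℝ) ≤ m := by exact_mod_cast hk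
  have h1 := abs_le.1 (hm m le_rfl)
  have h2 := abs_le.1 (hm k hk)
  have h3 := abs_le.1 (hm (m - k) (Nat.sub_le _ _))
  rw [Nat.cast_sub hk] at h3
  have h4 := lev_mul_log_div (t := (k : ℝ)) (Nat.cast_nonneg k) hm'
  have h5 := lev_mul_log_div (t := (m : ℝ) - k) (by linarith) hm'
  have h6 : ((m : ℝ) - k) / m = 1 - (k : ℝ) / m := by field_simp
  rw [h6] at h5
  have hf : ∀ j : ℕ, (j.factorial : ℝ) ≠ 0 := fun j => by exact_mod_cast j.factorial_ne_zero
  have h7 : Real.log (m.choose k : ℝ) = Real.log (m.factorial : ℝ) - Real.log (k.factorial : ℝ)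
      - Real.log ((m - k).factorial : ℝ) := by
    rw [Nat.cast_choose ℝ hk, Real.log_div (hf _) (mul_ne_zero (hf _) (hf _)),
      Real.log_mul (hf _) (hf _)]
    ring
  rw [h4, h5, h7, abs_le]
  constructor <;> linarith [h1.1, h1.2, h2.1, h2.2, h3.1, h3.2]

/-- Two peaks for the system of clusters. -/
theorem peaks_two :
    ∃ B T : ℝ, 0 < B ∧ B < 17 / 100 ∧ 0 < T ∧ ∀ ε > (0 : ℝ), ∃ L > (0 : ℝ), ∃ m : ℕ, 0 < m ∧
      ∃ h : ℝ,
        (∑ I, om m B T h (-L) I * min 2 (7 * |zz m B I|) ≤ ε * ∑ I, om m B T h (-L) I) ∧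
        (∑ I, om m B T h L I * min 2 (7 * |zz m B I - 1|) ≤ ε * ∑ I, om m B T h L I) ∧
        (∀ x ∈ Set.Icc (-L) L,
          ∑ I, om m B T h x I * min (7 * |zz m B I|) (min 2 (7 * |zz m B I - 1|))
            ≤ ε * ∑ I, om m B T h x I) ∧
        (∀ x ∈ Set.Icc (-L) L, ∀ i : Fin m,
          ∑ I, (if i ∈ I then om m B T h x I else 0) ≤ 172 / 1000 * ∑ I, om m B T h x I) := by
  obtain ⟨B, T, h0, hB0, hBA, hT, heq, hmax⟩ := level_two
  refine ⟨B, T, hB0, hBA, hT, fun ε hε => ?_⟩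
  obtain ⟨D, hD⟩ : ∃ D : ℝ, D = 17 / 100 - B := ⟨_, rfl⟩
  have hD0 : 0 < D := by linarith
  obtain ⟨L, hL⟩ : ∃ L : ℝ, L = 216 / ε := ⟨_, rfl⟩
  have hL0 : 0 < L := by rw [hL]; positivity
  have hLε : 12 * (6 / L) = ε / 3 := by rw [hL]; field_simp; norm_num
  obtain ⟨E, hE⟩ : ∃ E : ℝ, E = Real.exp (L * (1 / D)) := ⟨_, rfl⟩
  have hE0 : 0 < E := by rw [hE]; exact Real.exp_pos _
  obtain ⟨δ, hδ0, hδ1, hδ2⟩ : ∃ δ : ℝ, 0 < δ ∧
      δ * (L / D + 7 / D + 24 * E + 4) ≤ 2 * ε / 3 ∧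
      δ * (L / D + 7 / D + 24 * E + 4) ≤ 1 / 500 := by
    have hM : 0 < L / D + 7 / D + 24 * E + 4 := by positivity
    refine ⟨min (2 * ε / 3) (1 / 500) / (L / D + 7 / D + 24 * E + 4), by positivity, ?_, ?_⟩
    · rw [div_mul_cancel₀ _ hM.ne']; exact min_le_left _ _
    · rw [div_mul_cancel₀ _ hM.ne']; exact min_le_right _ _
  obtain ⟨η, hη⟩ : ∃ η : ℝ, η = δ / D := ⟨_, rfl⟩
  have hη0 : 0 ≤ η := by rw [hη]; positivity
  have hexp : δ * (L / D + 7 / D + 24 * E + 4) = L * η + 7 * η + 24 * (E * δ) + 4 * δ := by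
    rw [hη]; ring
  rw [hexp] at hδ1 hδ2
  have hLη0 : 0 ≤ L * η := by positivity
  have hEδ : 0 ≤ E * δ := by positivity
  have key := two_peak (g2 T h0) (g2_cont T h0).continuousOn (17 / 100) B hB0.le hBA
    (by norm_num) heq hmax
    (fun m k => Real.log (m.choose k : ℝ) + T * m * Real.exp (-(24 / 5 * ((k : ℝ) / m))) + h0 * k)
    (fun ε hε => by
      filter_upwards [lev_log_choose ε hε, eventually_gt_atTop 0] with m hm hm0 k hk
      have hm' : (0 : ℝ) < m := by exact_mod_cast hm0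
      have h3 : (m : ℝ) * g2 T h0 ((k : ℝ) / m)
          = -((k : ℝ) * Real.log ((k : ℝ) / m)) - ((m : ℝ) - k) * Real.log (1 - (k : ℝ) / m)
            + T * m * Real.exp (-(24 / 5 * ((k : ℝ) / m))) + h0 * k := by
        unfold g2
        generalize Real.log ((k : ℝ) / m) = u
        generalize Real.log (1 - (k : ℝ) / m) = v
        generalize Real.exp (-(24 / 5 * ((k : ℝ) / m))) = y
        field_simp
      have h4 := hm k hk
      rw [h3]
      convert h4 using 2
      ring) δ hδ0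
  obtain ⟨m, ⟨h, hU, hBd⟩, hm0⟩ := (key.and (eventually_gt_atTop 0)).exists
  have hm' : (0 : ℝ) < m := by exact_mod_cast hm0
  obtain ⟨V, hV⟩ : ∃ V : ℕ → ℝ, V = fun k : ℕ =>
      Real.exp (T * m * Real.exp (-(24 / 5 * ((k : ℝ) / m))) + (h0 + h) * k) := ⟨_, rfl⟩
  have hV0 : ∀ I : Finset (Fin m), 0 ≤ V I.card := fun I => by
    rw [hV]; exact (Real.exp_pos _).le
  have hWV : ∀ k ∈ range (m + 1), Real.exp (Real.log (m.choose k : ℝ)
      + T * m * Real.exp (-(24 / 5 * ((k : ℝ) / m))) + h0 * k + h * k)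
      = (m.choose k : ℝ) * V k := by
    intro k hk
    have hc : (0 : ℝ) < (m.choose k : ℝ) := by
      exact_mod_cast Nat.choose_pos (Nat.lt_succ_iff.1 (Finset.mem_range.1 hk))
    rw [hV]
    conv_rhs => rw [← Real.exp_log hc, ← Real.exp_add]
    congr 1
    ring
  have hite : ∀ (P : ℕ → Prop) [DecidablePred P],
      ∑ k ∈ range (m + 1), (if P k then Real.exp (Real.log (m.choose k : ℝ)
        + T * m * Real.exp (-(24 / 5 * ((k : ℝ) / m))) + h0 * k + h * k) else 0)
      = ∑ I : Finset (Fin m), (if P I.card then V I.card else 0) := by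
    intro P _
    rw [lev_sum_card m fun k => if P k then V k else 0]
    refine Finset.sum_congr rfl fun k hk => ?_
    rw [hWV k hk, mul_ite, mul_zero]
  simp only at hU hBd
  rw [Finset.sum_congr rfl hWV, ← lev_sum_card m V] at hU hBd
  rw [hite fun k => (17 / 100 + B) / 2 * (m : ℝ) < k] at hU
  rw [hite fun k => δ < |(k : ℝ) / m - pk (17 / 100) B m k|] at hBd
  have hU' : ∑ I : Finset (Fin m), (if ¬ (17 / 100 + B) / 2 * (m : ℝ) < I.card then V I.card else 0)
      = (∑ I : Finset (Fin m), V I.card) / 2 := by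
    have h1 : ∀ I : Finset (Fin m),
        (if ¬ (17 / 100 + B) / 2 * (m : ℝ) < I.card then V I.card else 0)
        = V I.card - (if (17 / 100 + B) / 2 * (m : ℝ) < I.card then V I.card else 0) := by
      intro I
      by_cases hu : (17 / 100 + B) / 2 * (m : ℝ) < I.card
      · rw [if_pos hu, if_neg (not_not.2 hu), sub_self]
      · rw [if_neg hu, if_pos hu, sub_zero]
    rw [Finset.sum_congr rfl fun I _ => h1 I, Finset.sum_sub_distrib, hU]
    ring
  have hzz : ∀ I, zz m B I = ((I.card : ℝ) / m - B) / D := fun I => by rw [hD]; rfl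
  have hzz' : ∀ I, zz m B I - 1 = ((I.card : ℝ) / m - 17 / 100) / D := fun I => by
    rw [hzz, div_sub_one hD0.ne', hD]; congr 1; ring
  have hy : ∀ I : Finset (Fin m), 0 ≤ (I.card : ℝ) / m ∧ (I.card : ℝ) / m ≤ 1 := fun I => by
    refine ⟨by positivity, ?_⟩
    rw [div_le_one hm']
    have := Finset.card_le_univ I
    rw [Fintype.card_fin] at this
    exact_mod_cast this
  have hdiv : ∀ u v : ℝ, |u| ≤ v → |u / D| ≤ v / D := fun u v huv => by
    rw [abs_div, abs_of_pos hD0]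
    exact div_le_div_of_nonneg_right huv hD0.le
  have hz : ∀ I : Finset (Fin m), ¬ δ < |(I.card : ℝ) / m - pk (17 / 100) B m I.card| →
      ¬ (17 / 100 + B) / 2 * (m : ℝ) < I.card → |zz m B I| ≤ η := fun I hb hu => by
    rw [pk, if_neg hu, not_lt] at hb
    rw [hzz, hη]
    exact hdiv _ _ hb
  have hz' : ∀ I : Finset (Fin m), ¬ δ < |(I.card : ℝ) / m - pk (17 / 100) B m I.card| →
      (17 / 100 + B) / 2 * (m : ℝ) < I.card → |zz m B I - 1| ≤ η := fun I hb hu => by
    rw [pk, if_pos hu, not_lt] at hb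
    rw [hzz', hη]
    exact hdiv _ _ hb
  have hZ : ∀ I : Finset (Fin m), |zz m B I| ≤ 1 / D := fun I => by
    rw [hzz]
    refine hdiv _ _ (abs_le.2 ⟨?_, ?_⟩) <;> linarith [(hy I).1, (hy I).2]
  have hZ' : ∀ I : Finset (Fin m), |zz m B I - 1| ≤ 1 / D := fun I => by
    rw [hzz']
    refine hdiv _ _ (abs_le.2 ⟨?_, ?_⟩) <;> linarith [(hy I).1, (hy I).2]
  have hom : ∀ x I, om m B T (h0 + h) x I
      = Real.exp (x * (B / D)) * (V I.card * Real.exp (x * zz m B I)) := fun x I => by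
    rw [om, hV, hzz, ← hD, ← Real.exp_add, ← Real.exp_add]
    congr 1
    ring
  have hom' : ∀ I, om m B T (h0 + h) L I
      = Real.exp (L * (17 / 100 / D)) * (V I.card * Real.exp (-L * (1 - zz m B I))) := fun I => by
    rw [← neg_sub (zz m B I) 1, om, hV, hzz', ← hD, ← Real.exp_add, ← Real.exp_add]
    congr 1
    ring
  have hfin : ∀ (K c c' : ℝ) (f g φ : Finset (Fin m) → ℝ), 0 < K → (∀ I, f I = K * g I) →
      (∀ I, 0 ≤ g I) → c ≤ c' → ∑ I, g I * φ I ≤ c * ∑ I, g I →
      ∑ I, f I * φ I ≤ c' * ∑ I, f I := by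
    intro K c c' f g φ hK hfg hg hcc hle
    have h1 : ∑ I, f I * φ I = K * ∑ I, g I * φ I := by
      rw [Finset.mul_sum]
      exact Finset.sum_congr rfl fun I _ => by rw [hfg, mul_assoc]
    have h2 : ∑ I, f I = K * ∑ I, g I := by
      rw [Finset.mul_sum]
      exact Finset.sum_congr rfl fun I _ => hfg I
    have h3 := mul_le_mul_of_nonneg_right hcc (Finset.sum_nonneg fun I (_ : I ∈ univ) => hg I)
    have h4 := mul_le_mul_of_nonneg_left (hle.trans h3) hK.le
    rw [h1, h2]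
    linarith
  have hg0 : ∀ (y : Finset (Fin m) → ℝ) (I : Finset (Fin m)), 0 ≤ V I.card * Real.exp (y I) :=
    fun y I => mul_nonneg (hV0 I) (Real.exp_pos _).le
  have hlow : ∀ x ∈ Set.Icc (-L) L, ∑ I : Finset (Fin m), V I.card
      ≤ 12 * ∑ I : Finset (Fin m), V I.card * Real.exp (x * zz m B I) := fun x hx =>
    lev_lower (fun I : Finset (Fin m) => V I.card) (zz m B) _ _ hV0 hU hBd (by linarith) hz
      (abs_le.2 hx) (by linarith)
  refine ⟨L, hL0, m, hm0, h0 + h, ?_, ?_, fun x hx => ?_, fun x hx i => ?_⟩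
  · have h1 := lev_end (fun I : Finset (Fin m) => V I.card) (zz m B) _ _ hV0 hU hBd hδ0.le
      (by linarith) hz hz' hZ hL0 hη0 (by linarith)
    refine hfin _ _ _ _ _ _ (Real.exp_pos _) (hom (-L)) (hg0 _) ?_ h1
    rw [← hE]; linarith
  · have h1 := lev_end (η := η) (Z := 1 / D) (fun I : Finset (Fin m) => V I.card)
      (fun I => 1 - zz m B I) _ _ hV0 hU' hBd hδ0.le (by linarith)
      (fun I hb hu => by rw [abs_sub_comm]; exact hz' I hb (not_not.1 hu))
      (fun I hb hu => by rw [sub_sub_cancel_left, abs_neg]; exact hz I hb hu)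
      (fun I => by rw [abs_sub_comm]; exact hZ' I) hL0 hη0 (by linarith)
    simp only [abs_sub_comm (1 : ℝ)] at h1
    refine hfin _ _ _ _ _ _ (Real.exp_pos _) hom' (hg0 _) ?_ h1
    rw [← hE]; linarith
  · have h1 := lev_upper (c := 7 * η) (C := 2) (e := 0) (fun I : Finset (Fin m) => V I.card)
      (zz m B) (fun I => min (7 * |zz m B I|) (min 2 (7 * |zz m B I - 1|))) _ hV0 hBd hδ0.le
      (abs_le.2 hx) hZ (by positivity) (by norm_num) le_rfl
      (fun I => (min_le_right _ _).trans (min_le_left _ _))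
      (fun I hb => Or.inl (by
        by_cases hu : (17 / 100 + B) / 2 * (m : ℝ) < I.card
        · have := hz' I hb hu
          exact ((min_le_right _ _).trans (min_le_right _ _)).trans (by linarith)
        · have := hz I hb hu
          exact (min_le_left _ _).trans (by linarith))) (hlow x hx)
    refine hfin _ _ _ _ _ _ (Real.exp_pos _) (hom x) (hg0 _) ?_ h1
    rw [← hE]; linarith
  · have h1 := lev_upper (c := 17 / 100 + δ) (C := 1) (e := 0)
      (fun I : Finset (Fin m) => V I.card)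
      (zz m B) (fun I => (I.card : ℝ) / m) _ hV0 hBd hδ0.le
      (abs_le.2 hx) hZ (by positivity) (by norm_num) le_rfl (fun I => (hy I).2)
      (fun I hb => Or.inl (by
        have h2 := (abs_le.1 (not_lt.1 hb)).2
        have h3 : pk (17 / 100) B m I.card ≤ 17 / 100 := by
          unfold pk
          split_ifs
          · exact le_rfl
          · exact hBA.le
        linarith)) (hlow x hx)
    have h2 := hfin _ _ (172 / 1000) _ _ _ (Real.exp_pos _) (hom x) (hg0 _)
      (by rw [← hE]; linarith) h1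
    have h3 := lev_marg m (fun k => Real.exp (T * m * Real.exp (-(24 / 5 * ((k : ℝ) / m)))
      + (h0 + h) * k + x * (((k : ℝ) / m) / (17 / 100 - B)))) i
    change (m : ℝ) * ∑ I : Finset (Fin m), (if i ∈ I then om m B T (h0 + h) x I else 0)
      = ∑ I : Finset (Fin m), om m B T (h0 + h) x I * I.card at h3
    have h4 : ∑ I : Finset (Fin m), om m B T (h0 + h) x I * I.card
        = m * ∑ I : Finset (Fin m), om m B T (h0 + h) x I * ((I.card : ℝ) / m) := by
      rw [Finset.mul_sum]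
      refine Finset.sum_congr rfl fun I _ => ?_
      field_simp
    rw [h4] at h3
    rw [mul_left_cancel₀ hm'.ne' h3]
    exact h2

end Pool.Agent.P.MP_abed8b_co
end

-- part Pool.Agent.P.MP_abed8b_co.Trans
section

set_option autoImplicit false

namespace Pool.Agent.P.MP_abed8b_co

open Finset

theorem tr_sum_prod (m n : ℕ) (f : Fin m → ℕ → ℝ) :
    ∑ t : Fin m → Fin (n + 1), ∏ i, f i (t i) = ∏ i, ∑ s ∈ range (n + 1), f i s := by
  have h := Finset.prod_univ_sum (fun _ : Fin m => (univ : Finset (Fin (n + 1))))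
    (fun i (s : Fin (n + 1)) => f i s)
  rw [Fintype.piFinset_univ] at h
  rw [← h]
  refine Finset.prod_congr rfl fun i _ => ?_
  exact Fin.sum_univ_eq_sum_range (fun s => f i s) (n + 1)

theorem tr_total (m n : ℕ) (W : ℕ → ℝ) :
    ∑ t : Fin m → Fin (n + 1), ∏ i, W (t i) = (∑ s ∈ range (n + 1), W s) ^ m := by
  rw [tr_sum_prod m n (fun _ s => W s)]
  simp

theorem tr_bad (m n : ℕ) (W : ℕ → ℝ) (hW : ∀ t, 0 < W t) (P : ℕ → Prop) [DecidablePred P]
    (δ : ℝ) (hP : ∑ s ∈ range (n + 1), (if P s then W s else 0) ≤ δ * ∑ s ∈ range (n + 1), W s)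
    (j : Fin m) :
    ∑ t : Fin m → Fin (n + 1), (∏ i, W (t i)) * (if P (t j) then (1 : ℝ) else 0)
      ≤ δ * (∑ s ∈ range (n + 1), W s) ^ m := by
  set S := ∑ s ∈ range (n + 1), W s with hS
  have hS0 : 0 ≤ S := Finset.sum_nonneg fun s _ => (hW s).le
  have h1 : ∀ t : Fin m → Fin (n + 1), (∏ i, W (t i)) * (if P (t j) then (1 : ℝ) else 0)
      = ∏ i, (if i = j then (if P (t i) then W (t i) else 0) else W (t i)) := by
    intro t
    rw [← Finset.mul_prod_erase univ (fun i => W (t i)) (mem_univ j),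
      ← Finset.mul_prod_erase univ
        (fun i => if i = j then (if P (t i) then W (t i) else 0) else W (t i)) (mem_univ j)]
    have h2 : ∏ i ∈ univ.erase j, (if i = j then (if P (t i) then W (t i) else 0) else W (t i))
        = ∏ i ∈ univ.erase j, W (t i) := by
      refine Finset.prod_congr rfl fun i hi => ?_
      rw [if_neg (Finset.ne_of_mem_erase hi)]
    rw [h2, if_pos rfl]
    split_ifs <;> ring
  simp_rw [h1]
  rw [tr_sum_prod m n (fun i s => if i = j then (if P s then W s else 0) else W s)]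
  rw [← Finset.mul_prod_erase univ _ (mem_univ j)]
  have h3 : ∏ i ∈ univ.erase j,
      (∑ s ∈ range (n + 1), if i = j then (if P s then W s else 0) else W s)
        = ∏ _i ∈ univ.erase j, S := by
    refine Finset.prod_congr rfl fun i hi => ?_
    simp only [if_neg (Finset.ne_of_mem_erase hi)]
    rfl
  rw [h3]
  have h4 : S ^ m = S * ∏ _i ∈ (univ : Finset (Fin m)).erase j, S := by
    rw [Finset.mul_prod_erase univ (fun _ : Fin m => S) (mem_univ j)]
    simp
  rw [h4, ← mul_assoc]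
  refine mul_le_mul_of_nonneg_right ?_ (Finset.prod_nonneg fun _ _ => hS0)
  simpa using hP

theorem tr_push (m n : ℕ) (W : ℕ → ℝ) (P : ℕ → Prop) [DecidablePred P]
    (hP : ∑ s ∈ range (n + 1), (if P s then W s else 0) = (∑ s ∈ range (n + 1), W s) / 2)
    (F : Finset (Fin m) → ℝ) :
    ∑ t : Fin m → Fin (n + 1), (∏ i, W (t i)) * F (univ.filter fun i => P (t i))
      = (∑ s ∈ range (n + 1), W s) ^ m * ((∑ I, F I) / 2 ^ m) := by
  set S := ∑ s ∈ range (n + 1), W s with hS
  have hN : ∑ s ∈ range (n + 1), (if P s then 0 else W s) = S / 2 := by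
    have : ∑ s ∈ range (n + 1), (if P s then W s else 0)
        + ∑ s ∈ range (n + 1), (if P s then 0 else W s) = S := by
      rw [← Finset.sum_add_distrib]
      refine Finset.sum_congr rfl fun s _ => ?_
      split_ifs <;> simp
    linarith
  have h1 : ∀ t : Fin m → Fin (n + 1), (∏ i, W (t i)) * F (univ.filter fun i => P (t i))
      = ∑ I : Finset (Fin m), F I *
        ∏ i, (if i ∈ I then (if P (t i) then W (t i) else 0)
          else (if P (t i) then 0 else W (t i))) := by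
    intro t
    rw [Finset.sum_eq_single (univ.filter fun i => P (t i))]
    · rw [mul_comm]
      congr 1
      refine Finset.prod_congr rfl fun i _ => ?_
      by_cases h : P (t i) <;> simp [h]
    · intro I _ hI
      have : ∃ i, ¬ (i ∈ I ↔ P (t i)) := by
        by_contra hc
        push Not at hc
        apply hI
        ext i
        simp [hc i]
      obtain ⟨i, hi⟩ := this
      rw [Finset.prod_eq_zero (mem_univ i), mul_zero]
      by_cases h : P (t i) <;> by_cases h' : i ∈ I <;> simp_all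
    · intro h
      exact absurd (mem_univ _) h
  simp_rw [h1]
  rw [Finset.sum_comm]
  have h2 : ∀ I : Finset (Fin m), ∑ t : Fin m → Fin (n + 1), F I *
        ∏ i, (if i ∈ I then (if P (t i) then W (t i) else 0)
          else (if P (t i) then 0 else W (t i))) = F I * (S / 2) ^ m := by
    intro I
    rw [← Finset.mul_sum, tr_sum_prod m n (fun i s => if i ∈ I then (if P s then W s else 0)
      else (if P s then 0 else W s))]
    congr 1
    have : ∀ i : Fin m, ∑ s ∈ range (n + 1), (if i ∈ I then (if P s then W s else 0)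
      else (if P s then 0 else W s)) = S / 2 := by
      intro i
      by_cases h : i ∈ I
      · simp only [if_pos h]; exact hP
      · simp only [if_neg h]; exact hN
    simp_rw [this]
    simp [div_pow]
  simp_rw [h2]
  rw [← Finset.sum_mul, div_pow]
  ring

/-- Products of two-peaked weights are close to the uniform measure on `{a, b} ^ m`, uniformly
for a continuous family of test functions. -/
theorem transfer (m : ℕ) (a b L : ℝ) (hb : 0 ≤ b) (hab : b < a) (ha : a ≤ 1)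
    (Ξ : ℝ × (Fin m → ℝ) → ℝ) (hΞ : Continuous Ξ) (ε : ℝ) (hε : 0 < ε) :
    ∃ δ > (0 : ℝ), ∀ δ' ≤ δ, ∀ n : ℕ, 0 < n → ∀ W : ℕ → ℝ, (∀ t, 0 < W t) → TwoPeak a b δ' n W →
      ∀ x ∈ Set.Icc (-L) L,
        ∑ t : Fin m → Fin (n + 1), (∏ i, W (t i)) * Ξ (x, fun i => ((t i : ℕ) : ℝ) / n)
          ≤ (∑ t ∈ range (n + 1), W t) ^ m *
            ((∑ I : Finset (Fin m), Ξ (x, fun i => if i ∈ I then a else b)) / 2 ^ m + ε) := by
  set K : Set (ℝ × (Fin m → ℝ)) := Set.Icc (-L) L ×ˢ Set.Icc 0 1 with hK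
  have hKc : IsCompact K := isCompact_Icc.prod isCompact_Icc
  obtain ⟨C, hC⟩ := hKc.exists_bound_of_continuousOn hΞ.continuousOn
  have huc := hKc.uniformContinuousOn_of_continuous hΞ.continuousOn
  rw [Metric.uniformContinuousOn_iff] at huc
  obtain ⟨η, hη, hu⟩ := huc (ε / 2) (by linarith)
  set D : ℝ := 2 * |C| + 1 with hD
  have hD0 : 0 < D := by positivity
  have hm1 : (0 : ℝ) < m + 1 := by positivity
  set δ : ℝ := min (η / 2) (ε / (2 * D * (m + 1))) with hδ
  have hδ0 : 0 < δ := lt_min (by linarith) (by positivity)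
  have hδ1 : δ < η := lt_of_le_of_lt (min_le_left _ _) (by linarith)
  have hδ2 : D * (m * δ) ≤ ε / 2 := by
    have h1 : δ ≤ ε / (2 * D * (m + 1)) := min_le_right _ _
    rw [le_div_iff₀ (by positivity)] at h1
    nlinarith [mul_pos hD0 hδ0]
  refine ⟨δ, hδ0, fun δ' hδ' n hn W hW hT x hx => ?_⟩
  set S := ∑ s ∈ range (n + 1), W s with hS
  have hS0 : 0 ≤ S := Finset.sum_nonneg fun s _ => (hW s).le
  have hn0 : (0 : ℝ) < n := by exact_mod_cast hn
  have hbad : ∑ s ∈ range (n + 1), (if δ < |(s : ℝ) / n - pk a b n s| then W s else 0)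
      ≤ δ * S := by
    refine le_trans (Finset.sum_le_sum fun s _ => ?_)
      (hT.2.trans (mul_le_mul_of_nonneg_right hδ' hS0))
    by_cases h : δ < |(s : ℝ) / n - pk a b n s|
    · rw [if_pos h, if_pos (lt_of_le_of_lt hδ' h)]
    · rw [if_neg h]
      split_ifs
      · exact (hW s).le
      · exact le_rfl
  have hpt : ∀ t : Fin m → Fin (n + 1),
      Ξ (x, fun i => ((t i : ℕ) : ℝ) / n) ≤
        Ξ (x, fun i => if i ∈ univ.filter (fun i => (a + b) / 2 * n < ((t i : ℕ) : ℝ)) then a else b)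
          + ε / 2 + D * ∑ j, (if δ < |((t j : ℕ) : ℝ) / n - pk a b n (t j)| then (1 : ℝ) else 0) := by
    intro t
    have hq : (fun i => if i ∈ univ.filter (fun i => (a + b) / 2 * n < ((t i : ℕ) : ℝ)) then a else b)
        = fun i => pk a b n (t i) := by
      funext i
      simp [pk]
    rw [hq]
    have hp1 : (x, fun i => ((t i : ℕ) : ℝ) / n) ∈ K := by
      refine ⟨hx, fun i => ?_, fun i => ?_⟩
      · show (0 : ℝ) ≤ ((t i : ℕ) : ℝ) / n
        positivity
      · show ((t i : ℕ) : ℝ) / n ≤ 1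
        rw [div_le_one hn0]
        exact_mod_cast Nat.lt_succ_iff.mp (t i).2
    have hp2 : (x, fun i => pk a b n (t i)) ∈ K := by
      refine ⟨hx, fun i => ?_, fun i => ?_⟩
      · show (0 : ℝ) ≤ pk a b n (t i)
        unfold pk
        split_ifs <;> linarith
      · show pk a b n (t i) ≤ 1
        unfold pk
        split_ifs <;> linarith
    have hsum0 : ∀ j ∈ (univ : Finset (Fin m)),
        (0 : ℝ) ≤ (if δ < |((t j : ℕ) : ℝ) / n - pk a b n (t j)| then (1 : ℝ) else 0) := by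
      intro j _
      split_ifs <;> norm_num
    by_cases hg : ∃ j, δ < |((t j : ℕ) : ℝ) / n - pk a b n (t j)|
    · obtain ⟨j, hj⟩ := hg
      have h1 := Finset.single_le_sum hsum0 (mem_univ j)
      rw [if_pos hj] at h1
      have h2 := hC _ hp1
      have h3 := hC _ hp2
      rw [Real.norm_eq_abs, abs_le] at h2 h3
      have h4 := le_abs_self C
      have h5 := mul_le_mul_of_nonneg_left h1 hD0.le
      linarith [h2.2, h3.1]
    · push Not at hg
      have h1 : dist (x, fun i => ((t i : ℕ) : ℝ) / n) (x, fun i => pk a b n (t i)) < η := by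
        rw [Prod.dist_eq, dist_self]
        refine max_lt hη ?_
        rw [dist_pi_lt_iff hη]
        intro i
        rw [Real.dist_eq]
        exact lt_of_le_of_lt (hg i) hδ1
      have h2 := hu _ hp1 _ hp2 h1
      rw [Real.dist_eq, abs_lt] at h2
      have h3 := mul_nonneg hD0.le (Finset.sum_nonneg hsum0)
      linarith [h2.2]
  have hprod : ∀ t : Fin m → Fin (n + 1), 0 ≤ ∏ i, W (t i) :=
    fun t => Finset.prod_nonneg fun i _ => (hW _).le
  refine le_trans (Finset.sum_le_sum fun t _ => mul_le_mul_of_nonneg_left (hpt t) (hprod t)) ?_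
  simp_rw [mul_add]
  rw [Finset.sum_add_distrib, Finset.sum_add_distrib]
  have e1 := tr_push m n W (fun s => (a + b) / 2 * n < (s : ℝ)) hT.1
    (fun I => Ξ (x, fun i => if i ∈ I then a else b))
  have e2 : ∑ t : Fin m → Fin (n + 1), (∏ i, W (t i)) * (ε / 2) = S ^ m * (ε / 2) := by
    rw [← Finset.sum_mul, tr_total]
  have e3 : ∑ t : Fin m → Fin (n + 1), (∏ i, W (t i)) *
      (D * ∑ j, (if δ < |((t j : ℕ) : ℝ) / n - pk a b n (t j)| then (1 : ℝ) else 0))
        ≤ S ^ m * (ε / 2) := by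
    have : ∀ t : Fin m → Fin (n + 1), (∏ i, W (t i)) *
      (D * ∑ j, (if δ < |((t j : ℕ) : ℝ) / n - pk a b n (t j)| then (1 : ℝ) else 0))
        = D * ∑ j, (∏ i, W (t i)) *
          (if δ < |((t j : ℕ) : ℝ) / n - pk a b n (t j)| then (1 : ℝ) else 0) := by
      intro t
      rw [← Finset.mul_sum]
      ring
    simp_rw [this]
    rw [← Finset.mul_sum, Finset.sum_comm]
    have h1 : ∑ j : Fin m, ∑ t : Fin m → Fin (n + 1), (∏ i, W (t i)) *
          (if δ < |((t j : ℕ) : ℝ) / n - pk a b n (t j)| then (1 : ℝ) else 0)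
        ≤ ∑ _j : Fin m, δ * S ^ m :=
      Finset.sum_le_sum fun j _ =>
        tr_bad m n W hW (fun s => δ < |(s : ℝ) / n - pk a b n s|) δ hbad j
    rw [Finset.sum_const, Finset.card_univ, Fintype.card_fin, nsmul_eq_mul] at h1
    have h2 := mul_le_mul_of_nonneg_left h1 hD0.le
    have h3 := mul_le_mul_of_nonneg_right hδ2 (pow_nonneg hS0 m)
    nlinarith
  rw [e1, e2]
  linarith

end Pool.Agent.P.MP_abed8b_co
end

-- part Pool.Agent.P.MP_abed8b_co.Box
section

set_option autoImplicit false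

namespace Pool.Agent.P.MP_abed8b_co

open Finset

section Cone
variable {V : Type} [Fintype V] [DecidableEq V]

theorem Allowed.mono {e e' : ℕ} {a : Finset V → ℝ} (ha : Allowed e a) (h : e ≤ e') :
    Allowed e' a := by
  obtain ⟨β, h0, h1, h2⟩ := ha
  exact ⟨β, h0, fun N hN => (h1 N hN).trans h, h2⟩

theorem Allowed.const (e : ℕ) {r : ℝ} (hr : 0 ≤ r) : Allowed e (fun _ : Finset V => r) := by
  refine ⟨fun N => if N = ∅ then r else 0, fun N => ?_, fun N hN => ?_, fun T => ?_⟩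
  · dsimp only
    split_ifs
    · exact hr
    · exact le_rfl
  · by_cases h : N = ∅
    · simp [h]
    · simp [h] at hN
  · rw [sum_eq_single ∅]
    · simp
    · intro N _ hN
      simp [hN]
    · simp

theorem Allowed.add {e : ℕ} {a b : Finset V → ℝ} (ha : Allowed e a) (hb : Allowed e b) :
    Allowed e (fun T => a T + b T) := by
  obtain ⟨β, h0, h1, h2⟩ := ha
  obtain ⟨γ, k0, k1, k2⟩ := hb
  refine ⟨fun N => β N + γ N, fun N => add_nonneg (h0 N) (k0 N), fun N hN => ?_, fun T => ?_⟩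
  · by_cases h : β N = 0
    · exact k1 N fun h' => hN (by simp [h, h'])
    · exact h1 N h
  · simp only
    rw [h2, k2, ← sum_add_distrib]
    refine sum_congr rfl fun N _ => ?_
    split_ifs <;> simp

theorem Allowed.mul {e e' : ℕ} {a b : Finset V → ℝ} (ha : Allowed e a) (hb : Allowed e' b) :
    Allowed (e + e') (fun T => a T * b T) := by
  obtain ⟨β, h0, h1, h2⟩ := ha
  obtain ⟨γ, k0, k1, k2⟩ := hb
  refine ⟨fun N => ∑ A, ∑ B, if A ∪ B = N then β A * γ B else 0, fun N => ?_, fun N hN => ?_,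
    fun T => ?_⟩
  · refine sum_nonneg fun A _ => sum_nonneg fun B _ => ?_
    split_ifs
    · exact mul_nonneg (h0 A) (k0 B)
    · exact le_rfl
  · obtain ⟨A, _, hA⟩ := exists_ne_zero_of_sum_ne_zero hN
    obtain ⟨B, _, hB⟩ := exists_ne_zero_of_sum_ne_zero hA
    by_cases h : A ∪ B = N
    · rw [if_pos h] at hB
      rw [← h]
      exact (card_union_le A B).trans
        (Nat.add_le_add (h1 A (left_ne_zero_of_mul hB)) (k1 B (right_ne_zero_of_mul hB)))
    · exact absurd (if_neg h) hB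
  · simp only
    have e1 : ∀ N : Finset V,
        (if Disjoint N T then ∑ A, ∑ B, if A ∪ B = N then β A * γ B else 0 else 0) =
          ∑ A, ∑ B, if A ∪ B = N then (if Disjoint N T then β A * γ B else 0) else 0 := by
      intro N
      split_ifs <;> simp
    rw [h2, k2, sum_mul_sum, sum_congr rfl fun N _ => e1 N]
    conv_rhs => rw [sum_comm]
    refine sum_congr rfl fun A _ => ?_
    conv_rhs => rw [sum_comm]
    refine sum_congr rfl fun B _ => ?_
    rw [sum_ite_eq, if_pos (mem_univ _)]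
    by_cases hA : Disjoint A T <;> by_cases hB : Disjoint B T <;>
      simp [disjoint_union_left, hA, hB]

theorem Allowed.point (v : V) : Allowed 1 (fun T : Finset V => if v ∈ T then 0 else 1) := by
  refine ⟨fun N => if N = {v} then 1 else 0, fun N => ?_, fun N hN => ?_, fun T => ?_⟩
  · dsimp only
    split_ifs <;> norm_num
  · by_cases h : N = {v}
    · simp [h]
    · simp [h] at hN
  · rw [sum_eq_single {v}]
    · by_cases h : v ∈ T <;> simp [h]
    · intro N _ hN
      simp [hN]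
    · simp

theorem boxa_congr {e : ℕ} {a b : Finset V → ℝ} (ha : Allowed e a) (h : ∀ T, b T = a T) :
    Allowed e b := by
  rw [show b = a from funext h]
  exact ha

theorem boxa_smul {e : ℕ} {a : Finset V → ℝ} (ha : Allowed e a) {r : ℝ} (hr : 0 ≤ r) :
    Allowed e (fun T => r * a T) := by
  have := (Allowed.const (V := V) 0 hr).mul ha
  rwa [zero_add] at this

theorem boxa_sum {ι : Type} {e : ℕ} (s : Finset ι) (a : ι → Finset V → ℝ)
    (ha : ∀ i ∈ s, Allowed e (a i)) : Allowed e (fun T => ∑ i ∈ s, a i T) := by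
  classical
  induction s using Finset.induction_on with
  | empty => exact boxa_congr (Allowed.const e le_rfl) fun T => by simp
  | insert i s hi ih =>
    exact boxa_congr ((ha i (mem_insert_self i s)).add
      (ih fun j hj => ha j (mem_insert_of_mem hj))) fun T => by rw [sum_insert hi]

theorem boxa_prod {ι : Type} {e : ℕ} (s : Finset ι) (a : ι → Finset V → ℝ)
    (ha : ∀ i ∈ s, Allowed e (a i)) : Allowed (s.card * e) (fun T => ∏ i ∈ s, a i T) := by
  classical
  induction s using Finset.induction_on with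
  | empty => exact boxa_congr (Allowed.const _ zero_le_one) fun T => by simp
  | insert i s hi ih =>
    have h1 := (ha i (mem_insert_self i s)).mul (ih fun j hj => ha j (mem_insert_of_mem hj))
    rw [card_insert_of_notMem hi, add_mul, one_mul, add_comm]
    exact boxa_congr h1 fun T => by rw [prod_insert hi]

theorem boxa_pow {a : Finset V → ℝ} (ha : Allowed 1 a) (k : ℕ) :
    Allowed k (fun T => a T ^ k) := by
  have := boxa_prod (range k) (fun _ => a) fun _ _ => ha
  rw [card_range, mul_one] at this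
  exact boxa_congr this fun T => by simp

end Cone

theorem boxa_lin (m n : ℕ) (hn : 0 < n) {p : ℝ} (hp0 : 0 ≤ p) (hp1 : p ≤ 1) (i : Fin m) :
    Allowed 1 (fun T : Finset (Fin m × Fin n) =>
      1 - p * (((T.filter fun v => v.1 = i).card : ℝ) / (n : ℝ))) := by
  have hn' : (0 : ℝ) < n := by exact_mod_cast hn
  have h1 := boxa_sum (univ : Finset (Fin n))
    (fun j (T : Finset (Fin m × Fin n)) => if (i, j) ∈ T then (0 : ℝ) else 1)
    fun j _ => Allowed.point (i, j)
  refine boxa_congr ((Allowed.const 1 (sub_nonneg.2 hp1)).add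
    (boxa_smul h1 (div_nonneg hp0 hn'.le))) fun T => ?_
  have e1 : (T.filter fun v => v.1 = i).card = (univ.filter fun j : Fin n => (i, j) ∈ T).card := by
    refine card_bij (fun v _ => v.2) ?_ ?_ ?_
    · rintro ⟨a, b⟩ hv
      obtain ⟨h2, h3⟩ := mem_filter.1 hv
      simp only at h3
      subst h3
      simpa using h2
    · rintro ⟨a, b⟩ hv ⟨a', b'⟩ hv' h
      have h3 := (mem_filter.1 hv).2
      have h4 := (mem_filter.1 hv').2
      simp only at h3 h4 h
      rw [h3, h4, h]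
    · intro j hj
      exact ⟨(i, j), mem_filter.2 ⟨(mem_filter.1 hj).2, rfl⟩, rfl⟩
  have e2 : ∑ j : Fin n, (if (i, j) ∈ T then (0 : ℝ) else 1) =
      n - ((univ.filter fun j : Fin n => (i, j) ∈ T).card : ℝ) := by
    rw [card_filter]
    push_cast
    rw [eq_sub_iff_add_eq, ← sum_add_distrib]
    rw [sum_congr rfl (g := fun _ => (1 : ℝ)) fun j _ => by split_ifs <;> simp]
    simp
  rw [e1, e2]
  field_simp
  ring

theorem boxa_allowed (m n d u : ℕ) (hn : 0 < n) (hd : m * u ≤ d) (τ τ' p : ℝ)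
    (hτ : 0 ≤ τ) (hτ' : 0 ≤ τ') (hp0 : 0 ≤ p) (hp1 : p ≤ 1) :
    Allowed d (fun T : Finset (Fin m × Fin n) =>
      τ * ∑ i, (1 - ((T.filter fun v => v.1 = i).card : ℝ) / (n : ℝ)) ^ d +
        τ' * ∏ i, (1 - p * (((T.filter fun v => v.1 = i).card : ℝ) / (n : ℝ))) ^ u) := by
  refine Allowed.add (boxa_smul (boxa_sum univ _ fun i _ => boxa_pow ?_ d) hτ) (boxa_smul ?_ hτ')
  · exact boxa_congr (boxa_lin m n hn zero_le_one le_rfl i) fun T => by rw [one_mul]
  · have h1 := boxa_prod (univ : Finset (Fin m)) _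
      fun i _ => boxa_pow (boxa_lin m n hn hp0 hp1 i) u
    rw [card_univ, Fintype.card_fin] at h1
    exact h1.mono hd

theorem boxa_supermod {m : ℕ} {L : Type} [LinearOrder L] (f : L → ℝ) (h0 : ∀ x, 0 ≤ f x)
    (hf : Antitone f) (s t : Fin m → L) :
    ∏ i, f (s i) + ∏ i, f (t i) ≤ ∏ i, f ((s ⊓ t) i) + ∏ i, f ((s ⊔ t) i) := by
  have e : ∀ g : Fin m → ℝ, ∏ i, g i = (∏ i ∈ univ.filter (fun i => s i ≤ t i), g i) *
      ∏ i ∈ univ.filter (fun i => ¬s i ≤ t i), g i :=
    fun g => (prod_filter_mul_prod_filter_not _ _ _).symm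
  have e1 : ∏ i ∈ univ.filter (fun i => s i ≤ t i), f ((s ⊓ t) i) =
      ∏ i ∈ univ.filter (fun i => s i ≤ t i), f (s i) :=
    prod_congr rfl fun i hi => by rw [Pi.inf_apply, inf_of_le_left (mem_filter.1 hi).2]
  have e2 : ∏ i ∈ univ.filter (fun i => ¬s i ≤ t i), f ((s ⊓ t) i) =
      ∏ i ∈ univ.filter (fun i => ¬s i ≤ t i), f (t i) :=
    prod_congr rfl fun i hi => by
      rw [Pi.inf_apply, inf_of_le_right (not_le.1 (mem_filter.1 hi).2).le]
  have e3 : ∏ i ∈ univ.filter (fun i => s i ≤ t i), f ((s ⊔ t) i) =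
      ∏ i ∈ univ.filter (fun i => s i ≤ t i), f (t i) :=
    prod_congr rfl fun i hi => by rw [Pi.sup_apply, sup_of_le_right (mem_filter.1 hi).2]
  have e4 : ∏ i ∈ univ.filter (fun i => ¬s i ≤ t i), f ((s ⊔ t) i) =
      ∏ i ∈ univ.filter (fun i => ¬s i ≤ t i), f (s i) :=
    prod_congr rfl fun i hi => by
      rw [Pi.sup_apply, sup_of_le_left (not_le.1 (mem_filter.1 hi).2).le]
  have h1 : ∏ i ∈ univ.filter (fun i => s i ≤ t i), f (t i) ≤
      ∏ i ∈ univ.filter (fun i => s i ≤ t i), f (s i) :=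
    prod_le_prod (fun i _ => h0 _) fun i hi => hf (mem_filter.1 hi).2
  have h2 : ∏ i ∈ univ.filter (fun i => ¬s i ≤ t i), f (s i) ≤
      ∏ i ∈ univ.filter (fun i => ¬s i ≤ t i), f (t i) :=
    prod_le_prod (fun i _ => h0 _) fun i hi => hf (not_le.1 (mem_filter.1 hi).2).le
  rw [e fun i => f (s i), e fun i => f (t i), e fun i => f ((s ⊓ t) i), e fun i => f ((s ⊔ t) i),
    e1, e2, e3, e4]
  nlinarith [mul_nonneg (sub_nonneg.2 h1) (sub_nonneg.2 h2)]

theorem boxa_mod {m : ℕ} {L : Type} [LinearOrder L] (g : L → ℝ) (s t : Fin m → L) :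
    (∏ i, g (s i)) * ∏ i, g (t i) = (∏ i, g ((s ⊓ t) i)) * ∏ i, g ((s ⊔ t) i) := by
  rw [← prod_mul_distrib, ← prod_mul_distrib]
  refine prod_congr rfl fun i _ => ?_
  rw [Pi.inf_apply, Pi.sup_apply]
  rcases le_total (s i) (t i) with h | h
  · rw [inf_of_le_left h, sup_of_le_right h]
  · rw [inf_of_le_right h, sup_of_le_left h, mul_comm]

/-- Weight of a colour class with `t i` vertices in cluster `i`: `m` clusters of `n` vertices,
hyperedges of size `d` inside each cluster (total weight `τ`), hyperedges with `u` slots in every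
cluster, each slot used with probability `p` (total weight `τ'`), fugacity `exp r`. -/
noncomputable def phi (m n d u : ℕ) (τ τ' p r : ℝ) (t : Fin m → Fin (n + 1)) : ℝ :=
  Real.exp (τ' * ∏ i, (1 - p * ((t i : ℕ) / (n : ℝ))) ^ u) *
    ∏ i, (Real.exp (τ * (1 - ((t i : ℕ) / (n : ℝ))) ^ d + r * (t i : ℕ)) /
      ((t i : ℕ).factorial : ℝ))

/-- The Euler identity on the box. -/
def EulerId {m n : ℕ} (q : ℝ) (c φ : (Fin m → Fin (n + 1)) → ℝ) : Prop :=
  ∀ (f : (Fin m → ℕ) → ℂ) (l : Fin m → ℝ),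
    ∑ s : Fin m → Fin (n + 1), ∑ t : Fin m → Fin (n + 1),
      (if ∀ i, (s i : ℕ) + (t i : ℕ) ≤ n then
        ((c s * φ t * (∑ i, l i * (s i : ℕ) - q * ∑ i, l i * (t i : ℕ)) : ℝ) : ℂ) *
          f (fun i => (s i : ℕ) + (t i : ℕ)) else 0) = 0

theorem phi_pos (m n d u : ℕ) (τ τ' p r : ℝ) (t : Fin m → Fin (n + 1)) :
    0 < phi m n d u τ τ' p r t := by
  unfold phi
  positivity

/-- The weight is log-supermodular. -/
theorem phi_sup (m n d u : ℕ) (hn : 0 < n) (τ τ' p r : ℝ) (hτ' : 0 ≤ τ') (hp0 : 0 ≤ p)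
    (hp1 : p ≤ 1) (s t : Fin m → Fin (n + 1)) :
    phi m n d u τ τ' p r s * phi m n d u τ τ' p r t ≤
      phi m n d u τ τ' p r (s ⊓ t) * phi m n d u τ τ' p r (s ⊔ t) := by
  have hn' : (0 : ℝ) < n := by exact_mod_cast hn
  have hb : ∀ x : Fin (n + 1), 0 ≤ 1 - p * (((x : ℕ) : ℝ) / (n : ℝ)) := by
    intro x
    have h1 : ((x : ℕ) : ℝ) ≤ n := by exact_mod_cast Nat.lt_succ_iff.1 x.2
    have h2 : ((x : ℕ) : ℝ) / n ≤ 1 := (div_le_one hn').2 h1
    have h3 : p * (((x : ℕ) : ℝ) / n) ≤ 1 := mul_le_one₀ hp1 (by positivity) h2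
    linarith
  have h1 := boxa_supermod (fun x : Fin (n + 1) => (1 - p * (((x : ℕ) : ℝ) / (n : ℝ))) ^ u)
    (fun x => pow_nonneg (hb x) u) (fun x y hxy => by
      refine pow_le_pow_left₀ (hb y) ?_ u
      have h1 : ((x : ℕ) : ℝ) ≤ (y : ℕ) := by exact_mod_cast hxy
      have h2 : ((x : ℕ) : ℝ) / n ≤ (y : ℕ) / n := div_le_div_of_nonneg_right h1 hn'.le
      have h3 := mul_le_mul_of_nonneg_left h2 hp0
      linarith) s t
  have h2 := boxa_mod (fun x : Fin (n + 1) =>
    Real.exp (τ * (1 - ((x : ℕ) / (n : ℝ))) ^ d + r * (x : ℕ)) / ((x : ℕ).factorial : ℝ)) s t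
  unfold phi
  rw [mul_mul_mul_comm, h2]
  conv_rhs => rw [mul_mul_mul_comm]
  rw [← Real.exp_add, ← Real.exp_add]
  refine mul_le_mul_of_nonneg_right (Real.exp_le_exp.2 ?_) (by positivity)
  rw [← mul_add, ← mul_add]
  exact mul_le_mul_of_nonneg_left h1 hτ'

/-- The number of vertices of `T` in each cluster. -/
def boxbCnt {m n : ℕ} (T : Finset (Fin m × Fin n)) (i : Fin m) : ℕ :=
  (T.filter fun v => v.1 = i).card

/-- The fibre of `T` over a cluster. -/
def boxbFib {m n : ℕ} (T : Finset (Fin m × Fin n)) (i : Fin m) : Finset (Fin n) :=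
  univ.filter fun j => (i, j) ∈ T

theorem boxb_cnt_eq {m n : ℕ} (T : Finset (Fin m × Fin n)) (i : Fin m) :
    boxbCnt T i = (boxbFib T i).card := by
  unfold boxbCnt boxbFib
  refine card_bij (fun v _ => v.2) ?_ ?_ ?_
  · rintro ⟨a, b⟩ hv
    obtain ⟨h2, h3⟩ := mem_filter.1 hv
    simp only at h3
    subst h3
    simpa using h2
  · rintro ⟨a, b⟩ hv ⟨a', b'⟩ hv' h
    have h3 := (mem_filter.1 hv).2
    have h4 := (mem_filter.1 hv').2
    simp only at h3 h4 h
    rw [h3, h4, h]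
  · intro j hj
    exact ⟨(i, j), mem_filter.2 ⟨(mem_filter.1 hj).2, rfl⟩, rfl⟩

theorem boxb_cnt_le {m n : ℕ} (T : Finset (Fin m × Fin n)) (i : Fin m) : boxbCnt T i ≤ n := by
  rw [boxb_cnt_eq]
  simpa using card_le_univ (boxbFib T i)

/-- The counts as a point of the box. -/
def boxbPt {m n : ℕ} (T : Finset (Fin m × Fin n)) (i : Fin m) : Fin (n + 1) :=
  ⟨boxbCnt T i, Nat.lt_succ_of_le (boxb_cnt_le T i)⟩

theorem boxb_pt_val {m n : ℕ} (T : Finset (Fin m × Fin n)) (i : Fin m) :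
    (boxbPt T i : ℕ) = boxbCnt T i := rfl

theorem boxb_cnt_union {m n : ℕ} {S T : Finset (Fin m × Fin n)} (h : Disjoint S T) (i : Fin m) :
    boxbCnt (S ∪ T) i = boxbCnt S i + boxbCnt T i := by
  unfold boxbCnt
  rw [filter_union, card_union_of_disjoint (disjoint_filter_filter h)]

theorem boxb_sum_l {m n : ℕ} (T : Finset (Fin m × Fin n)) (l : Fin m → ℝ) :
    ∑ v ∈ T, l v.1 = ∑ i, l i * (boxbCnt T i : ℝ) := by
  rw [← sum_fiberwise T (fun v => v.1) (fun v => l v.1)]
  refine sum_congr rfl fun i _ => ?_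
  rw [sum_congr rfl (g := fun _ => l i) fun v hv => by rw [(mem_filter.1 hv).2], sum_const,
    nsmul_eq_mul, mul_comm]
  rfl

theorem boxb_count {m n : ℕ} (S : Finset (Fin m × Fin n)) (t : Fin m → Fin (n + 1)) :
    (univ.filter fun T : Finset (Fin m × Fin n) => boxbPt T = t ∧ Disjoint S T).card =
      ∏ i, (n - boxbCnt S i).choose (t i) := by
  have e : ∏ i, (n - boxbCnt S i).choose (t i) =
      (Fintype.piFinset fun i => powersetCard (t i) (boxbFib S i)ᶜ).card := by
    rw [Fintype.card_piFinset]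
    refine prod_congr rfl fun i _ => ?_
    rw [card_powersetCard, card_compl, Fintype.card_fin, boxb_cnt_eq]
  rw [e]
  refine card_bij' (fun T _ => boxbFib T) (fun g _ => univ.filter fun v => v.2 ∈ g v.1)
    ?_ ?_ ?_ ?_
  · intro T hT
    obtain ⟨h1, h2⟩ := (mem_filter.1 hT).2
    refine Fintype.mem_piFinset.2 fun i => mem_powersetCard.2 ⟨fun j hj => ?_, ?_⟩
    · rw [mem_compl]
      intro hj'
      exact disjoint_left.1 h2 (mem_filter.1 hj').2 (mem_filter.1 hj).2
    · rw [← boxb_cnt_eq, ← h1, boxb_pt_val]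
  · intro g hg
    have hg' := fun i => mem_powersetCard.1 (Fintype.mem_piFinset.1 hg i)
    refine mem_filter.2 ⟨mem_univ _, funext fun i => Fin.ext ?_, disjoint_left.2 ?_⟩
    · rw [boxb_pt_val, boxb_cnt_eq, ← (hg' i).2]
      congr 1
      ext j
      simp [boxbFib]
    · rintro ⟨i, j⟩ h1 h2
      have h3 := (hg' i).1 (mem_filter.1 h2).2
      rw [mem_compl] at h3
      exact h3 (mem_filter.2 ⟨mem_univ _, h1⟩)
  · intro T _
    ext ⟨i, j⟩
    simp [boxbFib]
  · intro g _
    funext i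
    ext j
    simp [boxbFib]

theorem boxb_sum_disj {m n : ℕ} (S : Finset (Fin m × Fin n)) (K : (Fin m → Fin (n + 1)) → ℂ) :
    ∑ T : Finset (Fin m × Fin n), (if Disjoint S T then K (boxbPt T) else 0) =
      ∑ t : Fin m → Fin (n + 1), ((∏ i, (n - boxbCnt S i).choose (t i) : ℕ) : ℂ) * K t := by
  rw [← sum_fiberwise univ (fun T : Finset (Fin m × Fin n) => boxbPt T)]
  refine sum_congr rfl fun t _ => ?_
  rw [← boxb_count, ← filter_filter, ← nsmul_eq_mul, ← sum_const,
    sum_filter (p := fun T => Disjoint S T)]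
  refine sum_congr rfl fun T hT => ?_
  rw [(mem_filter.1 hT).2]

theorem boxb_reindex {V : Type} [Fintype V] [DecidableEq V] (F : Finset V → Finset V → ℂ) :
    ∑ U : Finset V, ∑ T ∈ U.powerset, F (U \ T) T =
      ∑ S : Finset V, ∑ T : Finset V, if Disjoint S T then F S T else 0 := by
  rw [sum_sigma', sum_congr rfl fun S _ => (sum_filter (fun T => Disjoint S T) (F S)).symm,
    sum_sigma']
  refine sum_bij' (fun x _ => ⟨x.1 \ x.2, x.2⟩) (fun x _ => ⟨x.1 ∪ x.2, x.2⟩) ?_ ?_ ?_ ?_ ?_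
  · rintro ⟨U, T⟩ _
    simp [sdiff_disjoint]
  · rintro ⟨S, T⟩ _
    exact mem_sigma.2 ⟨mem_univ _, mem_powerset.2 subset_union_right⟩
  · rintro ⟨U, T⟩ h
    have h1 : T ⊆ U := by simpa using h
    simp [h1]
  · rintro ⟨S, T⟩ h
    have h1 : Disjoint S T := by simpa using h
    simp [union_sdiff_right, sdiff_eq_self_of_disjoint h1]
  · rintro ⟨U, T⟩ _
    rfl

theorem boxb_fact {m n : ℕ} (s t : Fin m → Fin (n + 1)) (h : ∀ i, (s i : ℕ) + (t i : ℕ) ≤ n) :
    ((∏ i, (n - (s i : ℕ)).choose (t i) : ℕ) : ℝ) *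
        ∏ i, ((n - ((s i : ℕ) + (t i : ℕ))).factorial : ℝ) =
      (∏ i, ((n - (s i : ℕ)).factorial : ℝ)) * ∏ i, (((t i : ℕ).factorial : ℝ))⁻¹ := by
  push_cast
  rw [← prod_mul_distrib, ← prod_mul_distrib]
  refine prod_congr rfl fun i _ => ?_
  have h1 : (t i : ℕ) ≤ n - s i := by have := h i; omega
  have h2 := Nat.choose_mul_factorial_mul_factorial h1
  rw [Nat.sub_sub] at h2
  have h3 : (((t i : ℕ).factorial : ℕ) : ℝ) ≠ 0 := by positivity
  rw [← h2]
  push_cast
  field_simp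

theorem exists_c (hC : Conj) (m n d u : ℕ) (hn : 0 < n) (hd : m * u ≤ d) (τ τ' p r q : ℝ)
    (hτ : 0 ≤ τ) (hτ' : 0 ≤ τ') (hp0 : 0 ≤ p) (hp1 : p ≤ 1) (hq : (d : ℝ) < q) (hq1 : 1 ≤ q) :
    ∃ c : (Fin m → Fin (n + 1)) → ℝ, (∀ s, 0 ≤ c s) ∧ 0 < c 0 ∧
      EulerId q c (phi m n d u τ τ' p r) := by
  obtain ⟨Z, hZ0, hZ1, hZ⟩ :=
    exists_Z hC d q hq hq1 _ (boxa_allowed m n d u hn hd τ τ' p hτ hτ' hp0 hp1)
  set A : (Fin m → Fin (n + 1)) → ℝ := fun t =>
    τ * ∑ i, (1 - ((t i : ℕ) : ℝ) / (n : ℝ)) ^ d +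
      τ' * ∏ i, (1 - p * (((t i : ℕ) : ℝ) / (n : ℝ))) ^ u with hA
  have hZ' : ∀ (U : Finset (Fin m × Fin n)) (l : Fin m × Fin n → ℝ), ∑ T ∈ U.powerset,
      Real.exp (A (boxbPt T)) * Z (U \ T) * (∑ v ∈ U \ T, l v - q * ∑ v ∈ T, l v) = 0 := hZ
  have hphi : ∀ t, phi m n d u τ τ' p r t = Real.exp (A t) * Real.exp (r * ∑ i, ((t i : ℕ) : ℝ)) *
      ∏ i, (((t i : ℕ).factorial : ℝ))⁻¹ := by
    intro t
    unfold phi
    simp only [hA, div_eq_mul_inv (Real.exp _)]
    rw [prod_mul_distrib, ← Real.exp_sum, sum_add_distrib, ← mul_sum, ← mul_sum, ← mul_assoc,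
      ← Real.exp_add, ← Real.exp_add]
    congr 2
    ring
  refine ⟨fun s => Real.exp (r * ∑ i, ((s i : ℕ) : ℝ)) * (∏ i, ((n - (s i : ℕ)).factorial : ℝ)) *
    ∑ S ∈ univ.filter (fun S => boxbPt S = s), Z S, fun s => ?_, ?_, fun f l => ?_⟩
  · exact mul_nonneg (by positivity) (sum_nonneg fun S _ => hZ0 S)
  · refine mul_pos (by positivity) (sum_pos' (fun S _ => hZ0 S) ⟨∅, ?_, hZ1⟩)
    refine mem_filter.2 ⟨mem_univ _, funext fun i => Fin.ext ?_⟩
    simp [boxb_pt_val, boxbCnt]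
  · set g : (Fin m → ℕ) → ℂ := fun w =>
      ((Real.exp (r * ∑ i, (w i : ℝ)) * ∏ i, ((n - w i).factorial : ℝ) : ℝ) : ℂ) * f w with hg
    set H : (Fin m → Fin (n + 1)) → (Fin m → Fin (n + 1)) → ℂ := fun s t =>
      ((Real.exp (A t) * (∑ i, l i * (s i : ℕ) - q * ∑ i, l i * (t i : ℕ)) : ℝ) : ℂ) *
        g (fun i => (s i : ℕ) + (t i : ℕ)) with hH
    have h1 : ∑ U : Finset (Fin m × Fin n), ∑ T ∈ U.powerset,
        (Z (U \ T) : ℂ) * H (boxbPt (U \ T)) (boxbPt T) = 0 := by
      refine sum_eq_zero fun U _ => ?_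
      have h2 := congrArg (fun x : ℝ => (x : ℂ) * g (boxbCnt U)) (hZ' U fun v => l v.1)
      simp only [Complex.ofReal_zero, zero_mul] at h2
      rw [← h2, Complex.ofReal_sum, sum_mul]
      refine sum_congr rfl fun T hT => ?_
      have h3 : (fun i => (boxbPt (U \ T) i : ℕ) + (boxbPt T i : ℕ)) = boxbCnt U := by
        funext i
        rw [boxb_pt_val, boxb_pt_val, ← boxb_cnt_union sdiff_disjoint,
          sdiff_union_of_subset (mem_powerset.1 hT)]
      simp only [hH]
      rw [h3, boxb_sum_l, boxb_sum_l]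
      simp only [boxb_pt_val]
      push_cast
      ring
    rw [boxb_reindex (fun S T => (Z S : ℂ) * H (boxbPt S) (boxbPt T)),
      sum_congr rfl fun S _ => boxb_sum_disj S (fun t => (Z S : ℂ) * H (boxbPt S) t),
      ← sum_fiberwise univ (fun S : Finset (Fin m × Fin n) => boxbPt S)] at h1
    refine Eq.trans ?_ h1
    refine sum_congr rfl fun s _ => ?_
    rw [sum_comm]
    refine sum_congr rfl fun t _ => ?_
    have h4 : ∑ S ∈ univ.filter (fun S : Finset (Fin m × Fin n) => boxbPt S = s),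
        ((∏ i, (n - boxbCnt S i).choose (t i) : ℕ) : ℂ) * ((Z S : ℂ) * H (boxbPt S) t) =
        ((∑ S ∈ univ.filter (fun S : Finset (Fin m × Fin n) => boxbPt S = s), Z S : ℝ) : ℂ) *
          (((∏ i, (n - (s i : ℕ)).choose (t i) : ℕ) : ℂ) * H s t) := by
      rw [Complex.ofReal_sum, sum_mul]
      refine sum_congr rfl fun S hS => ?_
      rw [← (mem_filter.1 hS).2]
      simp only [boxb_pt_val]
      ring
    rw [h4]
    split_ifs with hv
    · have h5 := congrArg (fun x : ℝ => (x : ℂ)) (boxb_fact s t hv)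
      simp only [hH, hg, hphi]
      have h6 : Real.exp (r * ∑ i, (((s i : ℕ) + (t i : ℕ) : ℕ) : ℝ)) =
          Real.exp (r * ∑ i, ((s i : ℕ) : ℝ)) * Real.exp (r * ∑ i, ((t i : ℕ) : ℝ)) := by
        rw [← Real.exp_add, ← mul_add, ← sum_add_distrib]
        push_cast
        rfl
      rw [h6]
      simp only [Complex.ofReal_mul, Complex.ofReal_natCast] at h5 ⊢
      linear_combination
        -((∑ S ∈ univ.filter (fun S : Finset (Fin m × Fin n) => boxbPt S = s), Z S : ℝ) : ℂ) *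
          (Real.exp (A t) : ℂ) * ((∑ i, l i * (s i : ℕ) - q * ∑ i, l i * (t i : ℕ) : ℝ) : ℂ) *
          (Real.exp (r * ∑ i, ((s i : ℕ) : ℝ)) : ℂ) * (Real.exp (r * ∑ i, ((t i : ℕ) : ℝ)) : ℂ) *
          f (fun i => (s i : ℕ) + (t i : ℕ)) * h5
    · obtain ⟨i, hi⟩ := not_forall.1 hv
      have h7 : ∏ i, (n - (s i : ℕ)).choose (t i) = 0 :=
        prod_eq_zero (mem_univ i) (Nat.choose_eq_zero_of_lt (by have := (s i).2; omega))
      rw [h7]
      simp

end Pool.Agent.P.MP_abed8b_co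
end

-- part Pool.Agent.P.MP_abed8b_co.Core
section

set_option autoImplicit false

namespace Pool.Agent.P.MP_abed8b_co

open Finset

/-- Total size. -/
noncomputable def tot {m n : ℕ} (t : Fin m → Fin (n + 1)) : ℝ := ∑ i, ((t i : ℕ) : ℝ)

theorem corea_tot {m n : ℕ} (a b : Fin m → Fin (n + 1)) :
    tot (a ⊓ b) + tot (a ⊔ b) = tot a + tot b := by
  unfold tot
  rw [← sum_add_distrib, ← sum_add_distrib]
  refine sum_congr rfl fun j _ => ?_
  rcases le_total (a j) (b j) with h | h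
  · simp only [Pi.inf_apply, Pi.sup_apply, inf_of_le_left h, sup_of_le_right h]
  · simp only [Pi.inf_apply, Pi.sup_apply, inf_of_le_right h, sup_of_le_left h, add_comm]

theorem corea_coord {m n : ℕ} (a b : Fin m → Fin (n + 1)) (i : Fin m) :
    ((((a ⊓ b) i : ℕ) : ℝ)) + (((a ⊔ b) i : ℕ) : ℝ) = ((a i : ℕ) : ℝ) + ((b i : ℕ) : ℝ) := by
  rcases le_total (a i) (b i) with h | h
  · simp only [Pi.inf_apply, Pi.sup_apply, inf_of_le_left h, sup_of_le_right h]
  · simp only [Pi.inf_apply, Pi.sup_apply, inf_of_le_right h, sup_of_le_left h, add_comm]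

/-- negative correlation of a coordinate with the down-set of classes that fit next to `s` -/
theorem corea_fkg {m n : ℕ} (w : (Fin m → Fin (n + 1)) → ℝ) (hw : ∀ t, 0 ≤ w t)
    (hsup : ∀ s t, w s * w t ≤ w (s ⊓ t) * w (s ⊔ t)) (s : Fin m → Fin (n + 1)) (i : Fin m) :
    (∑ t, (if ∀ j, (s j : ℕ) + (t j : ℕ) ≤ n then w t else 0) * ((t i : ℕ) : ℝ)) * ∑ t, w t
      ≤ (∑ t, (if ∀ j, (s j : ℕ) + (t j : ℕ) ≤ n then w t else 0)) *
        ∑ t, w t * ((t i : ℕ) : ℝ) := by
  refine four_functions_theorem_univ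
    (fun t : Fin m → Fin (n + 1) =>
      (if ∀ j, (s j : ℕ) + (t j : ℕ) ≤ n then w t else 0) * ((t i : ℕ) : ℝ)) w
    (fun t : Fin m → Fin (n + 1) => if ∀ j, (s j : ℕ) + (t j : ℕ) ≤ n then w t else 0)
    (fun t : Fin m → Fin (n + 1) => w t * ((t i : ℕ) : ℝ)) (fun t => ?_) hw (fun t => ?_)
    (fun t => ?_) fun a b => ?_
  · refine mul_nonneg ?_ (Nat.cast_nonneg _)
    split_ifs
    · exact hw t
    · exact le_rfl
  · dsimp only [Pi.zero_apply]
    split_ifs
    · exact hw t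
    · exact le_rfl
  · exact mul_nonneg (hw t) (Nat.cast_nonneg _)
  · by_cases ha : ∀ j, (s j : ℕ) + (a j : ℕ) ≤ n
    · have hab : ∀ j, (s j : ℕ) + ((a ⊓ b) j : ℕ) ≤ n := fun j => by
        have h1 : (a ⊓ b) j ≤ a j := (inf_le_left : a ⊓ b ≤ a) j
        have h2 : ((a ⊓ b) j : ℕ) ≤ (a j : ℕ) := h1
        exact (Nat.add_le_add_left h2 _).trans (ha j)
      rw [if_pos ha, if_pos hab]
      have h1 : a i ≤ (a ⊔ b) i := (le_sup_left : a ≤ a ⊔ b) i
      have h2 : ((a i : ℕ) : ℝ) ≤ (((a ⊔ b) i : ℕ) : ℝ) := by exact_mod_cast h1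
      calc w a * ((a i : ℕ) : ℝ) * w b = (w a * w b) * ((a i : ℕ) : ℝ) := by ring
        _ ≤ (w (a ⊓ b) * w (a ⊔ b)) * (((a ⊔ b) i : ℕ) : ℝ) :=
          mul_le_mul (hsup a b) h2 (Nat.cast_nonneg _) (mul_nonneg (hw _) (hw _))
        _ = _ := by ring
    · rw [if_neg ha, zero_mul, zero_mul]
      refine mul_nonneg ?_ (mul_nonneg (hw _) (Nat.cast_nonneg _))
      split_ifs
      · exact hw _
      · exact le_rfl

/-- the Euler identity for the tilted weights -/
theorem corea_euler {m n : ℕ} (q : ℝ) (c φ : (Fin m → Fin (n + 1)) → ℝ) (hid : EulerId q c φ)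
    (x z : ℝ) (i : Fin m) :
    ∑ s, ∑ t, (if ∀ j, (s j : ℕ) + (t j : ℕ) ≤ n then
        c s * φ t * Real.exp (x * (tot s + tot t)) else 0) *
          Real.exp (z * (((s i : ℕ) : ℝ) + (t i : ℕ))) * (((s i : ℕ) : ℝ) - q * (t i : ℕ)) = 0 := by
  have h := hid (fun u => ((Real.exp (x * ∑ j, (u j : ℝ)) * Real.exp (z * (u i : ℝ)) : ℝ) : ℂ))
    (Pi.single i 1)
  rw [← Complex.ofReal_eq_zero, Complex.ofReal_sum]
  refine Eq.trans (sum_congr rfl fun s _ => ?_) h
  rw [Complex.ofReal_sum]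
  refine sum_congr rfl fun t _ => ?_
  split_ifs with hv
  · rw [← Complex.ofReal_mul]
    congr 1
    have e1 : ∀ u : Fin m → Fin (n + 1),
        ∑ j, (Pi.single i (1 : ℝ) : Fin m → ℝ) j * ((u j : ℕ) : ℝ) = ((u i : ℕ) : ℝ) := by
      intro u
      rw [sum_eq_single i]
      · simp
      · intro j _ hj
        simp [hj]
      · simp
    have e2 : ∑ j, ((((s j : ℕ) + (t j : ℕ) : ℕ)) : ℝ) = tot s + tot t := by
      simp only [tot, Nat.cast_add, sum_add_distrib]
    rw [e1 s, e1 t, e2, Nat.cast_add]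
    ring
  · simp

/-- Chernoff bound from the Euler identity and the FKG inequality. -/
theorem chernoff {m n : ℕ} (q : ℝ) (hq0 : 0 ≤ q) (c φ : (Fin m → Fin (n + 1)) → ℝ)
    (hc : ∀ s, 0 ≤ c s) (hc0 : 0 < c 0) (hφ : ∀ t, 0 < φ t)
    (hsup : ∀ s t, φ s * φ t ≤ φ (s ⊓ t) * φ (s ⊔ t)) (hid : EulerId q c φ)
    (x lam y M0 : ℝ) (hlam : 0 ≤ lam) (i : Fin m)
    (hmgf : ∑ t, φ t * Real.exp (x * tot t) * Real.exp (lam * (t i : ℕ))
      ≤ M0 * ∑ t, φ t * Real.exp (x * tot t)) :
    ∑ s, ∑ t, (if (∀ j, (s j : ℕ) + (t j : ℕ) ≤ n) ∧ y < (s i : ℕ) then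
        c s * φ t * Real.exp (x * (tot s + tot t)) else 0)
      ≤ Real.exp (-(lam * y) + (q + 1) * Real.log M0) *
        ∑ s, ∑ t, (if ∀ j, (s j : ℕ) + (t j : ℕ) ≤ n then
          c s * φ t * Real.exp (x * (tot s + tot t)) else 0) := by
  set A : (Fin m → Fin (n + 1)) → (Fin m → Fin (n + 1)) → ℝ := fun s t =>
    if ∀ j, (s j : ℕ) + (t j : ℕ) ≤ n then c s * φ t * Real.exp (x * (tot s + tot t)) else 0
    with hA
  have hA0 : ∀ s t, 0 ≤ A s t := fun s t => by
    simp only [hA]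
    split_ifs
    · exact mul_nonneg (mul_nonneg (hc s) (hφ t).le) (Real.exp_pos _).le
    · exact le_rfl
  set Z : ℝ → ℝ := fun z => ∑ s, ∑ t, A s t * Real.exp (z * (((s i : ℕ) : ℝ) + (t i : ℕ)))
    with hZ
  set Z' : ℝ → ℝ := fun z => ∑ s, ∑ t, A s t * Real.exp (z * (((s i : ℕ) : ℝ) + (t i : ℕ))) *
    (((s i : ℕ) : ℝ) + (t i : ℕ)) with hZ'
  set w : ℝ → (Fin m → Fin (n + 1)) → ℝ := fun z t =>
    φ t * Real.exp (x * tot t) * Real.exp (z * (t i : ℕ)) with hw
  set F : ℝ → ℝ := fun z => ∑ t, w z t with hF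
  set F' : ℝ → ℝ := fun z => ∑ t, w z t * ((t i : ℕ) : ℝ) with hF'
  have hw0 : ∀ z t, 0 < w z t := fun z t =>
    mul_pos (mul_pos (hφ t) (Real.exp_pos _)) (Real.exp_pos _)
  have hF0 : ∀ z, 0 < F z := fun z => sum_pos (fun t _ => hw0 z t) univ_nonempty
  have hZ0 : ∀ z, 0 < Z z := fun z => by
    refine sum_pos' (fun s _ => sum_nonneg fun t _ => mul_nonneg (hA0 s t) (Real.exp_pos _).le)
      ⟨0, mem_univ _, ?_⟩
    refine sum_pos' (fun t _ => mul_nonneg (hA0 0 t) (Real.exp_pos _).le) ⟨0, mem_univ _, ?_⟩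
    refine mul_pos ?_ (Real.exp_pos _)
    simp only [hA]
    rw [if_pos fun j => by simp]
    exact mul_pos (mul_pos hc0 (hφ 0)) (Real.exp_pos _)
  have hdZ : ∀ z, HasDerivAt Z (Z' z) z := fun z => by
    refine HasDerivAt.fun_sum fun s _ => HasDerivAt.fun_sum fun t _ => ?_
    have := (((hasDerivAt_id z).mul_const (((s i : ℕ) : ℝ) + (t i : ℕ))).exp).const_mul (A s t)
    simpa only [id, one_mul, mul_assoc] using this
  have hdF : ∀ z, HasDerivAt F (F' z) z := fun z => by
    refine HasDerivAt.fun_sum fun t _ => ?_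
    have := (((hasDerivAt_id z).mul_const ((t i : ℕ) : ℝ)).exp).const_mul
      (φ t * Real.exp (x * tot t))
    simpa only [hw, id, one_mul, mul_assoc] using this
  have hwsup : ∀ z a b, w z a * w z b ≤ w z (a ⊓ b) * w z (a ⊔ b) := fun z a b => by
    have e : ∀ a b, w z a * w z b = φ a * φ b * (Real.exp (x * (tot a + tot b)) *
        Real.exp (z * (((a i : ℕ) : ℝ) + (b i : ℕ)))) := fun a b => by
      simp only [hw, mul_add, Real.exp_add]
      ring
    rw [e, e, corea_tot, corea_coord]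
    exact mul_le_mul_of_nonneg_right (hsup a b) (by positivity)
  have hkey : ∀ z, Z' z * F z ≤ (q + 1) * (Z z * F' z) := fun z => by
    have h1 := corea_euler q c φ hid x z i
    have h2 : Z' z = (q + 1) * ∑ s, ∑ t,
        A s t * Real.exp (z * (((s i : ℕ) : ℝ) + (t i : ℕ))) * ((t i : ℕ) : ℝ) := by
      rw [← sub_eq_zero, ← h1]
      simp only [hZ', mul_sum, ← sum_sub_distrib]
      refine sum_congr rfl fun s _ => sum_congr rfl fun t _ => ?_
      ring
    rw [h2, mul_assoc]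
    refine mul_le_mul_of_nonneg_left ?_ (by linarith)
    simp only [hZ]
    rw [sum_mul, sum_mul]
    refine sum_le_sum fun s _ => ?_
    have e : ∀ t, A s t * Real.exp (z * (((s i : ℕ) : ℝ) + (t i : ℕ)))
        = (c s * Real.exp (x * tot s) * Real.exp (z * (s i : ℕ))) *
          (if ∀ j, (s j : ℕ) + (t j : ℕ) ≤ n then w z t else 0) := fun t => by
      simp only [hA, hw]
      split_ifs
      · simp only [mul_add, Real.exp_add]
        ring
      · simp
    simp only [e, mul_assoc _ _ ((_ : ℕ) : ℝ), ← mul_sum]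
    rw [mul_assoc, mul_assoc _ _ (F' z)]
    refine mul_le_mul_of_nonneg_left (corea_fkg (w z) (fun t => (hw0 z t).le) (hwsup z) s i) ?_
    exact mul_nonneg (mul_nonneg (hc s) (Real.exp_pos _).le) (Real.exp_pos _).le
  have hdG : ∀ z, HasDerivAt (fun z => Real.log (Z z) - (q + 1) * Real.log (F z))
      (Z' z / Z z - (q + 1) * (F' z / F z)) z := fun z =>
    ((hdZ z).log (hZ0 z).ne').sub (((hdF z).log (hF0 z).ne').const_mul _)
  have hanti : Antitone fun z => Real.log (Z z) - (q + 1) * Real.log (F z) := by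
    refine antitone_of_deriv_nonpos (fun z => (hdG z).differentiableAt) fun z => ?_
    rw [(hdG z).deriv, sub_nonpos, div_le_iff₀ (hZ0 z), ← mul_div_assoc, div_mul_eq_mul_div,
      le_div_iff₀ (hF0 z)]
    have := hkey z
    linarith
  have h1 : Real.log (Z lam) - (q + 1) * Real.log (F lam)
      ≤ Real.log (Z 0) - (q + 1) * Real.log (F 0) := hanti hlam
  have hF00 : F 0 = ∑ t, φ t * Real.exp (x * tot t) := by simp [hF, hw]
  have h2 : F lam ≤ M0 * F 0 := by rw [hF00]; exact hmgf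
  have hM0 : 0 < M0 := by
    by_contra hM
    nlinarith [hF0 lam, mul_nonneg (neg_nonneg.2 (not_lt.1 hM)) (hF0 0).le]
  have h3 : Real.log (F lam) ≤ Real.log M0 + Real.log (F 0) := by
    rw [← Real.log_mul hM0.ne' (hF0 0).ne']
    exact Real.log_le_log (hF0 lam) h2
  have h4 : Z lam ≤ Real.exp ((q + 1) * Real.log M0) * Z 0 := by
    rw [← Real.exp_log (hZ0 lam), ← Real.exp_log (hZ0 0), ← Real.exp_add]
    refine Real.exp_le_exp.2 ?_
    nlinarith [mul_le_mul_of_nonneg_left h3 (by linarith : 0 ≤ q + 1)]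
  have hZ00 : Z 0 = ∑ s, ∑ t, A s t := by simp [hZ]
  rw [Real.exp_add, mul_assoc]
  change _ ≤ _ * (_ * ∑ s, ∑ t, A s t)
  rw [← hZ00]
  refine le_trans ?_ (mul_le_mul_of_nonneg_left h4 (Real.exp_pos _).le)
  simp only [hZ, mul_sum]
  refine sum_le_sum fun s _ => sum_le_sum fun t _ => ?_
  split_ifs with hv
  · have e : A s t = c s * φ t * Real.exp (x * (tot s + tot t)) := by
      simp only [hA]
      rw [if_pos hv.1]
    rw [← e, mul_left_comm, ← Real.exp_add]
    refine le_mul_of_one_le_right (hA0 s t) (Real.one_le_exp ?_)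
    have h5 : (0 : ℝ) ≤ (t i : ℕ) := Nat.cast_nonneg _
    nlinarith [mul_le_mul_of_nonneg_left hv.2.le hlam, mul_nonneg hlam h5]
  · exact mul_nonneg (Real.exp_pos _).le (mul_nonneg (hA0 s t) (Real.exp_pos _).le)

theorem coreb_tot_nonneg {m n : ℕ} (t : Fin m → Fin (n + 1)) : 0 ≤ tot t :=
  Finset.sum_nonneg fun _ _ => Nat.cast_nonneg _

theorem coreb_tot_le {m n : ℕ} (t : Fin m → Fin (n + 1)) : tot t ≤ m * n := by
  unfold tot
  calc ∑ i, ((t i : ℕ) : ℝ) ≤ ∑ _i : Fin m, (n : ℝ) :=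
        Finset.sum_le_sum fun i _ => by exact_mod_cast Nat.lt_succ_iff.1 (t i).2
    _ = m * n := by simp

/-- The abstract splitting of the error term. -/
theorem coreb_split {ι κ : Type} [Fintype ι] [Fintype κ] (good : ι → Prop) [DecidablePred good]
    (valid : ι → κ → Prop) [∀ s t, Decidable (valid s t)] (E : ι → κ → ℂ) (A : ι → κ → ℝ)
    (B P η1 η2 : ℝ) (hB : 0 ≤ B) (hA : ∀ s t, 0 ≤ A s t) (hE : ∀ s t, ‖E s t‖ ≤ B * A s t)
    (h0 : ∑ s, ∑ t, (if valid s t then E s t else 0) = 0)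
    (hη1 : 0 ≤ η1) (hη1' : η1 ≤ 1 / 2)
    (h1 : ∑ s, ∑ t, (if valid s t ∧ ¬ good s then A s t else 0)
      ≤ η1 * ∑ s, ∑ t, (if valid s t then A s t else 0))
    (h2 : ∑ s, ∑ t, (if good s then A s t else 0) ≤ P)
    (h3 : ∑ s, ∑ t, (if good s ∧ ¬ valid s t then A s t else 0) ≤ η2 * P) :
    ‖∑ s, ∑ t, (if good s then E s t else 0)‖ ≤ B * (2 * η1 + η2) * P := by
  have hT : ∑ s, ∑ t, (if valid s t then A s t else 0)
      ≤ ∑ s, ∑ t, (if valid s t ∧ ¬ good s then A s t else 0)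
        + ∑ s, ∑ t, (if good s then A s t else 0) := by
    rw [← Finset.sum_add_distrib]
    refine Finset.sum_le_sum fun s _ => ?_
    rw [← Finset.sum_add_distrib]
    refine Finset.sum_le_sum fun t _ => ?_
    have := hA s t
    by_cases hv : valid s t <;> by_cases hg : good s <;> simp [hv, hg, this]
  have hT0 : 0 ≤ ∑ s, ∑ t, (if valid s t then A s t else 0) :=
    Finset.sum_nonneg fun s _ => Finset.sum_nonneg fun t _ => by
      split_ifs
      · exact hA s t
      · exact le_rfl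
  have hT2 : ∑ s, ∑ t, (if valid s t then A s t else 0) ≤ 2 * P := by nlinarith
  have hb : ∑ s, ∑ t, (if valid s t ∧ ¬ good s then A s t else 0) ≤ 2 * η1 * P := by nlinarith
  have e : ∑ s, ∑ t, (if good s then E s t else 0)
      = ∑ s, ∑ t, ((if good s then E s t else 0) - (if valid s t then E s t else 0)) := by
    simp only [Finset.sum_sub_distrib]
    rw [h0, sub_zero]
  rw [e]
  calc ‖∑ s, ∑ t, ((if good s then E s t else 0) - (if valid s t then E s t else 0))‖
      ≤ ∑ s, ∑ t, B * ((if valid s t ∧ ¬ good s then A s t else 0)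
          + (if good s ∧ ¬ valid s t then A s t else 0)) := by
        refine (norm_sum_le _ _).trans (Finset.sum_le_sum fun s _ => ?_)
        refine (norm_sum_le _ _).trans (Finset.sum_le_sum fun t _ => ?_)
        have := hE s t
        by_cases hv : valid s t <;> by_cases hg : good s <;> simp [hv, hg, this]
    _ = B * (∑ s, ∑ t, (if valid s t ∧ ¬ good s then A s t else 0)
          + ∑ s, ∑ t, (if good s ∧ ¬ valid s t then A s t else 0)) := by
        simp only [← Finset.mul_sum, Finset.sum_add_distrib]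
    _ ≤ B * (2 * η1 * P + η2 * P) := mul_le_mul_of_nonneg_left (add_le_add hb h3) hB
    _ = B * (2 * η1 + η2) * P := by ring

theorem core {m n : ℕ} (q : ℝ) (hq0 : 0 ≤ q)
    (hq : Complex.exp (2 * Real.pi * Complex.I * q) = -1)
    (c φ : (Fin m → Fin (n + 1)) → ℝ)
    (hc : ∀ s, 0 ≤ c s) (hc0 : 0 < c 0) (hφ : ∀ t, 0 < φ t)
    (hsup : ∀ s t, φ s * φ t ≤ φ (s ⊓ t) * φ (s ⊔ t)) (hid : EulerId q c φ)
    (N L ε β y lam M0 η1 η2 η : ℝ) (hN : 0 < N) (hL : 0 < L) (hε0 : 0 ≤ ε) (hε1 : ε < 1)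
    (hy : 0 ≤ y) (hlam : 0 ≤ lam) (hη2 : 0 ≤ η2)
    (hleft : ∑ t, φ t * Real.exp (-L * (tot t / N)) * min 2 (7 * |tot t / N - β|)
        ≤ ε * ∑ t, φ t * Real.exp (-L * (tot t / N)))
    (hright : ∑ t, φ t * Real.exp (L * (tot t / N)) * min 2 (7 * |tot t / N - β - 1|)
        ≤ ε * ∑ t, φ t * Real.exp (L * (tot t / N)))
    (htop : ∀ x ∈ Set.Icc (-L) L,
      ∑ t, φ t * Real.exp (x * (tot t / N)) *
          min (7 * |tot t / N - β|) (min 2 (7 * |tot t / N - β - 1|))
        ≤ ε * ∑ t, φ t * Real.exp (x * (tot t / N)))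
    (hinv : ∀ x ∈ Set.Icc (-L) L,
      ∑ t, (if ∃ i, (n : ℝ) - y < (t i : ℕ) then φ t * Real.exp (x * (tot t / N)) else 0)
        ≤ η2 * ∑ t, φ t * Real.exp (x * (tot t / N)))
    (hmgf : ∀ x ∈ Set.Icc (-L) L, ∀ i,
      ∑ t, φ t * Real.exp (x * (tot t / N)) * Real.exp (lam * (t i : ℕ))
        ≤ M0 * ∑ t, φ t * Real.exp (x * (tot t / N)))
    (hη1 : m * Real.exp (-(lam * y) + (q + 1) * Real.log M0) ≤ η1) (hη1' : η1 ≤ 1 / 2)
    (hη : (q + 1) * (m * n / N) * (2 * η1 + η2) ≤ η)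
    (hfin : (2 * L + 7) * η * Real.exp (2 * L * η) < Real.exp ((q + 1) * Real.log (1 - ε))) :
    False := by
  classical
  have hη10 : 0 ≤ η1 := le_trans (by positivity) hη1
  have hB : 0 ≤ (q + 1) * (m * n / N) := by positivity
  have hη0 : 0 ≤ η := le_trans (by positivity) hη
  refine monodromy q hq0 hq (fun s => if ∀ i, ((s i : ℕ) : ℝ) ≤ y then c s else 0)
    (fun s => tot s / N) φ (fun t => tot t / N) (fun s => ?_) ⟨0, ?_⟩ (fun t => (hφ t).le)
    ⟨0, hφ 0⟩ L ε β η hL hε0 hε1 hη0 (fun w hw => ?_) hleft hright htop hfin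
  · split_ifs
    · exact hc s
    · exact le_rfl
  · rw [if_pos fun i => by simpa using hy]
    exact hc0
  set x := w.re with hx
  set G : ℝ := ∑ s : Fin m → Fin (n + 1),
    (if ∀ i, ((s i : ℕ) : ℝ) ≤ y then c s else 0) * Real.exp (x * (tot s / N)) with hG
  set F : ℝ := ∑ t : Fin m → Fin (n + 1), φ t * Real.exp (x * (tot t / N)) with hF
  have hG0 : 0 ≤ G := Finset.sum_nonneg fun s _ => by
    split_ifs
    · exact mul_nonneg (hc s) (Real.exp_pos _).le
    · simp
  have hF0 : 0 ≤ F := Finset.sum_nonneg fun t _ => mul_nonneg (hφ t).le (Real.exp_pos _).le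
  have hexp : ∀ s t : Fin m → Fin (n + 1), Real.exp (x / N * (tot s + tot t))
      = Real.exp (x * (tot s / N)) * Real.exp (x * (tot t / N)) := fun s t => by
    rw [← Real.exp_add]
    congr 1
    ring
  have key := coreb_split (fun s : Fin m → Fin (n + 1) => ∀ i, ((s i : ℕ) : ℝ) ≤ y)
    (fun s t : Fin m → Fin (n + 1) => ∀ j, (s j : ℕ) + (t j : ℕ) ≤ n)
    (fun s t => ((c s * φ t * (tot s / N - q * (tot t / N)) : ℝ) : ℂ) *
      Complex.exp (w * ((tot s / N + tot t / N : ℝ) : ℂ)))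
    (fun s t => c s * φ t * Real.exp (x / N * (tot s + tot t)))
    ((q + 1) * (m * n / N)) (G * F) η1 η2 hB
    (fun s t => mul_nonneg (mul_nonneg (hc s) (hφ t).le) (Real.exp_pos _).le)
    (fun s t => ?_) ?_ hη10 hη1' ?_ ?_ ?_
  · refine le_trans (le_of_eq ?_) (key.trans (mul_le_mul_of_nonneg_right hη (mul_nonneg hG0 hF0)))
    congr 1
    refine Finset.sum_congr rfl fun s _ => Finset.sum_congr rfl fun t _ => ?_
    split_ifs <;> simp
  · rw [norm_mul, Complex.norm_real, Complex.norm_exp, Complex.re_mul_ofReal, Real.norm_eq_abs,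
      abs_mul, abs_of_nonneg (mul_nonneg (hc s) (hφ t).le), ← hx]
    have h1 : 0 ≤ tot s / N := div_nonneg (coreb_tot_nonneg s) hN.le
    have h2 : tot s / N ≤ m * n / N := div_le_div_of_nonneg_right (coreb_tot_le s) hN.le
    have h3 : 0 ≤ tot t / N := div_nonneg (coreb_tot_nonneg t) hN.le
    have h4 : tot t / N ≤ m * n / N := div_le_div_of_nonneg_right (coreb_tot_le t) hN.le
    have h5 : |tot s / N - q * (tot t / N)| ≤ (q + 1) * (m * n / N) := by
      rw [abs_le]
      constructor <;> nlinarith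
    have h6 : x * (tot s / N + tot t / N) = x / N * (tot s + tot t) := by ring
    rw [h6]
    calc c s * φ t * |tot s / N - q * (tot t / N)| * Real.exp (x / N * (tot s + tot t))
        ≤ c s * φ t * ((q + 1) * (m * n / N)) * Real.exp (x / N * (tot s + tot t)) :=
          mul_le_mul_of_nonneg_right (mul_le_mul_of_nonneg_left h5 (mul_nonneg (hc s) (hφ t).le))
            (Real.exp_pos _).le
      _ = _ := by ring
  · refine Eq.trans ?_ (hid (fun u => Complex.exp (w * (((∑ i, (u i : ℝ)) / N : ℝ) : ℂ)))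
      fun _ => N⁻¹)
    refine Finset.sum_congr rfl fun s _ => Finset.sum_congr rfl fun t _ => ?_
    have e1 : tot s / N - q * (tot t / N)
        = ∑ i, N⁻¹ * ((s i : ℕ) : ℝ) - q * ∑ i, N⁻¹ * ((t i : ℕ) : ℝ) := by
      simp only [← Finset.mul_sum, tot]
      ring
    have e2 : tot s / N + tot t / N = (∑ i, (((s i : ℕ) + (t i : ℕ) : ℕ) : ℝ)) / N := by
      simp only [tot, Nat.cast_add, Finset.sum_add_distrib]
      ring
    rw [e1, e2]
  · have hT0 : 0 ≤ ∑ s : Fin m → Fin (n + 1), ∑ t : Fin m → Fin (n + 1),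
        (if ∀ j, (s j : ℕ) + (t j : ℕ) ≤ n then
          c s * φ t * Real.exp (x / N * (tot s + tot t)) else 0) :=
      Finset.sum_nonneg fun s _ => Finset.sum_nonneg fun t _ => by
        split_ifs
        · exact mul_nonneg (mul_nonneg (hc s) (hφ t).le) (Real.exp_pos _).le
        · exact le_rfl
    have hch := fun i => chernoff q hq0 c φ hc hc0 hφ hsup hid (x / N) lam y M0 hlam i (by
      have := hmgf x hw i
      simpa only [div_mul_eq_mul_div, mul_div_assoc] using this)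
    refine le_trans ?_ (mul_le_mul_of_nonneg_right hη1 hT0)
    calc _ ≤ ∑ s : Fin m → Fin (n + 1), ∑ t : Fin m → Fin (n + 1), ∑ i : Fin m,
          (if (∀ j, (s j : ℕ) + (t j : ℕ) ≤ n) ∧ y < (s i : ℕ) then
            c s * φ t * Real.exp (x / N * (tot s + tot t)) else 0) := by
          refine Finset.sum_le_sum fun s _ => Finset.sum_le_sum fun t _ => ?_
          have hnn : ∀ i : Fin m, 0 ≤ (if (∀ j, (s j : ℕ) + (t j : ℕ) ≤ n) ∧ y < (s i : ℕ) then
              c s * φ t * Real.exp (x / N * (tot s + tot t)) else 0) := fun i => by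
            split_ifs
            · exact mul_nonneg (mul_nonneg (hc s) (hφ t).le) (Real.exp_pos _).le
            · exact le_rfl
          split_ifs with h
          · obtain ⟨hv, hb⟩ := h
            push Not at hb
            obtain ⟨i, hi⟩ := hb
            refine le_trans (le_of_eq ?_)
              (Finset.single_le_sum (fun j _ => hnn j) (Finset.mem_univ i))
            rw [if_pos ⟨hv, hi⟩]
          · exact Finset.sum_nonneg fun i _ => hnn i
      _ = ∑ i : Fin m, ∑ s : Fin m → Fin (n + 1), ∑ t : Fin m → Fin (n + 1),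
          (if (∀ j, (s j : ℕ) + (t j : ℕ) ≤ n) ∧ y < (s i : ℕ) then
            c s * φ t * Real.exp (x / N * (tot s + tot t)) else 0) := by
          rw [Finset.sum_comm (s := (Finset.univ : Finset (Fin m)))]
          exact Finset.sum_congr rfl fun s _ => Finset.sum_comm
      _ ≤ ∑ _i : Fin m, Real.exp (-(lam * y) + (q + 1) * Real.log M0) *
          ∑ s : Fin m → Fin (n + 1), ∑ t : Fin m → Fin (n + 1),
          (if ∀ j, (s j : ℕ) + (t j : ℕ) ≤ n then
            c s * φ t * Real.exp (x / N * (tot s + tot t)) else 0) :=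
          Finset.sum_le_sum fun i _ => hch i
      _ = _ := by
          rw [Finset.sum_const, Finset.card_univ, Fintype.card_fin, nsmul_eq_mul, mul_assoc]
  · rw [hG, hF, Finset.sum_mul_sum]
    refine Finset.sum_le_sum fun s _ => Finset.sum_le_sum fun t _ => le_of_eq ?_
    rw [hexp]
    split_ifs
    · ring
    · simp
  · calc _ ≤ ∑ s : Fin m → Fin (n + 1), ∑ t : Fin m → Fin (n + 1),
          ((if ∀ i, ((s i : ℕ) : ℝ) ≤ y then c s else 0) * Real.exp (x * (tot s / N))) *
          (if ∃ i, (n : ℝ) - y < (t i : ℕ) then φ t * Real.exp (x * (tot t / N)) else 0) := by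
          refine Finset.sum_le_sum fun s _ => Finset.sum_le_sum fun t _ => ?_
          by_cases h : (∀ i, ((s i : ℕ) : ℝ) ≤ y) ∧ ¬ ∀ j, (s j : ℕ) + (t j : ℕ) ≤ n
          · obtain ⟨hg, hv⟩ := h
            have hex : ∃ i, (n : ℝ) - y < (t i : ℕ) := by
              push Not at hv
              obtain ⟨j, hj⟩ := hv
              have : (n : ℝ) < (s j : ℕ) + (t j : ℕ) := by exact_mod_cast hj
              exact ⟨j, by linarith [hg j]⟩
            rw [if_pos ⟨hg, hv⟩, if_pos hg, if_pos hex, hexp]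
            exact le_of_eq (by ring)
          · rw [if_neg h]
            refine mul_nonneg (mul_nonneg ?_ (Real.exp_pos _).le) ?_
            · split_ifs
              · exact hc s
              · exact le_rfl
            · split_ifs
              · exact mul_nonneg (hφ t).le (Real.exp_pos _).le
              · exact le_rfl
      _ = G * ∑ t : Fin m → Fin (n + 1),
          (if ∃ i, (n : ℝ) - y < (t i : ℕ) then φ t * Real.exp (x * (tot t / N)) else 0) := by
          rw [hG, Finset.sum_mul_sum]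
      _ ≤ G * (η2 * F) := mul_le_mul_of_nonneg_left (hinv x hw) hG0
      _ = η2 * (G * F) := by ring

end Pool.Agent.P.MP_abed8b_co
end

-- part Pool.Agent.P.MP_abed8b_co.MainA
section

set_option autoImplicit false

namespace Pool.Agent.P.MP_abed8b_co

open Finset Filter Topology

/-- A strict inequality between averages over `{a, b} ^ m` passes to products of two-peaked
weights. -/
theorem trans_use (m : ℕ) (a b L : ℝ) (hb : 0 ≤ b) (hab : b < a) (ha : a ≤ 1) (hL : 0 ≤ L)
    (D : ℝ × (Fin m → ℝ) → ℝ) (hD : Continuous D) (hD0 : ∀ z, 0 < D z)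
    (Ψ : (Fin m → ℝ) → ℝ) (hΨ : Continuous Ψ) (c' c : ℝ) (hc : c' < c) :
    ∀ᶠ δ in 𝓝[>] (0 : ℝ), ∀ n : ℕ, 0 < n → ∀ W : ℕ → ℝ, (∀ t, 0 < W t) → TwoPeak a b δ n W →
      ∀ x ∈ Set.Icc (-L) L,
        (∑ I : Finset (Fin m), D (x, fun i => if i ∈ I then a else b) *
            Ψ (fun i => if i ∈ I then a else b)
          ≤ c' * ∑ I : Finset (Fin m), D (x, fun i => if i ∈ I then a else b)) →
        ∑ t : Fin m → Fin (n + 1), (∏ i, W (t i)) * D (x, fun i => ((t i : ℕ) : ℝ) / n) *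
            Ψ (fun i => ((t i : ℕ) : ℝ) / n)
          ≤ c * ∑ t : Fin m → Fin (n + 1), (∏ i, W (t i)) * D (x, fun i => ((t i : ℕ) : ℝ) / n) := by
  have hcont : Continuous fun x : ℝ =>
      ∑ I : Finset (Fin m), D (x, fun i => if i ∈ I then a else b) := by
    refine continuous_finsetSum _ fun I _ => hD.comp ?_
    exact continuous_id.prodMk continuous_const
  obtain ⟨x0, -, hx0⟩ := (isCompact_Icc (a := -L) (b := L)).exists_isMinOn
    ⟨0, by constructor <;> linarith⟩ hcont.continuousOn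
  set S0 := ∑ I : Finset (Fin m), D (x0, fun i => if i ∈ I then a else b) with hS0
  have hS0pos : 0 < S0 := Finset.sum_pos (fun I _ => hD0 _) Finset.univ_nonempty
  have he : 0 < (c - c') * S0 / 2 ^ m := by
    have : 0 < c - c' := by linarith
    positivity
  obtain ⟨δ0, hδ0, H⟩ := transfer m a b L hb hab ha (fun z => D z * (Ψ z.2 - c))
    (hD.mul ((hΨ.comp continuous_snd).sub continuous_const)) _ he
  have hev : ∀ᶠ δ in 𝓝[>] (0 : ℝ), δ ≤ δ0 :=
    mem_nhdsWithin_of_mem_nhds (Iic_mem_nhds hδ0)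
  filter_upwards [hev] with δ hδ n hn W hW hT x hx hyp
  have H1 := H δ hδ n hn W hW hT x hx
  have hmin : S0 ≤ ∑ I : Finset (Fin m), D (x, fun i => if i ∈ I then a else b) := hx0 hx
  have h2 : ∑ I : Finset (Fin m), D (x, fun i => if i ∈ I then a else b) *
      (Ψ (fun i => if i ∈ I then a else b) - c) ≤ -((c - c') * S0) := by
    simp only [mul_sub, Finset.sum_sub_distrib, ← Finset.sum_mul]
    have : 0 < c - c' := by linarith
    nlinarith
  have h3 : (∑ I : Finset (Fin m), D (x, fun i => if i ∈ I then a else b) *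
      (Ψ (fun i => if i ∈ I then a else b) - c)) / 2 ^ m + (c - c') * S0 / 2 ^ m ≤ 0 := by
    rw [← add_div]
    apply div_nonpos_of_nonpos_of_nonneg
    · linarith
    · positivity
  have h4 : (0 : ℝ) ≤ (∑ t ∈ range (n + 1), W t) ^ m :=
    pow_nonneg (Finset.sum_nonneg fun t _ => (hW t).le) _
  have h5 := H1.trans (mul_nonpos_of_nonneg_of_nonpos h4 h3)
  simp only [mul_sub, Finset.sum_sub_distrib, ← mul_assoc, ← Finset.sum_mul] at h5
  linarith

/-- The interaction between the clusters, with the two fields. -/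
noncomputable def DD (m u : ℕ) (τ' p h Δ E : ℝ) (z : ℝ × (Fin m → ℝ)) : ℝ :=
  Real.exp (τ' * ∏ i, (1 - p * z.2 i) ^ u + h * ((∑ i, z.2 i) / Δ) +
    z.1 * ((∑ i, z.2 i) / (Δ * m * E)))

theorem DD_cont (m u : ℕ) (τ' p h Δ E : ℝ) : Continuous (DD m u τ' p h Δ E) := by
  unfold DD
  fun_prop

theorem DD_pos (m u : ℕ) (τ' p h Δ E : ℝ) (z : ℝ × (Fin m → ℝ)) : 0 < DD m u τ' p h Δ E z :=
  Real.exp_pos _

theorem tot_div {m n : ℕ} (c : ℝ) (t : Fin m → Fin (n + 1)) :
    tot t / (n * c) = (∑ i, ((t i : ℕ) : ℝ) / n) / c := by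
  unfold tot
  rw [← Finset.sum_div, div_div]

theorem phi_factor (m n d u : ℕ) (τ τ' p r h Δ E x : ℝ)
    (t : Fin m → Fin (n + 1)) :
    phi m n d u (τ * n) τ' p (r + h / (n * Δ)) t * Real.exp (x * (tot t / (n * (Δ * m * E))))
      = (∏ i, Real.exp (τ * n * (1 - ((t i : ℕ) : ℝ) / n) ^ d + r * (t i : ℕ)) /
          ((t i : ℕ).factorial : ℝ)) * DD m u τ' p h Δ E (x, fun i => ((t i : ℕ) : ℝ) / n) := by
  rw [tot_div]
  unfold phi DD
  have h1 : ∏ i, Real.exp (τ * n * (1 - ((t i : ℕ) : ℝ) / n) ^ d +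
        (r + h / (n * Δ)) * (t i : ℕ)) / ((t i : ℕ).factorial : ℝ)
      = (∏ i, Real.exp (τ * n * (1 - ((t i : ℕ) : ℝ) / n) ^ d + r * (t i : ℕ)) /
          ((t i : ℕ).factorial : ℝ)) * Real.exp (h * ((∑ i, ((t i : ℕ) : ℝ) / n) / Δ)) := by
    rw [Finset.sum_div, Finset.mul_sum, Real.exp_sum, ← Finset.prod_mul_distrib]
    refine Finset.prod_congr rfl fun i _ => ?_
    rw [div_mul_eq_mul_div, ← Real.exp_add]
    congr 2
    ring
  rw [h1, Real.exp_add, Real.exp_add]
  ring

theorem sum_al (m : ℕ) (a b : ℝ) (I : Finset (Fin m)) :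
    ∑ i, (if i ∈ I then a else b) = m * b + I.card * (a - b) := by
  have : ∀ i : Fin m, (if i ∈ I then a else b) = b + (if i ∈ I then a - b else 0) := by
    intro i
    split_ifs <;> ring
  simp only [this, Finset.sum_add_distrib, Finset.sum_const, Finset.card_univ, Fintype.card_fin,
    nsmul_eq_mul]
  rw [Finset.sum_ite_mem, Finset.univ_inter, Finset.sum_const, nsmul_eq_mul]

theorem DD_al (m u : ℕ) (hm : 0 < m) (hu : 0 < u) (a b p B T h x : ℝ) (hab : b < a)
    (hB : B < 17 / 100) (hpb : 0 < 1 - p * b)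
    (hp : 1 - p * a = (1 - p * b) * Real.exp (-(24 / 5 / (m * u)))) (I : Finset (Fin m)) :
    DD m u (T * m / (1 - p * b) ^ (m * u)) p h (a - b) (17 / 100 - B)
        (x, fun i => if i ∈ I then a else b)
      = om m B T h x I * Real.exp (h * (m * b / (a - b)) + x * (b / ((a - b) * (17 / 100 - B)))) := by
  unfold DD om
  rw [← Real.exp_add]
  congr 1
  have hm' : (m : ℝ) ≠ 0 := by positivity
  have hu' : (u : ℝ) ≠ 0 := by positivity
  have hΔ : a - b ≠ 0 := by linarith
  have hE : 17 / 100 - B ≠ 0 := by linarith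
  have h1 : ∏ i : Fin m, (1 - p * (if i ∈ I then a else b)) ^ u
      = (1 - p * b) ^ (m * u) * Real.exp (-(24 / 5 * ((I.card : ℝ) / m))) := by
    have : ∀ i : Fin m, (1 - p * (if i ∈ I then a else b)) ^ u
        = (1 - p * b) ^ u * Real.exp (if i ∈ I then -(24 / 5 / m) else 0) := by
      intro i
      split_ifs
      · rw [hp, mul_pow, ← Real.exp_nat_mul]
        congr 2
        field_simp
      · simp
    simp only [this]
    rw [Finset.prod_mul_distrib, ← Real.exp_sum, Finset.sum_ite_mem, Finset.univ_inter,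
      Finset.sum_const, nsmul_eq_mul, Finset.prod_const, Finset.card_univ, Fintype.card_fin,
      ← pow_mul, mul_comm u m]
    congr 2
    ring
  simp only [h1, sum_al]
  have hpow : (1 - p * b) ^ (m * u) ≠ 0 := by positivity
  field_simp
  ring

theorem K_al (m : ℕ) (hm : 0 < m) (a b B : ℝ) (hab : b < a) (hB : B < 17 / 100)
    (I : Finset (Fin m)) :
    (∑ i, (if i ∈ I then a else b)) / ((a - b) * m * (17 / 100 - B)) -
      (b / ((a - b) * (17 / 100 - B)) + B / (17 / 100 - B)) = zz m B I := by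
  unfold zz
  have hm' : (m : ℝ) ≠ 0 := by positivity
  have hΔ : a - b ≠ 0 := by linarith
  have hE : 17 / 100 - B ≠ 0 := by linarith
  rw [sum_al]
  generalize 17 / 100 - B = E at hE
  field_simp
  ring

/-- The final numerical inequality holds for many colours. -/
theorem final_ineq (L C M : ℝ) (hL : 0 < L) (hC : 0 < C) :
    ∀ᶠ Q : ℝ in atTop, M * Real.exp (-(8 / 100000 * Q)) ≤ 1 / 2 ∧
      (2 * L + 7) * (C * Q ^ 2 * Real.exp (-(8 / 100000 * Q))) *
        Real.exp (2 * L * (C * Q ^ 2 * Real.exp (-(8 / 100000 * Q))))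
        < Real.exp (Q * Real.log (1 - 3 / 100000)) := by
  have t0 : Tendsto (fun Q : ℝ => 4 / 100000 * Q) atTop atTop :=
    tendsto_id.const_mul_atTop (by norm_num)
  have t1 : Tendsto (fun Q : ℝ => (4 / 100000 * Q) ^ 2 * Real.exp (-(4 / 100000 * Q))) atTop
      (𝓝 0) := (Real.tendsto_pow_mul_exp_neg_atTop_nhds_zero 2).comp t0
  have t2 : Tendsto (fun Q : ℝ => C * Q ^ 2 * Real.exp (-(4 / 100000 * Q))) atTop (𝓝 0) := by
    have := t1.const_mul (C * (100000 / 4) ^ 2)
    rw [mul_zero] at this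
    refine this.congr fun Q => ?_
    ring
  have t3 : Tendsto (fun Q : ℝ => M * Real.exp (-(8 / 100000 * Q))) atTop (𝓝 0) := by
    have := (Real.tendsto_exp_neg_atTop_nhds_zero.comp
      (tendsto_id.const_mul_atTop (show (0 : ℝ) < 8 / 100000 by norm_num))).const_mul M
    rw [mul_zero] at this
    exact this
  have hs : 0 < min 1 (1 / ((2 * L + 7) * Real.exp (2 * L))) := by positivity
  filter_upwards [t2.eventually (gt_mem_nhds hs), t3.eventually (gt_mem_nhds
    (show (0 : ℝ) < 1 / 2 by norm_num)), eventually_ge_atTop (0 : ℝ)] with Q h1 h2 hQ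
  refine ⟨h2.le, ?_⟩
  set s := C * Q ^ 2 * Real.exp (-(4 / 100000 * Q)) with hs'
  have hs0 : 0 ≤ s := by positivity
  have e1 : C * Q ^ 2 * Real.exp (-(8 / 100000 * Q)) = s * Real.exp (-(4 / 100000 * Q)) := by
    rw [hs', mul_assoc (C * Q ^ 2), ← Real.exp_add]
    congr 2
    ring
  have e2 : Real.exp (-(4 / 100000 * Q)) ≤ 1 := Real.exp_le_one_iff.2 (by linarith)
  have s1 : s < 1 := lt_of_lt_of_le h1 (min_le_left _ _)
  have s2 : s < 1 / ((2 * L + 7) * Real.exp (2 * L)) := lt_of_lt_of_le h1 (min_le_right _ _)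
  rw [lt_div_iff₀ (by positivity)] at s2
  have e3 : s * Real.exp (-(4 / 100000 * Q)) ≤ 1 := by
    have := Real.exp_pos (-(4 / 100000 * Q))
    nlinarith
  have e4 : Real.exp (2 * L * (s * Real.exp (-(4 / 100000 * Q)))) ≤ Real.exp (2 * L) :=
    Real.exp_le_exp.2 (by nlinarith)
  have e5 : -(4 / 100000) ≤ Real.log (1 - 3 / 100000) := by
    have := Real.one_sub_inv_le_log_of_pos (show (0 : ℝ) < 1 - 3 / 100000 by norm_num)
    norm_num at this ⊢
    linarith
  have e6 : Real.exp (-(4 / 100000 * Q)) ≤ Real.exp (Q * Real.log (1 - 3 / 100000)) :=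
    Real.exp_le_exp.2 (by nlinarith)
  rw [e1]
  refine lt_of_lt_of_le ?_ e6
  have hx := Real.exp_pos (-(4 / 100000 * Q))
  calc (2 * L + 7) * (s * Real.exp (-(4 / 100000 * Q))) *
        Real.exp (2 * L * (s * Real.exp (-(4 / 100000 * Q))))
      ≤ (2 * L + 7) * (s * Real.exp (-(4 / 100000 * Q))) * Real.exp (2 * L) :=
        mul_le_mul_of_nonneg_left e4 (by positivity)
    _ = (s * ((2 * L + 7) * Real.exp (2 * L))) * Real.exp (-(4 / 100000 * Q)) := by ring
    _ < 1 * Real.exp (-(4 / 100000 * Q)) := mul_lt_mul_of_pos_right s2 hx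
    _ = _ := one_mul _

end Pool.Agent.P.MP_abed8b_co
end
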