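import Pool.Agent.K.MP_abed8b_co.C5

set_option autoImplicit false

namespace Pool.Agent.P.MP_abed8b_co

open Finset Filter Topology

theorem exists_p (a b κ : ℝ) (hb : 0 < b) (hab : b < a) (ha : a < 1) (hκ0 : 0 ≤ κ)
    (hκ : κ ≤ a - b) :
    ∃ p : ℝ, 0 ≤ p ∧ p ≤ 1 ∧ 0 < 1 - p * b ∧ 1 - p * a = (1 - p * b) * Real.exp (-κ) := by
  have h1 : Real.exp (-κ) ≤ 1 := Real.exp_le_one_iff.2 (by linarith)
  have h2 : -κ + 1 ≤ Real.exp (-κ) := Real.add_one_le_exp _
  have h0 := Real.exp_pos (-κ)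
  set σ := Real.exp (-κ)
  have h3 : 0 < a - b * σ := by nlinarith
  have h4 : (1 - σ) / (a - b * σ) ≤ 1 := by
    rw [div_le_one h3]
    nlinarith
  have h5 : 0 ≤ (1 - σ) / (a - b * σ) := div_nonneg (by linarith) h3.le
  refine ⟨(1 - σ) / (a - b * σ), h5, h4, by nlinarith, ?_⟩
  have h6 : (1 - σ) / (a - b * σ) * (a - b * σ) = 1 - σ := div_mul_cancel₀ _ h3.ne'
  linarith

theorem cexp_half (d : ℕ) :
    Complex.exp (2 * Real.pi * Complex.I * ((d : ℝ) + 1 / 2 : ℝ)) = -1 := by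
  have : (2 * Real.pi * Complex.I * ((d : ℝ) + 1 / 2 : ℝ) : ℂ)
      = d * (2 * Real.pi * Complex.I) + Real.pi * Complex.I := by
    push_cast
    ring
  rw [this, Complex.exp_add, Complex.exp_nat_mul_two_pi_mul_I, Complex.exp_pi_mul_I, one_mul]

theorem mgf_al (m : ℕ) (a b : ℝ) (hab : b < a) (w : Finset (Fin m) → ℝ) (hw : ∀ I, 0 ≤ w I)
    (i : Fin m) (h : ∑ I, (if i ∈ I then w I else 0) ≤ 172 / 1000 * ∑ I, w I) :
    ∑ I : Finset (Fin m), w I * Real.exp (2 / 100 * ((if i ∈ I then a else b) / (a - b)))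
      ≤ Real.exp (2 / 100 * (b / (a - b))) * (1 + 351 / 100000) * ∑ I, w I := by
  have hΔ : a - b ≠ 0 := by linarith
  have h1 : Real.exp (2 / 100) ≤ 1 + 204 / 10000 := by
    have := Real.abs_exp_sub_one_sub_id_le (x := 2 / 100) (by rw [abs_of_pos] <;> norm_num)
    have := (abs_le.1 this).2
    norm_num at this ⊢
    linarith
  have h2 : ∀ I : Finset (Fin m), w I * Real.exp (2 / 100 * ((if i ∈ I then a else b) / (a - b)))
      ≤ Real.exp (2 / 100 * (b / (a - b))) * (w I + 204 / 10000 * (if i ∈ I then w I else 0)) := by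
    intro I
    have := hw I
    split_ifs
    · have e : 2 / 100 * (a / (a - b)) = 2 / 100 * (b / (a - b)) + 2 / 100 := by
        field_simp
        ring
      rw [e, Real.exp_add]
      have := Real.exp_pos (2 / 100 * (b / (a - b)))
      have h3 : w I * Real.exp (2 / 100) ≤ w I * (1 + 204 / 10000) :=
        mul_le_mul_of_nonneg_left h1 (hw I)
      nlinarith
    · simp [mul_comm]
  refine (Finset.sum_le_sum fun I _ => h2 I).trans ?_
  rw [← Finset.mul_sum, Finset.sum_add_distrib, ← Finset.mul_sum, mul_assoc]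
  refine mul_le_mul_of_nonneg_left ?_ (Real.exp_pos _).le
  have : 0 ≤ ∑ I, w I := Finset.sum_nonneg fun I _ => hw I
  linarith

theorem not_conj : ¬ Conj := by
  intro hC
  obtain ⟨B, T, hB0, hBA, hT, H⟩ := peaks_two
  obtain ⟨L, hL, m, hm, h, h1, h2, h3, h4⟩ := H (2 / 100000) (by norm_num)
  have hE : 0 < 17 / 100 - B := by linarith
  obtain ⟨Q0, hQ0⟩ := eventually_atTop.1
    (final_ineq L ((2 * m + 1) / (17 / 100 - B)) m hL (by positivity))
  obtain ⟨u, hu⟩ := exists_nat_ge (max Q0 640)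
  have hu1 : (640 : ℝ) ≤ u := (le_max_right _ _).trans hu
  have hu0 : 0 < u := by
    have : (0 : ℝ) < u := by linarith
    exact_mod_cast this
  obtain ⟨d, hd⟩ : ∃ d : ℕ, d = m * u := ⟨_, rfl⟩
  have hud : u ≤ d := hd ▸ Nat.le_mul_of_pos_left u hm
  have hud' : (u : ℝ) ≤ d := by exact_mod_cast hud
  have hd640 : (640 : ℝ) ≤ d := hu1.trans hud'
  have hd0 : (0 : ℝ) < d := by linarith
  have hd10 : 10 ≤ d := by
    have : (10 : ℝ) ≤ d := by linarith
    exact_mod_cast this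
  obtain ⟨b, τ, hb0, hb, hτ, Hb⟩ := peaks_one d hd10
  obtain ⟨a, ha⟩ : ∃ a : ℝ, a = 5 / d := ⟨_, rfl⟩
  rw [← ha] at Hb
  have had : a * d = 5 := by rw [ha]; field_simp
  have hbd : b * d ≤ 1 / 10 := by
    rw [le_div_iff₀ (by positivity)] at hb
    linarith
  have ha0 : 0 < a := by rw [ha]; positivity
  have ha1 : a ≤ 1 / 128 := by nlinarith
  have hΔd : 49 / 10 ≤ (a - b) * d := by linarith
  have hΔ : 0 < a - b := by
    by_contra hc
    push Not at hc
    nlinarith
  have hab : b < a := by linarith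
  have hκ : 24 / 5 / ((m : ℝ) * u) ≤ a - b := by
    have : (m : ℝ) * u = d := by rw [hd]; push_cast; ring
    rw [this, div_le_iff₀ hd0]
    linarith
  obtain ⟨p, hp0, hp1, hpb, hp⟩ := exists_p a b (24 / 5 / ((m : ℝ) * u)) hb0 hab (by linarith)
    (by positivity) hκ
  obtain ⟨τ', hτ'⟩ : ∃ τ' : ℝ, τ' = T * m / (1 - p * b) ^ (m * u) := ⟨_, rfl⟩
  have hτ'0 : 0 ≤ τ' := by rw [hτ']; positivity
  obtain ⟨E, hEdef⟩ : ∃ E : ℝ, E = 17 / 100 - B := ⟨_, rfl⟩
  obtain ⟨β, hβ⟩ : ∃ β : ℝ, β = b / ((a - b) * E) + B / E := ⟨_, rfl⟩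
  obtain ⟨Q, hQ⟩ : ∃ Q : ℝ, Q = (d : ℝ) + 1 / 2 + 1 := ⟨_, rfl⟩
  have hQQ : Q0 ≤ Q := by
    have := (le_max_left _ _).trans hu
    linarith
  obtain ⟨hf1, hf2⟩ := hQ0 Q hQQ
  have hDal : ∀ (x : ℝ) (I : Finset (Fin m)),
      DD m u τ' p h (a - b) E (x, fun i => if i ∈ I then a else b)
        = om m B T h x I * Real.exp (h * (m * b / (a - b)) + x * (b / ((a - b) * E))) := by
    intro x I
    rw [hτ', hEdef]
    exact DD_al m u hm hu0 a b p B T h x hab hBA hpb hp I
  have hKal : ∀ I : Finset (Fin m),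
      (∑ i, (if i ∈ I then a else b)) / ((a - b) * m * E) - β = zz m B I := by
    intro I
    rw [hβ, hEdef]
    exact K_al m hm a b B hab hBA I
  have hred : ∀ (x c : ℝ) (ψ : Finset (Fin m) → ℝ),
      (∑ I, om m B T h x I * ψ I ≤ c * ∑ I, om m B T h x I) →
      ∑ I : Finset (Fin m), DD m u τ' p h (a - b) E (x, fun i => if i ∈ I then a else b) * ψ I
        ≤ c * ∑ I : Finset (Fin m),
          DD m u τ' p h (a - b) E (x, fun i => if i ∈ I then a else b) := by
    intro x c ψ hh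
    simp only [hDal]
    have := mul_le_mul_of_nonneg_right hh
      (Real.exp_pos (h * (m * b / (a - b)) + x * (b / ((a - b) * E)))).le
    rw [Finset.sum_mul, mul_assoc, Finset.sum_mul] at this
    refine le_trans (le_of_eq (Finset.sum_congr rfl fun I _ => ?_)) this
    ring
  have TU := trans_use m a b L hb0.le hab (by linarith) hL.le (DD m u τ' p h (a - b) E)
    (DD_cont _ _ _ _ _ _ _) (DD_pos _ _ _ _ _ _ _)
  have T1 := TU (fun α => min 2 (7 * |(∑ i, α i) / ((a - b) * m * E) - β|)) (by fun_prop)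
    (2 / 100000) (3 / 100000) (by norm_num)
  have T2 := TU (fun α => min 2 (7 * |(∑ i, α i) / ((a - b) * m * E) - β - 1|)) (by fun_prop)
    (2 / 100000) (3 / 100000) (by norm_num)
  have T3 := TU (fun α => min (7 * |(∑ i, α i) / ((a - b) * m * E) - β|)
    (min 2 (7 * |(∑ i, α i) / ((a - b) * m * E) - β - 1|))) (by fun_prop)
    (2 / 100000) (3 / 100000) (by norm_num)
  have T4 := TU (fun α => ∑ i, max 0 (α i - a) / a) (by fun_prop)
    0 (Real.exp (-(8 / 100000 * Q))) (Real.exp_pos _)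
  have T5 := fun i : Fin m => TU (fun α => Real.exp (2 / 100 * (α i / (a - b)))) (by fun_prop)
    (Real.exp (2 / 100 * (b / (a - b))) * (1 + 351 / 100000))
    (Real.exp (2 / 100 * (b / (a - b)) + 352 / 100000)) (by
      rw [Real.exp_add]
      refine mul_lt_mul_of_pos_left ?_ (Real.exp_pos _)
      have := Real.add_one_le_exp (352 / 100000)
      linarith)
  obtain ⟨δ, hδ, t1, t2, t3, t4, t5⟩ :=
    ((show ∀ᶠ δ in 𝓝[>] (0 : ℝ), 0 < δ from self_mem_nhdsWithin).and
      (T1.and (T2.and (T3.and (T4.and (eventually_all.2 T5)))))).exists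
  obtain ⟨n, hn, r, hr⟩ := ((eventually_gt_atTop 0).and (Hb δ hδ)).exists
  have hn' : (0 : ℝ) < n := by exact_mod_cast hn
  have hm' : (0 : ℝ) < m := by exact_mod_cast hm
  have hE0 : 0 < E := by rw [hEdef]; exact hE
  have hW : ∀ t : ℕ, 0 < Real.exp (τ * n * (1 - (t : ℝ) / n) ^ d + r * t) / (t.factorial : ℝ) :=
    fun t => by positivity
  replace t1 := t1 n hn _ hW hr
  replace t2 := t2 n hn _ hW hr
  replace t3 := t3 n hn _ hW hr
  replace t4 := t4 n hn _ hW hr
  replace t5 := fun i => t5 i n hn _ hW hr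
  have hfac := phi_factor m n d u τ τ' p r h (a - b) E
  obtain ⟨c, hc, hc0, hid⟩ := exists_c hC m n d u hn hd.ge (τ * n) τ' p (r + h / (n * (a - b)))
    ((d : ℝ) + 1 / 2) (by positivity) hτ'0 hp0 hp1 (by linarith) (by linarith)
  have hmL : -L ∈ Set.Icc (-L) L := ⟨le_rfl, by linarith⟩
  have hpL : L ∈ Set.Icc (-L) L := ⟨by linarith, le_rfl⟩
  refine core ((d : ℝ) + 1 / 2) (by linarith) (cexp_half d) c _ hc hc0
    (phi_pos _ _ _ _ _ _ _ _) (phi_sup m n d u hn _ _ _ _ hτ'0 hp0 hp1) hid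
    (n * ((a - b) * m * E)) L (3 / 100000) β (n * (1 - 2 * a)) (2 / 100 / (n * (a - b)))
    (Real.exp (2 / 100 * (b / (a - b)) + 352 / 100000))
    (m * Real.exp (-(8 / 100000 * Q))) (Real.exp (-(8 / 100000 * Q)))
    ((2 * m + 1) / (17 / 100 - B) * Q ^ 2 * Real.exp (-(8 / 100000 * Q)))
    (by positivity) hL (by norm_num) (by norm_num)
    (mul_nonneg hn'.le (by linarith)) (by positivity) (Real.exp_pos _).le
    ?_ ?_ ?_ ?_ ?_ ?_ hf1 ?_ ?_
  · simp only [hfac]
    simp only [tot_div]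
    refine t1 _ hmL (hred _ _ _ ?_)
    simp only [hKal]
    exact h1
  · simp only [hfac]
    simp only [tot_div]
    refine t2 _ hpL (hred _ _ _ ?_)
    simp only [hKal]
    exact h2
  · intro x hx
    simp only [hfac]
    simp only [tot_div]
    refine t3 _ hx (hred _ _ _ ?_)
    simp only [hKal]
    exact h3 x hx
  · intro x hx
    simp only [hfac]
    refine le_trans (Finset.sum_le_sum fun t _ => ?_) (t4 _ hx (hred _ _ _ ?_))
    · have hpos : 0 < (∏ i, Real.exp (τ * n * (1 - ((t i : ℕ) : ℝ) / n) ^ d + r * (t i : ℕ)) /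
          ((t i : ℕ).factorial : ℝ)) *
          DD m u τ' p h (a - b) E (x, fun i => ((t i : ℕ) : ℝ) / n) :=
        mul_pos (Finset.prod_pos fun i _ => hW _) (DD_pos _ _ _ _ _ _ _ _)
      have hnn : ∀ i ∈ (univ : Finset (Fin m)), 0 ≤ max 0 (((t i : ℕ) : ℝ) / n - a) / a :=
        fun i _ => div_nonneg (le_max_left _ _) ha0.le
      split_ifs with hex
      · obtain ⟨i, hi⟩ := hex
        refine le_mul_of_one_le_right hpos.le
          (le_trans ?_ (Finset.single_le_sum hnn (Finset.mem_univ i)))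
        rw [le_div_iff₀ ha0]
        refine le_trans ?_ (le_max_right _ _)
        rw [le_sub_iff_add_le, le_div_iff₀ hn']
        linarith
      · exact mul_nonneg hpos.le (Finset.sum_nonneg hnn)
    · rw [zero_mul]
      refine le_of_eq (Finset.sum_eq_zero fun I _ => mul_eq_zero_of_right _
        (Finset.sum_eq_zero fun i _ => ?_))
      rw [max_eq_left, zero_div]
      by_cases hi : i ∈ I <;> simp [hi, hab.le]
  · intro x hx i
    simp only [hfac]
    have e : ∀ t : ℕ, 2 / 100 / (n * (a - b)) * (t : ℝ) = 2 / 100 * ((t : ℝ) / n / (a - b)) := by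
      intro t
      field_simp
    simp only [e]
    exact t5 i _ hx (hred _ _ _ (mgf_al m a b hab _ (fun I => (Real.exp_pos _).le) i (h4 x hx i)))
  · refine mul_le_mul_of_nonneg_left (Real.exp_le_exp.2 ?_) hm'.le
    rw [Real.log_exp, ← hQ]
    have e : 2 / 100 / (n * (a - b)) * (n * (1 - 2 * a)) = 2 / 100 * ((1 - 2 * a) / (a - b)) := by
      field_simp
    rw [e]
    have key : 18 / 100 * Q + Q * (b / (a - b)) ≤ (1 - 2 * a) / (a - b) := by
      rw [le_div_iff₀ hΔ]
      have e2 : (18 / 100 * Q + Q * (b / (a - b))) * (a - b) = Q * (18 / 100 * a + 82 / 100 * b) := by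
        field_simp
        ring
      rw [e2, hQ]
      nlinarith
    linarith
  · rw [← hQ, ← hEdef]
    have e : (m : ℝ) * n / (n * ((a - b) * m * E)) = 1 / (a - b) / E := by
      field_simp
    have k : 1 / (a - b) ≤ Q := by
      rw [div_le_iff₀ hΔ, hQ]
      nlinarith
    have hQ0' : 0 < Q := by rw [hQ]; linarith
    rw [e]
    have hx := Real.exp_pos (-(8 / 100000 * Q))
    calc Q * (1 / (a - b) / E) * (2 * (m * Real.exp (-(8 / 100000 * Q))) +
          Real.exp (-(8 / 100000 * Q)))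
        ≤ Q * (Q / E) * (2 * (m * Real.exp (-(8 / 100000 * Q))) +
          Real.exp (-(8 / 100000 * Q))) := by gcongr
      _ = _ := by ring
  · rw [← hQ]
    exact hf2

end Pool.Agent.P.MP_abed8b_co
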